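import Pool.Agent.Helper57.SC.V5

/-! SC-12 (project FOL, case Y, z = 5): all dimensions.  `q5 m`: type `Pl5` for `m = 3`, not a cone for `m = 5`.
* `e2_step`: `U_m` = section of dimension `m`; `e_0 = e_1 = 0` for all sections (`finrank_EE_zero_of_rs`), so `e_2(U_(m+1)) ≤ e_2(U_m)`
  (`finrank_EE_le_rs`).  `e_2(U_3) = 2`, `e_2(U_4) ∈ {1, 2}` (`H0`), `e_2(U_5) ∈ {1, 2}` (`V5`).
  If `e_2(U_(m+1)) = e_2(U_m)` for some `m ≥ 3` then `LiftAt _ 2` for the step `U_m ⊂ U_(m+1)` (`liftAt_of_finrank`), `LiftAt _ 0`, `LiftAt _ 1` trivially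
  (`liftAt_of_zero`), and `lemmaS` gives `LiftAt _ 2` for all further steps, so `e_2(U_(m'))` is constant for `m' ≥ m`.
  The equality happens for `m = 3` (`e_2(U_4) = 2`) or for `m = 4` (`e_2(U_4) = e_2(U_5) = 1`): so `e_2(U_m) ≥ 1` for all `m ≥ 3`.
  In Lean: prove by induction on `n` (`θ` in `n + 5` variables) that `1 ≤ e_2(θ)` and that `LiftAt θ k` holds for all `k ≤ 2` if `n ≥ 1`, or
  (`n = 0`) `LiftAt θ 2 ∨ LiftAt (rs2 θ) 2`. -/

set_option autoImplicit false

namespace Pool.Agent.Helper57.SC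

open MvPolynomial
open scoped BigOperators
open Pool.Agent.Helper71.FL (w12 pf ct Dec Closed dd res)
open Pool.Agent.Helper71.FC

/-- the general 3-dimensional section has type `Pl5`, the general 5-dimensional section is not a cone -/
def q5 : (m : ℕ) → F2 m → Prop
  | 3, θ => Pl5 θ
  | 5, θ => ¬ Cone θ
  | _, _ => True

theorem q5_inv (m : ℕ) (θ : F2 m) (g g' : Fin m → Fin m → ℂ) (hF : Fol θ) (hg : Inv g g')
    (h : q5 m θ) : q5 m (pb2 g θ) := by
  match m, θ, g, g', hF, hg, h with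
  | 0, _, _, _, _, _, _ => exact trivial
  | 1, _, _, _, _, _, _ => exact trivial
  | 2, _, _, _, _, _, _ => exact trivial
  | 3, θ, g, g', hF, hg, h => exact Pl5_pb2 hF h hg
  | 4, _, _, _, _, _, _ => exact trivial
  | 5, θ, g, g', hF, hg, h => exact fun hc => h ((Cone_pb2 θ hg).1 hc)
  | m + 6, _, _, _, _, _, _ => exact trivial

private theorem an_nz {n : ℕ} {θ : F2 (n + 1)} (h : GP θ) : ∃ i j, rs2 θ i j ≠ 0 := by
  by_contra hcon
  push Not at hcon
  have := h.prim 0 (fun i j => by rw [hcon])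
  exact not_isUnit_zero this

private theorem an_fol : ∀ (n : ℕ) (θ : F2 (n + 3)), Flag q5 n θ → Fol θ
  | 0, _, h => h.1
  | _ + 1, _, h => h.1

/-- `E_0 = E_1 = 0` for all sections -/
private theorem an_small : ∀ (n : ℕ) (θ : F2 (n + 3)), Flag q5 n θ →
    ∀ l ≤ 1, Module.finrank ℂ (EE θ l) = 0 := by
  intro n
  induction n with
  | zero =>
    intro θ h l hl
    have hP : Pl5 θ := h.2
    interval_cases l
    · exact hP.e0
    · exact hP.e1
  | succ n ih =>
    intro θ h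
    exact finrank_EE_zero_of_rs (an_nz h.2.2.1) (ih (rs2 θ) h.2.2.2)

/-- a lift of a non zero element is not zero -/
private theorem an_pos {n : ℕ} {θ : F2 (n + 1)} {k : ℕ} (hl : LiftAt θ k)
    (h : Module.finrank ℂ (EE (rs2 θ) k) ≠ 0) : Module.finrank ℂ (EE θ k) ≠ 0 := by
  intro h0
  apply h
  have := finite_EE θ k
  have hbot : EE θ k = ⊥ := Submodule.finrank_eq_zero.mp h0
  have hb2 : EE (rs2 θ) k = ⊥ := by
    rw [eq_bot_iff]
    intro ζ hζ
    obtain ⟨ξ, hξ, hr⟩ := hl ζ hζ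
    rw [hbot] at hξ
    have hξ0 : ξ = 0 := (Submodule.mem_bot ℂ).1 hξ
    rw [Submodule.mem_bot]
    funext i
    rw [← hr i, hξ0]
    exact map_zero _
  rw [hb2, finrank_bot]

/-- the first step: `E_2 ∈ {1, 2}` for the section of dimension 4 -/
private theorem an_four {θ : F2 4} (h : Flag q5 1 θ) :
    Module.finrank ℂ (EE θ 2) = 1 ∨ (Module.finrank ℂ (EE θ 2) = 2 ∧ ∀ k ≤ 2, LiftAt θ k) := by
  have hF : Fol θ := h.1
  have gp : GP θ := h.2.2.1
  have hP : Pl5 (rs2 θ) := h.2.2.2.2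
  have h1 : Module.finrank ℂ (EE θ 2) ≤ 2 := H_e2 gp hP
  have h2 : Module.finrank ℂ (EE θ 2) ≠ 0 := H0 hF gp hP
  by_cases h3 : Module.finrank ℂ (EE θ 2) = 1
  · exact Or.inl h3
  · right
    have h4 : Module.finrank ℂ (EE θ 2) = 2 := by omega
    refine ⟨h4, fun k hk => ?_⟩
    interval_cases k
    · exact liftAt_of_zero hP.e0
    · exact liftAt_of_zero hP.e1
    · exact liftAt_of_finrank (an_nz gp) (an_small 1 θ h 1 le_rfl) (h4.trans hP.e2.symm)

/-- lifting holds for all sections of dimension at least 5 -/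
private theorem an_lift (hX : LemmaX) : ∀ (n : ℕ) (θ : F2 (n + 5)), Flag q5 (n + 2) θ →
    ∀ k ≤ 2, LiftAt θ k := by
  intro n
  induction n with
  | zero =>
    intro θ h
    have hF : Fol θ := h.1
    have gp : GP θ := h.2.2.1
    have hH : Flag q5 1 (rs2 θ) := h.2.2.2
    have gpH : GP (rs2 θ) := hH.2.2.1
    have hP : Pl5 (rs2 (rs2 θ)) := hH.2.2.2.2
    have hC : ¬ Cone θ := h.2.1
    rcases an_four hH with h1 | ⟨_, h1⟩
    · have h2 : Module.finrank ℂ (EE θ 2) ≠ 0 := V5 hX hF hC gp gpH hP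
      have hs := an_small 2 θ h
      have h3 : Module.finrank ℂ (EE θ 2) ≤ Module.finrank ℂ (EE (rs2 θ) 2) :=
        finrank_EE_le_rs (an_nz gp) (hs 1 le_rfl)
      have hsH := an_small 1 (rs2 θ) hH
      have h4 : Module.finrank ℂ (EE θ 2) = Module.finrank ℂ (EE (rs2 θ) 2) := by omega
      intro k hk
      interval_cases k
      · exact liftAt_of_zero (hsH 0 (by omega))
      · exact liftAt_of_zero (hsH 1 le_rfl)
      · exact liftAt_of_finrank (an_nz gp) (hs 1 le_rfl) h4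
    · exact lemmaS (n := 3) le_rfl hF gp gpH h1
  | succ n ih =>
    intro θ h
    have hF : Fol θ := h.1
    have gp : GP θ := h.2.2.1
    have hH : Flag q5 (n + 2) (rs2 θ) := h.2.2.2
    have gpH : GP (rs2 θ) := hH.2.2.1
    exact lemmaS (n := n + 4) (by omega) hF gp gpH (ih (rs2 θ) hH)

/-- plane type `z = 5`: `E_2 ≠ 0` in all dimensions -/
theorem allN5 (hX : LemmaX) (n : ℕ) (θ : F2 (n + 3)) (h : Flag q5 n θ) :
    Module.finrank ℂ (EE θ 2) ≠ 0 := by
  induction n with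
  | zero =>
    have hP : Pl5 θ := h.2
    rw [hP.e2]
    exact two_ne_zero
  | succ n ih =>
    cases n with
    | zero =>
      rcases an_four h with h1 | ⟨h1, _⟩ <;> rw [h1] <;> norm_num
    | succ n =>
      exact an_pos (an_lift hX n θ h 2 le_rfl) (ih (rs2 θ) h.2.2.2)

end Pool.Agent.Helper57.SC
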