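import Pool.Agent.Helper57.SC.QM

/-! SC-6 (project FOL, case Y): annihilators of elements of `M`, consequences of `ann_lemma` (A1).
`b` has degree `d + 2`, `y b = ξ_y ∧ θ` with `ξ_y` homogeneous of degree `d` (`mem_BB_iff`).

* `ann_two`: `AnnB θ b` contains two independent vectors `a, a'`; `ann_lemma` gives `y ξ' - y' ξ ≠ 0` in `EE θ (d + 1)`.
* `ann_three`: three independent vectors `a_1, a_2, a_3`, `y_i = lf a_i`, `y_i b = ξ_i ∧ θ`, `ε_ij = y_i ξ_j - y_j ξ_i ∈ EE θ (d + 1)`.  Suppose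
  `c_1 ε_23 + c_2 ε_31 + c_3 ε_12 = 0` with `c ≠ 0`.  The 2-vector `c_1 e_23 + c_2 e_31 + c_3 e_12` in three variables is `u ∧ v` with independent `u, v`
  (for instance `c_3 ≠ 0`: `(e_1 - (c_1/c_3) e_3) ∧ (c_3 e_2 - c_2 e_3)`), so the sum is `ε(u, v)`, formed with `y_u = Σ u_i y_i`, `ξ_u = Σ u_i ξ_i`;
  `ann_lemma` says `ε(u, v) ≠ 0`.  So `ε_23, ε_31, ε_12` are independent.
* `quad_ann`: `X 0 * ..` replaced by a linear form `y ≠ 0` with `y b = ξ ∧ θ`, `ξ` of degree `0`, and a quadratic form `p` with `p b = η ∧ θ`, `η` of degree 1: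
  `y η - p ξ ∈ EE θ 2 = 0`, so `y` divides the products `p ξ_i`, `ξ_i` constants; `ξ ≠ 0` because `b ≠ 0` is not a multiple, so `y ∣ p`. -/

set_option autoImplicit false

namespace Pool.Agent.Helper57.SC

open MvPolynomial
open scoped BigOperators
open Pool.Agent.Helper71.FL (w12 pf ct Dec Closed dd)
open Pool.Agent.Helper71.FC

variable {n : ℕ}

/-- linear forms which move `b` into the multiples of `θ` -/
noncomputable def AnnB (θ : F2 n) (b : F3 n) : Submodule ℂ (Fin n → ℂ) where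
  carrier := {a | IsB θ (fun i j k => lf a * b i j k)}
  add_mem' := by
    intro a a' h h'
    obtain ⟨c, hc⟩ := h.add h'
    refine ⟨c, fun i j k => ?_⟩
    rw [← hc]
    show lf (a + a') * b i j k = lf a * b i j k + lf a' * b i j k
    unfold lf
    rw [← add_mul, ← Finset.sum_add_distrib]
    congr 1
    apply Finset.sum_congr rfl
    intro l _
    rw [Pi.add_apply, C_add]
    ring
  zero_mem' := by
    refine ⟨fun _ => 0, fun i j k => ?_⟩
    simp [w12, lf]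
  smul_mem' := by
    intro c a h
    obtain ⟨e, he⟩ := h.smul (C c)
    refine ⟨e, fun i j k => ?_⟩
    rw [← he]
    show lf (c • a) * b i j k = C c * (lf a * b i j k)
    unfold lf
    rw [← mul_assoc, Finset.mul_sum]
    congr 1
    apply Finset.sum_congr rfl
    intro l _
    rw [Pi.smul_apply, smul_eq_mul, C_mul]
    ring

theorem mem_AnnB {θ : F2 n} {b : F3 n} {a : Fin n → ℂ} :
    a ∈ AnnB θ b ↔ IsB θ (fun i j k => lf a * b i j k) := Iff.rfl

private theorem ann_lf_add (a a' : Fin n → ℂ) : (lf (a + a') : Pn n) = lf a + lf a' := by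
  unfold lf
  rw [← Finset.sum_add_distrib]
  refine Finset.sum_congr rfl fun i _ => ?_
  rw [Pi.add_apply, C_add, add_mul]

private theorem ann_lf_smul (c : ℂ) (a : Fin n → ℂ) : (lf (c • a) : Pn n) = C c * lf a := by
  unfold lf
  rw [Finset.mul_sum]
  refine Finset.sum_congr rfl fun i _ => ?_
  rw [Pi.smul_apply, smul_eq_mul, C_mul, mul_assoc]

private theorem ann_lf_inj {a : Fin n → ℂ} (h : (lf a : Pn n) = 0) : a = 0 := by
  classical
  funext i
  have h1 := congrArg (eval (Pi.single i (1 : ℂ))) h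
  unfold lf at h1
  rw [map_sum, Finset.sum_eq_single i] at h1
  · simpa using h1
  · intro j _ hj
    rw [map_mul, eval_C, eval_X, Pi.single_eq_of_ne hj, mul_zero]
  · intro h; exact absurd (Finset.mem_univ _) h

private theorem ann_lf_hom (a : Fin n → ℂ) : (lf a : Pn n).IsHomogeneous 1 := by
  unfold lf
  refine IsHomogeneous.sum _ _ _ fun i _ => ?_
  exact (isHomogeneous_X ℂ i).C_mul (a i)

private theorem ann_finite_EE (θ : F2 n) (k : ℕ) : Module.Finite ℂ (EE θ k) := by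
  have h1 : Module.Finite ℂ (homogeneousSubmodule (Fin n) ℂ k) :=
    Module.Finite.iff_fg.mpr (homogeneousSubmodule_fg (Fin n) ℂ k)
  let f : EE θ k →ₗ[ℂ] (Fin n → homogeneousSubmodule (Fin n) ℂ k) :=
    { toFun := fun b i => ⟨b.1 i, b.2.1 i⟩
      map_add' := fun a b => rfl
      map_smul' := fun c a => rfl }
  refine Module.Finite.of_injective f fun a b hab => ?_
  apply Subtype.ext
  funext i
  exact congrArg Subtype.val (congrFun hab i)

/-- homogeneous multipliers -/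
private theorem ann_lift {θ : F2 n} (hθ : ∀ i j, (θ i j).IsHomogeneous 3) {d e : ℕ} {b : F3 n}
    (hb : ∀ i j k, (b i j k).IsHomogeneous e) {y : Pn n} {m : ℕ} (hy : y.IsHomogeneous m)
    (hd : m + e = d + 3) (h : IsB θ (fun i j k => y * b i j k)) :
    ∃ ξ : F1 n, (∀ i, (ξ i).IsHomogeneous d) ∧ ∀ i j k, y * b i j k = w12 ξ θ i j k := by
  refine (mem_BB_iff hθ).1 ⟨fun i j k => ?_, h⟩
  rw [← hd]
  exact hy.mul (hb i j k)

/-- `y ξ' - y' ξ` is a member of `EE` -/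
private theorem ann_mem {θ : F2 n} {b : F3 n} {y y' : Pn n} {m m' d d' e : ℕ}
    (hy : y.IsHomogeneous m) (hy' : y'.IsHomogeneous m') {ξ ξ' : F1 n}
    (hξ : ∀ i, (ξ i).IsHomogeneous d) (hξ' : ∀ i, (ξ' i).IsHomogeneous d')
    (h1 : m + d' = e) (h2 : m' + d = e)
    (h : ∀ i j k, y * b i j k = w12 ξ θ i j k)
    (h' : ∀ i j k, y' * b i j k = w12 ξ' θ i j k) :
    (fun l => y * ξ' l - y' * ξ l) ∈ EE θ e := by
  refine ⟨fun i => ?_, fun i j k => ?_⟩
  · have h3 := hy.mul (hξ' i)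
    have h4 := hy'.mul (hξ i)
    rw [h1] at h3
    rw [h2] at h4
    exact h3.sub h4
  · rw [Pool.Agent.Helper71.FL.w12_sub (fun l => y * ξ' l) (fun l => y' * ξ l),
      Pool.Agent.Helper71.FL.w12_smul, Pool.Agent.Helper71.FL.w12_smul, ← h, ← h']
    ring

private theorem ann_three_aux {θ : F2 n} {b : F3 n} (hb : ¬ IsB θ b) {y0 y1 y2 : Pn n}
    (hy0 : y0.IsHomogeneous 1) (hy1 : y1.IsHomogeneous 1) (hy2 : y2.IsHomogeneous 1)
    (hind : ∀ c0 c1 c2 : ℂ, C c0 * y0 + C c1 * y1 + C c2 * y2 = 0 → c0 = 0 ∧ c1 = 0 ∧ c2 = 0)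
    {ξ0 ξ1 ξ2 : F1 n} (h0 : ∀ i j k, y0 * b i j k = w12 ξ0 θ i j k)
    (h1 : ∀ i j k, y1 * b i j k = w12 ξ1 θ i j k) (h2 : ∀ i j k, y2 * b i j k = w12 ξ2 θ i j k)
    {c0 c1 c2 : ℂ}
    (h : ∀ l, C c0 * (y1 * ξ2 l - y2 * ξ1 l) + C c1 * (y2 * ξ0 l - y0 * ξ2 l) +
      C c2 * (y0 * ξ1 l - y1 * ξ0 l) = 0) : c2 = 0 := by
  by_contra hc
  obtain ⟨l, hl⟩ := (ann_lemma (θ := θ) hb (y := C c2 * y0 - C c0 * y2)
    (y' := C c2 * y1 - C c1 * y2) ((hy0.C_mul c2).sub (hy2.C_mul c0))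
    ((hy1.C_mul c2).sub (hy2.C_mul c1)) (fun s t hst => by
      have h3 := hind (s * c2) (t * c2) (-(s * c0 + t * c1)) (by
        rw [← hst]
        simp only [C_mul, C_neg, C_add]
        ring)
      exact ⟨(mul_eq_zero.1 h3.1).resolve_right hc, (mul_eq_zero.1 h3.2.1).resolve_right hc⟩)
    (ξ := fun l => C c2 * ξ0 l - C c0 * ξ2 l) (ξ' := fun l => C c2 * ξ1 l - C c1 * ξ2 l)
    (fun i j k => by
      rw [Pool.Agent.Helper71.FL.w12_sub (fun l => C c2 * ξ0 l) (fun l => C c0 * ξ2 l),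
        Pool.Agent.Helper71.FL.w12_smul, Pool.Agent.Helper71.FL.w12_smul, ← h0, ← h2]
      ring)
    (fun i j k => by
      rw [Pool.Agent.Helper71.FL.w12_sub (fun l => C c2 * ξ1 l) (fun l => C c1 * ξ2 l),
        Pool.Agent.Helper71.FL.w12_smul, Pool.Agent.Helper71.FL.w12_smul, ← h1, ← h2]
      ring)).2
  apply hl
  linear_combination (C c2) * h l

theorem ann_two {θ : F2 n} (hF : Fol θ) {d : ℕ} {b : F3 n}
    (hb : ∀ i j k, (b i j k).IsHomogeneous (d + 2)) (hnb : ¬ IsB θ b)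
    (h : 2 ≤ Module.finrank ℂ (AnnB θ b)) : Module.finrank ℂ (EE θ (d + 1)) ≠ 0 := by
  obtain ⟨f, hf⟩ := exists_linearIndependent_of_le_finrank h
  have hfin := ann_finite_EE θ (d + 1)
  obtain ⟨ξ, hξ, hξ1⟩ := ann_lift hF.hom hb (ann_lf_hom (f 0).1) (d := d) (by omega) (f 0).2
  obtain ⟨ξ', hξ', hξ1'⟩ := ann_lift hF.hom hb (ann_lf_hom (f 1).1) (d := d) (by omega) (f 1).2
  have hmem := ann_mem (e := d + 1) (ann_lf_hom (f 0).1) (ann_lf_hom (f 1).1) hξ hξ'
    (by omega) (by omega) hξ1 hξ1'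
  obtain ⟨l, hl⟩ := (ann_lemma hnb (ann_lf_hom (f 0).1) (ann_lf_hom (f 1).1) (fun c c' hcc => by
    rw [← ann_lf_smul, ← ann_lf_smul, ← ann_lf_add] at hcc
    have h1 := ann_lf_inj hcc
    have h2 := Fintype.linearIndependent_iff.1 hf ![c, c'] (by
      rw [Fin.sum_univ_two]
      apply Subtype.ext
      simpa using h1)
    exact ⟨by simpa using h2 0, by simpa using h2 1⟩) hξ1 hξ1').2
  intro h0
  have h1 := Module.finrank_zero_iff.1 h0
  have h2 : (⟨_, hmem⟩ : EE θ (d + 1)) = 0 := Subsingleton.elim _ _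
  exact hl (congrFun (congrArg Subtype.val h2) l)

theorem ann_three {θ : F2 n} (hF : Fol θ) {d : ℕ} {b : F3 n}
    (hb : ∀ i j k, (b i j k).IsHomogeneous (d + 2)) (hnb : ¬ IsB θ b)
    (h : 3 ≤ Module.finrank ℂ (AnnB θ b)) : 3 ≤ Module.finrank ℂ (EE θ (d + 1)) := by
  obtain ⟨f, hf⟩ := exists_linearIndependent_of_le_finrank h
  have hfin := ann_finite_EE θ (d + 1)
  have hL : ∀ i : Fin 3, ∃ ξ : F1 n, (∀ l, (ξ l).IsHomogeneous d) ∧
      ∀ l j k, lf (f i).1 * b l j k = w12 ξ θ l j k := fun i =>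
    ann_lift hF.hom hb (ann_lf_hom (f i).1) (d := d) (by omega) (f i).2
  choose ξ hξ hξ1 using hL
  have hind : ∀ c : Fin 3 → ℂ, C (c 0) * lf (f 0).1 + C (c 1) * lf (f 1).1 + C (c 2) * lf (f 2).1 = 0 →
      ∀ i, c i = 0 := by
    intro c hc
    rw [← ann_lf_smul, ← ann_lf_smul, ← ann_lf_smul, ← ann_lf_add, ← ann_lf_add] at hc
    have h1 := ann_lf_inj hc
    exact Fintype.linearIndependent_iff.1 hf c (by
      rw [Fin.sum_univ_three]
      apply Subtype.ext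
      simpa using h1)
  have hmem : ∀ i j : Fin 3, (fun l => lf (f i).1 * ξ j l - lf (f j).1 * ξ i l) ∈ EE θ (d + 1) :=
    fun i j => ann_mem (e := d + 1) (ann_lf_hom (f i).1) (ann_lf_hom (f j).1) (hξ i) (hξ j)
      (by omega) (by omega) (hξ1 i) (hξ1 j)
  let F : Fin 3 → EE θ (d + 1) := ![⟨_, hmem 1 2⟩, ⟨_, hmem 2 0⟩, ⟨_, hmem 0 1⟩]
  have hFi : LinearIndependent ℂ F := by
    rw [Fintype.linearIndependent_iff]
    intro c hc
    rw [Fin.sum_univ_three] at hc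
    have hc1 : ∀ l, C (c 0) * (lf (f 1).1 * ξ 2 l - lf (f 2).1 * ξ 1 l) +
        C (c 1) * (lf (f 2).1 * ξ 0 l - lf (f 0).1 * ξ 2 l) +
        C (c 2) * (lf (f 0).1 * ξ 1 l - lf (f 1).1 * ξ 0 l) = 0 := by
      intro l
      have h1 := congrFun (congrArg Subtype.val hc) l
      refine Eq.trans ?_ h1
      show _ = c 0 • (lf (f 1).1 * ξ 2 l - lf (f 2).1 * ξ 1 l) +
        c 1 • (lf (f 2).1 * ξ 0 l - lf (f 0).1 * ξ 2 l) +
        c 2 • (lf (f 0).1 * ξ 1 l - lf (f 1).1 * ξ 0 l)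
      rw [smul_eq_C_mul, smul_eq_C_mul, smul_eq_C_mul]
    have e2 : c 2 = 0 := ann_three_aux hnb (ann_lf_hom (f 0).1) (ann_lf_hom (f 1).1)
      (ann_lf_hom (f 2).1) (fun c0 c1 c2 h => by
        have h3 := hind ![c0, c1, c2] (by simpa using h)
        exact ⟨by simpa using h3 0, by simpa using h3 1, by simpa using h3 2⟩)
      (hξ1 0) (hξ1 1) (hξ1 2) hc1
    have e0 : c 0 = 0 := ann_three_aux hnb (ann_lf_hom (f 1).1) (ann_lf_hom (f 2).1)
      (ann_lf_hom (f 0).1) (fun c0 c1 c2 h => by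
        have h3 := hind ![c2, c0, c1] (by
          rw [← h]
          show C c2 * lf (f 0).1 + C c0 * lf (f 1).1 + C c1 * lf (f 2).1 = _
          ring)
        exact ⟨by simpa using h3 1, by simpa using h3 2, by simpa using h3 0⟩)
      (hξ1 1) (hξ1 2) (hξ1 0) (c0 := c 1) (c1 := c 2) (fun l => by
        have := hc1 l
        linear_combination this)
    have e1 : c 1 = 0 := ann_three_aux hnb (ann_lf_hom (f 2).1) (ann_lf_hom (f 0).1)
      (ann_lf_hom (f 1).1) (fun c0 c1 c2 h => by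
        have h3 := hind ![c1, c2, c0] (by
          rw [← h]
          show C c1 * lf (f 0).1 + C c2 * lf (f 1).1 + C c0 * lf (f 2).1 = _
          ring)
        exact ⟨by simpa using h3 2, by simpa using h3 0, by simpa using h3 1⟩)
      (hξ1 2) (hξ1 0) (hξ1 1) (c0 := c 2) (c1 := c 0) (fun l => by
        have := hc1 l
        linear_combination this)
    intro i
    fin_cases i
    · exact e0
    · exact e1
    · exact e2
  have := hFi.fintype_card_le_finrank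
  simpa using this

theorem quad_ann {θ : F2 n} (hF : Fol θ) {b : F3 n} (hb : ∀ i j k, (b i j k).IsHomogeneous 2)
    (hnb : ¬ IsB θ b) (hE : Module.finrank ℂ (EE θ 2) = 0) {y p : Pn n} (hy : y.IsHomogeneous 1)
    (hy0 : y ≠ 0) (hp : p.IsHomogeneous 2) (h1 : IsB θ (fun i j k => y * b i j k))
    (h2 : IsB θ (fun i j k => p * b i j k)) : y ∣ p := by
  have hfin := ann_finite_EE θ 2
  obtain ⟨ξ, hξ, hξ1⟩ := ann_lift hF.hom hb hy (d := 0) (by omega) h1
  obtain ⟨η, hη, hη1⟩ := ann_lift hF.hom hb hp (d := 1) (by omega) h2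
  have hmem := ann_mem (e := 2) hy hp hξ hη (by omega) (by omega) hξ1 hη1
  have h3 := Module.finrank_zero_iff.1 hE
  have h4 : (⟨_, hmem⟩ : EE θ 2) = 0 := Subsingleton.elim _ _
  have h5 : ∀ l, y * η l - p * ξ l = 0 := fun l => congrFun (congrArg Subtype.val h4) l
  obtain ⟨l, hl⟩ : ∃ l, ξ l ≠ 0 := by
    by_contra hcon
    push Not at hcon
    apply hnb
    refine ⟨fun _ => 0, fun i j k => mul_left_cancel₀ hy0 ?_⟩
    rw [hξ1, show ξ = fun _ => 0 from funext hcon]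
    simp [w12]
  have h6 : (ξ l).totalDegree = 0 := (hξ l).totalDegree hl
  obtain ⟨r, hr⟩ : ∃ r, ξ l = C r := ⟨_, (totalDegree_eq_zero_iff_eq_C (p := ξ l)).mp h6⟩
  have hr0 : r ≠ 0 := by
    rintro rfl
    exact hl (by rw [hr, C_0])
  refine ⟨C r⁻¹ * η l, ?_⟩
  have h7 := h5 l
  rw [hr] at h7
  have h8 : (C r⁻¹ : Pn n) * C r = 1 := by
    rw [← C_mul, inv_mul_cancel₀ hr0, C_1]
  linear_combination (-(C r⁻¹ : Pn n)) * h7 - p * h8

/-- rank-nullity for `a ↦ lf a * b` with values in `M[d+1]` -/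
theorem ann_add {θ : F2 n} {d : ℕ} {b : F3 n} (hb : b ∈ BS θ d) :
    n ≤ Module.finrank ℂ (AnnB θ b) + mM θ (d + 1) := by
  let φ : (Fin n → ℂ) →ₗ[ℂ] Qm θ :=
    LinearMap.flip (actQ θ : (Fin n → ℂ) →ₗ[ℂ] (Qm θ →ₗ[ℂ] Qm θ)) ((Bsub θ).mkQ b)
  have h1 : LinearMap.ker φ = AnnB θ b := by
    ext a
    rw [LinearMap.mem_ker]
    show actQ θ a ((Bsub θ).mkQ b) = 0 ↔ _
    rw [actQ_mk, mkQ_eq_zero]
    rfl
  have h2 : LinearMap.range φ ≤ MQ θ (d + 1) := by
    rintro _ ⟨a, rfl⟩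
    exact ⟨_, mul_mem_BS hb a, (actQ_mk θ a b).symm⟩
  have hfin := finite_BS θ (d + 1)
  have h3 : Module.Finite ℂ (MQ θ (d + 1)) := Module.Finite.map (BS θ (d + 1)) _
  have h4 := LinearMap.finrank_range_add_finrank_ker φ
  rw [h1, Module.finrank_fin_fun] at h4
  have h5 := Submodule.finrank_mono h2
  rw [finrank_MQ] at h5
  omega

end Pool.Agent.Helper57.SC
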