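import Pool.Agent.Helper57.SC.QM
import Pool.Agent.Helper71.FC.Bert

/-! SC-4 (project FOL, case Y): coordinates in general position.
`GP θ`: the hyperplane `x_0 = 0` is in general position with respect to `θ`.
`Flag q n θ` (`θ` in `n + 3` variables): all sections `x_0 = .. = x_(i-1) = 0` of dimension `≥ 3` are `Fol`, satisfy `q`, and the next hyperplane is
in general position.  `q m` is any property of forms in `m` variables which is invariant under `GL_m` and holds for general sections.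

* `Fol_rs2`: `rs2_hom`, `Dec_rs2`, `Closed_rs2`, `GP.prim`.
* `pb2_blk`, `rs2_blk`: direct computation (`rs2_eq_pb2`, `pb2_mm`, the matrix products agree; `pb2_mm` for the product `g * blk κ`).
* `GP_blk`: `GP.prim` by `rs2_blk` and invariance of primitivity under `Inv` (as in `Fol_pb2`); `mr` by `mr_pb2` with row 0 of `blk κ'` = `e0`;
  `hz`: pull back 3-forms by `blk κ'` (`IsB_pb`), `X 0` is invariant.
* `GP_genM`: `mr_genM`, `hz_genM`, `GenM.cols` + `Fol_gen` for `Prim2 (rs2 (pb2 g θ))` (`rs2 (pb2 g θ) = pb2 (columns 1.. of g) θ`).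
* `exists_flag`: induction on `n`.  `n = 0`: `g = 1`, use `hq` for `m = 3` (a general square matrix is invertible) and invariance.  Step: choose `g₀` with
  `GP (pb2 g₀ θ)`, `Fol (rs2 (pb2 g₀ θ))` and, for all `3 ≤ m ≤ n + 3`, `GenM (fun ψ => q m (pb2 ψ (rs2 (pb2 g₀ θ))))` (`GenM.comp` and `GenM.cols`);
  apply the induction hypothesis to `rs2 (pb2 g₀ θ)`, get `κ`; take `g = mm g₀ (blk κ)`. -/

set_option autoImplicit false

namespace Pool.Agent.Helper57.SC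

open MvPolynomial
open scoped BigOperators
open Pool.Agent.Helper71.FL (w12 pf ct Dec Closed dd)
open Pool.Agent.Helper71.FC
open Pool.Agent.Helper93 (lsub lmap OF pb)

variable {n : ℕ}

private theorem fl_mm_sig (g : Fin (n + 1) → Fin (n + 1) → ℂ) :
    mm g (fun (k : Fin (n + 1)) (l : Fin n) => if k = l.succ then (1 : ℂ) else 0) =
      fun i (j : Fin n) => g i j.succ := by
  funext i j
  show ∑ l, g i l * (if l = j.succ then (1 : ℂ) else 0) = g i j.succ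
  simp

private theorem fl_mm_assoc {a b c d : ℕ} (A : Fin a → Fin b → ℂ) (B : Fin b → Fin c → ℂ)
    (D : Fin c → Fin d → ℂ) : mm A (mm B D) = mm (mm A B) D := by
  have h := (Matrix.mul_assoc (Matrix.of A) (Matrix.of B) (Matrix.of D)).symm
  funext i j
  exact congrFun (congrFun h i) j

private theorem fl_mm_idm {a b : ℕ} (g : Fin a → Fin b → ℂ) : mm g (idm b) = g := by
  funext i j
  show ∑ l, g i l * (if l = j then (1 : ℂ) else 0) = g i j
  simp

private theorem fl_Inv_mul {g g' h h' : Fin n → Fin n → ℂ} (hg : Inv g g') (hh : Inv h h') :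
    Inv (mm g h) (mm h' g') := by
  constructor
  · rw [fl_mm_assoc, ← fl_mm_assoc g h h', hh.1, fl_mm_idm, hg.1]
  · rw [fl_mm_assoc, ← fl_mm_assoc h' g' g, hg.2, fl_mm_idm, hh.2]

private theorem fl_Prim2_pb2 {θ : F2 n} (h : Prim2 θ) {g g' : Fin n → Fin n → ℂ} (hg : Inv g g') :
    Prim2 (pb2 g θ) := by
  intro p hp
  have h1 : ∀ i j, lsub g' p ∣ θ i j := by
    intro i j
    have h3 : lsub g' p ∣ pb2 g' (pb2 g θ) i j := by
      unfold pb2
      exact Finset.dvd_sum fun k _ => Finset.dvd_sum fun l _ =>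
        Dvd.dvd.mul_left (map_dvd (lsub g') (hp k l)) _
    rwa [pb2_mm, hg.1, pb2_idm] at h3
  have h2 := (h _ h1).map (lsub g)
  rwa [lsub_mm, hg.2, lsub_idm] at h2

/-- pullback of 3-forms -/
private noncomputable def fl_pb3 {m : ℕ} (φ : Fin n → Fin m → ℂ) (b : F3 n) : F3 m :=
  fun i j l => ∑ a, ∑ c, ∑ e, C (φ a i * φ c j * φ e l) * lsub φ (b a c e)

private theorem fl_pb3_eq {m : ℕ} (φ : Fin n → Fin m → ℂ) (b : F3 n) (i j l : Fin m) :
    fl_pb3 φ b i j l = ∑ a, C (φ a i) * pb2 φ (b a) j l := by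
  unfold fl_pb3 pb2
  refine Finset.sum_congr rfl fun a _ => ?_
  rw [Finset.mul_sum]
  refine Finset.sum_congr rfl fun c _ => ?_
  rw [Finset.mul_sum]
  refine Finset.sum_congr rfl fun e _ => ?_
  rw [← mul_assoc, ← C_mul, mul_assoc]

private theorem fl_lsub_C {m : ℕ} (φ : Fin n → Fin m → ℂ) (c : ℂ) : lsub φ (C c) = C c := by
  unfold lsub
  rw [aeval_C]
  rfl

private theorem fl_pb2_sum {m : ℕ} (φ : Fin n → Fin m → ℂ) {α : Type} (s : Finset α)
    (t : α → F2 n) (c : α → ℂ) (i j : Fin m) :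
    pb2 φ (fun k l => ∑ a ∈ s, C (c a) * t a k l) i j = ∑ a ∈ s, C (c a) * pb2 φ (t a) i j := by
  unfold pb2
  simp only [map_sum, map_mul, fl_lsub_C, Finset.mul_sum]
  conv_rhs => rw [Finset.sum_comm]
  refine Finset.sum_congr rfl fun k _ => ?_
  conv_rhs => rw [Finset.sum_comm]
  refine Finset.sum_congr rfl fun l _ => Finset.sum_congr rfl fun a _ => ?_
  ring

private theorem fl_pb3_mm {m k : ℕ} (φ : Fin n → Fin m → ℂ) (ψ : Fin m → Fin k → ℂ) (b : F3 n)
    (i j l : Fin k) : fl_pb3 ψ (fl_pb3 φ b) i j l = fl_pb3 (mm φ ψ) b i j l := by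
  have h1 : ∀ a, pb2 ψ (fl_pb3 φ b a) j l = ∑ a', C (φ a' a) * pb2 (mm φ ψ) (b a') j l := by
    intro a
    have h2 : fl_pb3 φ b a = fun c e => ∑ a', C (φ a' a) * pb2 φ (b a') c e := by
      funext c e
      exact fl_pb3_eq φ b a c e
    rw [h2, fl_pb2_sum ψ Finset.univ (fun a' => pb2 φ (b a')) (fun a' => φ a' a)]
    refine Finset.sum_congr rfl fun a' _ => ?_
    rw [pb2_mm]
  rw [fl_pb3_eq, fl_pb3_eq]
  simp only [h1, Finset.mul_sum]
  rw [Finset.sum_comm]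
  refine Finset.sum_congr rfl fun a' _ => ?_
  unfold mm
  rw [map_sum, Finset.sum_mul]
  refine Finset.sum_congr rfl fun a _ => ?_
  rw [C_mul]
  ring

private theorem fl_pb3_idm (b : F3 n) (i j l : Fin n) : fl_pb3 (idm n) b i j l = b i j l := by
  rw [fl_pb3_eq]
  simp only [pb2_idm]
  rw [Finset.sum_eq_single i]
  · simp [idm]
  · intro a _ ha
    simp [idm, ha]
  · intro h; exact absurd (Finset.mem_univ _) h

private theorem fl_isBsat_pb3 {θ : F2 n} {b : F3 n} (hb : IsBsat θ b)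
    {g g' : Fin n → Fin n → ℂ} (hg : Inv g g') : IsBsat (pb2 g θ) (fl_pb3 g b) := by
  obtain ⟨K, hK⟩ := hb
  refine ⟨K, fun f hf => ?_⟩
  have h1 : lsub g (lsub g' f) = f := by
    rw [lsub_mm, hg.2, lsub_idm]
  have h2 := IsB_pb (hK (lsub g' f) (lsub_hom hf)) g
  have h3 : (fun i j k => f * fl_pb3 g b i j k) = fun i j l => ∑ a, ∑ c, ∑ e,
      C (g a i * g c j * g e l) * lsub g (lsub g' f * b a c e) := by
    funext i j l
    unfold fl_pb3
    simp only [map_mul, h1, Finset.mul_sum]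
    refine Finset.sum_congr rfl fun a _ => Finset.sum_congr rfl fun c _ =>
      Finset.sum_congr rfl fun e _ => ?_
    ring
  rw [h3]
  exact h2

private theorem fl_hz_pb2 {θ : F2 (n + 1)} (h : hz θ) {g g' : Fin (n + 1) → Fin (n + 1) → ℂ}
    (hg : Inv g g') (h0 : lsub g' (X 0) = X 0) : hz (pb2 g θ) := by
  intro b hb
  have h1 := fl_isBsat_pb3 hb hg.symm
  rw [pb2_mm, hg.1, pb2_idm] at h1
  have h2 : fl_pb3 g' (fun i j k => X 0 * b i j k) = fun i j k => X 0 * fl_pb3 g' b i j k := by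
    funext i j l
    unfold fl_pb3
    simp only [map_mul, h0, Finset.mul_sum]
    refine Finset.sum_congr rfl fun a _ => Finset.sum_congr rfl fun c _ =>
      Finset.sum_congr rfl fun e _ => ?_
    ring
  rw [h2] at h1
  have h3 := fl_isBsat_pb3 (h _ h1) hg
  have h4 : fl_pb3 g (fl_pb3 g' b) = b := by
    funext i j l
    rw [fl_pb3_mm, hg.2, fl_pb3_idm]
  rwa [h4] at h3

/-- the hyperplane `x_0 = 0` is in general position -/
structure GP (θ : F2 (n + 1)) : Prop where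
  prim : Prim2 (rs2 θ)
  hz : hz θ
  mr : mr θ

theorem Fol_rs2 {θ : F2 (n + 1)} (hF : Fol θ) (h : GP θ) : Fol (rs2 θ) :=
  ⟨rs2_hom hF.hom, Dec_rs2 hF.dec, Closed_rs2 hF.closed, h.prim⟩

/-- block matrix `1 ⊕ κ` -/
def blk (κ : Fin n → Fin n → ℂ) : Fin (n + 1) → Fin (n + 1) → ℂ :=
  Fin.cons (Fin.cons 1 (fun _ => 0)) (fun i => Fin.cons 0 (κ i))

private theorem fl_blk_mul {κ κ' : Fin n → Fin n → ℂ} (h : mm κ κ' = idm n) :
    mm (blk κ) (blk κ') = idm (n + 1) := by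
  funext i j
  show ∑ l, blk κ i l * blk κ' l j = if i = j then 1 else 0
  rw [Fin.sum_univ_succ]
  refine Fin.cases ?_ (fun i' => ?_) i
  · refine Fin.cases ?_ (fun j' => ?_) j
    · simp [blk]
    · simp [blk, (Fin.succ_ne_zero j').symm]
  · refine Fin.cases ?_ (fun j' => ?_) j
    · simp [blk, Fin.succ_ne_zero i']
    · have h1 : ∑ l, κ i' l * κ' l j' = if i' = j' then 1 else 0 := congrFun (congrFun h i') j'
      simp [blk, h1]

theorem blk_inv {κ κ' : Fin n → Fin n → ℂ} (h : Inv κ κ') : Inv (blk κ) (blk κ') :=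
  ⟨fl_blk_mul h.1, fl_blk_mul h.2⟩

theorem blk_row0 (κ : Fin n → Fin n → ℂ) : blk κ 0 = e0 n := by
  funext j
  refine Fin.cases ?_ (fun j' => ?_) j
  · simp [blk, e0]
  · simp [blk, e0, Fin.succ_ne_zero j']

theorem rs2_blk (κ : Fin n → Fin n → ℂ) (θ : F2 (n + 1)) :
    rs2 (pb2 (blk κ) θ) = pb2 κ (rs2 θ) := by
  rw [rs2_eq_pb2, pb2_mm, fl_mm_sig, rs2_eq_pb2, pb2_mm]
  congr 1
  funext i j
  refine Fin.cases ?_ (fun i' => ?_) i
  · show blk κ 0 j.succ = ∑ l : Fin n, (if (0 : Fin (n + 1)) = l.succ then (1 : ℂ) else 0) * κ l j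
    rw [Finset.sum_eq_zero fun l _ => by rw [if_neg (Fin.succ_ne_zero l).symm, zero_mul]]
    simp [blk]
  · show blk κ i'.succ j.succ =
      ∑ l : Fin n, (if i'.succ = l.succ then (1 : ℂ) else 0) * κ l j
    rw [Finset.sum_eq_single i']
    · rw [if_pos rfl, one_mul]
      simp [blk]
    · intro l _ hl
      rw [if_neg (fun h => hl (Fin.succ_injective _ h).symm), zero_mul]
    · intro h; exact absurd (Finset.mem_univ _) h

/-- `rs2 (pb2 g θ)` is the pullback by the columns `1, 2, ..` of `g` -/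
theorem rs2_pb2 (g : Fin (n + 1) → Fin (n + 1) → ℂ) (θ : F2 (n + 1)) :
    rs2 (pb2 g θ) = pb2 (fun i j => g i (Fin.succ j)) θ := by
  rw [rs2_eq_pb2, pb2_mm, fl_mm_sig]

theorem GP_blk {θ : F2 (n + 1)} (h : GP θ) {κ κ' : Fin n → Fin n → ℂ} (hκ : Inv κ κ') :
    GP (pb2 (blk κ) θ) := by
  have hB := blk_inv hκ
  refine ⟨?_, fl_hz_pb2 h.hz hB ?_, ?_⟩
  · rw [rs2_blk]
    exact fl_Prim2_pb2 h.prim hκ
  · have h1 : lsub (blk κ') (X 0) = lf (blk κ' 0) := by
      unfold lsub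
      rw [aeval_X]
      rfl
    rw [h1, blk_row0, lf_e0]
  · rw [mr_pb2 hB, blk_row0]
    exact h.mr

theorem GP_genM (hn : 3 ≤ n) {θ : F2 (n + 1)} (hF : Fol θ) :
    GenM (fun g : Fin (n + 1) → Fin (n + 1) → ℂ => GP (pb2 g θ)) := by
  have h1 := (Fol_gen hn (Nat.le_succ n) hF).cols (k := n + 1) Fin.succ (Fin.succ_injective n)
  have h2 := hz_genM θ
  have h3 := mr_genM (θ := θ) hF.hom
  refine ((h1.and h2).and h3).mono fun g hg => ⟨?_, hg.1.2, hg.2⟩
  rw [rs2_pb2]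
  exact hg.1.1.prim

/-- flag of coordinate sections in general position -/
def Flag (q : (m : ℕ) → F2 m → Prop) : (n : ℕ) → F2 (n + 3) → Prop
  | 0, θ => Fol θ ∧ q 3 θ
  | n + 1, θ => Fol θ ∧ q (n + 4) θ ∧ GP θ ∧ Flag q n (rs2 θ)

theorem exists_flag {q : (m : ℕ) → F2 m → Prop}
    (hinv : ∀ (m : ℕ) (θ : F2 m) (g g' : Fin m → Fin m → ℂ), Fol θ → Inv g g' → q m θ →
      q m (pb2 g θ)) :
    ∀ (n : ℕ) (θ : F2 (n + 3)), Fol θ →
      (∀ m, 3 ≤ m → m ≤ n + 3 → GenM (fun φ : Fin (n + 3) → Fin m → ℂ => q m (pb2 φ θ))) →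
      ∃ g g' : Fin (n + 3) → Fin (n + 3) → ℂ, Inv g g' ∧ Flag q n (pb2 g θ) := by
  intro n
  induction n with
  | zero =>
    intro θ hF hq
    obtain ⟨g, ⟨g', hg⟩, hqg⟩ := ((GenM.inv 3).and (hq 3 le_rfl le_rfl)).exists
    exact ⟨g, g', hg, Fol_pb2 hF hg, hqg⟩
  | succ n ih =>
    intro θ hF hq
    have h1 := GenM.inv (n + 1 + 3)
    have h2 := hq (n + 1 + 3) (by omega) le_rfl
    have h3 : GenM (fun g : Fin (n + 3 + 1) → Fin (n + 3 + 1) → ℂ => GP (pb2 g θ)) :=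
      GP_genM (n := n + 3) (by omega) hF
    have h4 := (Fol_gen (m := n + 3) (n := n + 3 + 1) (by omega) (by omega) hF).cols
      (k := n + 3 + 1) Fin.succ (Fin.succ_injective (n + 3))
    have h5 : GenM (fun g : Fin (n + 3 + 1) → Fin (n + 3 + 1) → ℂ => ∀ a : Fin (n + 4),
        3 ≤ (a : ℕ) → (a : ℕ) ≤ n + 3 → GenM (fun κ : Fin (n + 3) → Fin (a : ℕ) → ℂ =>
          q a (pb2 (mm (fun i (j : Fin (n + 3)) => g i j.succ) κ) θ))) := by
      refine GenM.all fun a => ?_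
      by_cases ha : 3 ≤ (a : ℕ) ∧ (a : ℕ) ≤ n + 3
      · have h6 := ((hq a ha.1 (by omega)).comp (k := n + 3) ha.2 (by omega)).cols
          (k := n + 3 + 1) Fin.succ (Fin.succ_injective (n + 3))
        exact h6.mono fun g hg _ _ => hg
      · exact h1.mono fun g _ h7 h8 => absurd ⟨h7, h8⟩ ha
    obtain ⟨g₀, ⟨⟨⟨⟨g₀', hg₀⟩, hq0⟩, hGP⟩, hFr⟩, hr⟩ := ((((h1.and h2).and h3).and h4).and h5).exists
    have e1 : rs2 (pb2 g₀ θ) = pb2 (fun i (j : Fin (n + 3)) => g₀ i j.succ) θ :=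
      rs2_pb2 (n := n + 3) g₀ θ
    have hF1 : Fol (rs2 (pb2 g₀ θ) : F2 (n + 3)) := by
      rw [e1]
      exact hFr
    obtain ⟨κ, κ', hκ, hfl⟩ := ih (rs2 (pb2 g₀ θ)) hF1 (fun m hm hm' => by
      have h6 := hr ⟨m, by omega⟩ hm hm'
      refine h6.mono fun ψ hψ => ?_
      rw [e1, pb2_mm]
      exact hψ)
    refine ⟨mm g₀ (blk κ), mm (blk κ') g₀', fl_Inv_mul hg₀ (blk_inv hκ), ?_⟩
    rw [← pb2_mm]
    refine ⟨Fol_pb2 (Fol_pb2 hF hg₀) (blk_inv hκ), hinv _ _ _ _ (Fol_pb2 hF hg₀) (blk_inv hκ) hq0,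
      GP_blk hGP hκ, ?_⟩
    rw [rs2_blk]
    exact hfl

end Pool.Agent.Helper57.SC
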