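import Mathlib

/-! SC-6 (project FOL, case Y, z = 5, e_2(H) = 0): pencils of linear maps `ℂ^4 → ℂ^3`.  Pure linear algebra.

* `square_pencil`: for `r ≥ 1` the polynomial `det (s f + t g)` in `(s, t)` is homogeneous of degree `r`; if `det g = 0` take `(0, 1)`,
  otherwise `det (s f + t g)` with `s = 1` is a polynomial of degree `r ≥ 1` in `t`, so it has a root (`ℂ` is algebraically closed).
* `pencil_chain`.  In coordinates the `3 × 3` minors of the `3 × 4` matrix `s f + t g` give a vector `y(s, t)`, homogeneous of degree 3 in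
  `(s, t)`, `(s f + t g) y(s, t) = 0`, and `y(s, t) ≠ 0` for `(s, t) ≠ 0` because `s f + t g` has rank 3.  Write
  `y(s, t) = s^3 y_0 + s^2 t y_1 + s t^2 y_2 + t^3 y_3`; comparing coefficients: `f y_0 = 0`, `f y_(i+1) = - g y_i`, `g y_3 = 0`.
  Let `Y = span(y_i)`.  `f Y` is spanned by `f y_1, f y_2, f y_3` and `g Y` by `g y_0 = - f y_1, ..`: `f Y = g Y =: Z`, and `dim Z = dim Y - 1` as
  `ker f` is a line and contains `y_0 = y(1, 0) ≠ 0`.  `s f + t g` induces surjective maps `U/Y → W/Z` between spaces of the same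
  dimension `4 - dim Y`; by `square_pencil` this dimension is `0`: `Y = U`.
  (In Lean: instead of minors one may also take the kernel of the map `(y_i)_(i < 4) ↦ (f y_0, f y_1 + g y_0, f y_2 + g y_1, f y_3 + g y_2, g y_3)`,
  `U^4 → W^5`, of dimension `≥ 16 - 15 = 1`.  A non zero element of it has `Y ≠ 0`; the argument above then uses only
  `dim f Y ≤ dim Y - 1`: if `y_0 = .. = y_(j-1) = 0 ≠ y_j` then `f y_j = 0`; `f Y = g Y` still holds; so `dim (W/Z) ≥ dim (U/Y)`, and the induced maps
  are surjective, hence equal dimensions and `square_pencil` applies.)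
* `pencil_mult`: `B0 i j = mul (y j) (f (y i))` and `B1 i j = mul (y j) (g (y i))` are symmetric, `B0 0 j = 0`, `B0 (i+1) j = - B1 i j`, `B1 3 j = 0`;
  so `B0 i j = - B1 (i-1) j = - B1 j (i-1) = B0 (j+1) (i-1) = B0 (i-1) (j+1) = ..` until `i = 0` or `j = 3`: `B0 = 0`; the `y i` span `U` and `f` is onto. -/

set_option autoImplicit false

namespace Pool.Agent.Helper57.SC

open scoped BigOperators

/-- a pencil of square matrices of positive size has a singular member -/
theorem square_pencil {U W : Type} [AddCommGroup U] [Module ℂ U] [AddCommGroup W] [Module ℂ W]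
    [Module.Finite ℂ U] [Module.Finite ℂ W] (f g : U →ₗ[ℂ] W)
    (hd : Module.finrank ℂ U = Module.finrank ℂ W) (hp : 0 < Module.finrank ℂ U) :
    ∃ s t : ℂ, (s ≠ 0 ∨ t ≠ 0) ∧ ¬ Function.Surjective (s • f + t • g) := by
  by_cases hf : Function.Surjective f
  · have hinj : Function.Injective f :=
      (LinearMap.injective_iff_surjective_of_finrank_eq_finrank hd).2 hf
    have : Nontrivial U := Module.finrank_pos_iff.1 hp
    let e : U ≃ₗ[ℂ] W := LinearEquiv.ofBijective f ⟨hinj, hf⟩
    obtain ⟨μ, hμ⟩ := Module.End.exists_eigenvalue ((e.symm : W →ₗ[ℂ] U) ∘ₗ g)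
    obtain ⟨v, hv⟩ := hμ.exists_hasEigenvector
    have h1 : e.symm (g v) = μ • v := hv.apply_eq_smul
    have h2 : g v = μ • f v := by
      have h3 : g v = e (μ • v) := by rw [← h1, e.apply_symm_apply]
      rw [h3, map_smul]
      rfl
    refine ⟨-μ, 1, Or.inr one_ne_zero, fun hs => ?_⟩
    have h3 : Function.Injective ((-μ) • f + (1 : ℂ) • g) :=
      (LinearMap.injective_iff_surjective_of_finrank_eq_finrank hd).2 hs
    have h4 : ((-μ) • f + (1 : ℂ) • g) v = ((-μ) • f + (1 : ℂ) • g) 0 := by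
      rw [map_zero, LinearMap.add_apply, LinearMap.smul_apply, LinearMap.smul_apply, h2, one_smul,
        neg_smul, neg_add_cancel]
    exact hv.2 (h3 h4)
  · refine ⟨1, 0, Or.inl one_ne_zero, ?_⟩
    rw [one_smul, zero_smul, add_zero]
    exact hf

/-- chain of a pencil of surjections `ℂ^4 → ℂ^3` -/
theorem pencil_chain {U W : Type} [AddCommGroup U] [Module ℂ U] [AddCommGroup W] [Module ℂ W]
    [Module.Finite ℂ U] [Module.Finite ℂ W] (hU : Module.finrank ℂ U = 4)
    (hW : Module.finrank ℂ W = 3) (f g : U →ₗ[ℂ] W)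
    (h : ∀ s t : ℂ, (s ≠ 0 ∨ t ≠ 0) → Function.Surjective (s • f + t • g)) :
    ∃ y : Fin 4 → U, Submodule.span ℂ (Set.range y) = ⊤ ∧ f (y 0) = 0 ∧
      (∀ i : Fin 3, f (y i.succ) = - g (y i.castSucc)) ∧ g (y 3) = 0 := by
  let pr : Fin 4 → ((Fin 4 → U) →ₗ[ℂ] U) := fun i => LinearMap.proj i
  let Φ : (Fin 4 → U) →ₗ[ℂ] (W × W × W × W × W) :=
    (f ∘ₗ pr 0).prod ((f ∘ₗ pr 1 + g ∘ₗ pr 0).prod ((f ∘ₗ pr 2 + g ∘ₗ pr 1).prod
      ((f ∘ₗ pr 3 + g ∘ₗ pr 2).prod (g ∘ₗ pr 3))))
  have hlt : Module.finrank ℂ (W × W × W × W × W) < Module.finrank ℂ (Fin 4 → U) := by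
    rw [Module.finrank_pi_fintype, Module.finrank_prod, Module.finrank_prod, Module.finrank_prod,
      Module.finrank_prod, hW]
    simp [hU]
  obtain ⟨y, hy, hy0⟩ := Submodule.exists_mem_ne_zero_of_ne_bot
    (LinearMap.ker_ne_bot_of_finrank_lt (f := Φ) hlt)
  have hΦ : Φ y = 0 := LinearMap.mem_ker.1 hy
  have e0 : f (y 0) = 0 := congrArg (fun z => z.1) hΦ
  have e1 : f (y 1) + g (y 0) = 0 := congrArg (fun z => z.2.1) hΦ
  have e2 : f (y 2) + g (y 1) = 0 := congrArg (fun z => z.2.2.1) hΦ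
  have e3 : f (y 3) + g (y 2) = 0 := congrArg (fun z => z.2.2.2.1) hΦ
  have e4 : g (y 3) = 0 := congrArg (fun z => z.2.2.2.2) hΦ
  -- a non zero member killed by `f`
  obtain ⟨j, hj0, hjf⟩ : ∃ j, y j ≠ 0 ∧ f (y j) = 0 := by
    by_cases h0 : y 0 = 0
    · by_cases h1 : y 1 = 0
      · by_cases h2 : y 2 = 0
        · by_cases h3 : y 3 = 0
          · exfalso
            apply hy0
            funext i
            fin_cases i
            · exact h0
            · exact h1
            · exact h2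
            · exact h3
          · refine ⟨3, h3, ?_⟩
            rw [h2, map_zero, add_zero] at e3
            exact e3
        · refine ⟨2, h2, ?_⟩
          rw [h1, map_zero, add_zero] at e2
          exact e2
      · refine ⟨1, h1, ?_⟩
        rw [h0, map_zero, add_zero] at e1
        exact e1
    · exact ⟨0, h0, e0⟩
  have c1 : f (y 1) = - g (y 0) := eq_neg_of_add_eq_zero_left e1
  have c2 : f (y 2) = - g (y 1) := eq_neg_of_add_eq_zero_left e2
  have c3 : f (y 3) = - g (y 2) := eq_neg_of_add_eq_zero_left e3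
  have hmem : ∀ i, y i ∈ Submodule.span ℂ (Set.range y) := fun i =>
    Submodule.subset_span ⟨i, rfl⟩
  refine ⟨y, ?_, e0, ?_, e4⟩
  · -- the span
    generalize hYdef : Submodule.span ℂ (Set.range y) = Y at hmem ⊢
    have hfY : Y ≤ (Y.map f).comap f := Submodule.le_comap_map f Y
    have hgY : Y ≤ (Y.map f).comap g := by
      rw [← hYdef, Submodule.span_le, hYdef]
      rintro _ ⟨i, rfl⟩
      show g (y i) ∈ Y.map f
      fin_cases i
      · have h1 : g (y 0) = f (-(y 1)) := by rw [map_neg, c1, neg_neg]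
        show g (y 0) ∈ Y.map f
        rw [h1]
        exact Submodule.mem_map_of_mem (Y.neg_mem (hmem 1))
      · have h1 : g (y 1) = f (-(y 2)) := by rw [map_neg, c2, neg_neg]
        show g (y 1) ∈ Y.map f
        rw [h1]
        exact Submodule.mem_map_of_mem (Y.neg_mem (hmem 2))
      · have h1 : g (y 2) = f (-(y 3)) := by rw [map_neg, c3, neg_neg]
        show g (y 2) ∈ Y.map f
        rw [h1]
        exact Submodule.mem_map_of_mem (Y.neg_mem (hmem 3))
      · show g (y 3) ∈ Y.map f
        rw [e4]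
        exact Submodule.zero_mem _
    have hdimZ : Module.finrank ℂ ↥(Y.map f) + 1 ≤ Module.finrank ℂ Y := by
      have h1 := LinearMap.finrank_range_add_finrank_ker (f.domRestrict Y)
      rw [LinearMap.range_domRestrict] at h1
      have h2 : 0 < Module.finrank ℂ ↥(LinearMap.ker (f.domRestrict Y)) := by
        rw [Module.finrank_pos_iff]
        refine ⟨⟨⟨⟨y j, hmem j⟩, ?_⟩, 0, ?_⟩⟩
        · rw [LinearMap.mem_ker]
          exact hjf
        · intro h3
          apply hj0
          have h4 := congrArg (fun z : ↥(LinearMap.ker (f.domRestrict Y)) => ((z : ↥Y) : U)) h3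
          exact h4
      omega
    have hq1 := Submodule.finrank_quotient_add_finrank Y
    have hq2 := Submodule.finrank_quotient_add_finrank (Y.map f)
    by_contra hne
    let fq := Y.mapQ (Y.map f) f hfY
    let gq := Y.mapQ (Y.map f) g hgY
    have hsurj : ∀ s t : ℂ, (s ≠ 0 ∨ t ≠ 0) → Function.Surjective (s • fq + t • gq) := by
      intro s t hst z
      obtain ⟨w, rfl⟩ := Submodule.Quotient.mk_surjective _ z
      obtain ⟨u, hu⟩ := h s t hst w
      refine ⟨Submodule.Quotient.mk u, ?_⟩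
      rw [← hu]
      rfl
    have h1 : Module.finrank ℂ (W ⧸ Y.map f) ≤ Module.finrank ℂ (U ⧸ Y) :=
      LinearMap.finrank_le_finrank_of_surjective (hsurj 1 0 (Or.inl one_ne_zero))
    have h2 : Module.finrank ℂ Y < Module.finrank ℂ U := Submodule.finrank_lt hne
    obtain ⟨s, t, hst, hns⟩ := square_pencil fq gq (by omega) (by omega)
    exact hns (hsurj s t hst)
  · intro i
    fin_cases i
    · exact c1
    · exact c2
    · exact c3

/-- symmetric multiplication on a pencil of surjections `ℂ^4 → ℂ^3` vanishes -/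
theorem pencil_mult {U W X : Type} [AddCommGroup U] [Module ℂ U] [AddCommGroup W] [Module ℂ W]
    [AddCommGroup X] [Module ℂ X] [Module.Finite ℂ U] [Module.Finite ℂ W]
    (hU : Module.finrank ℂ U = 4) (hW : Module.finrank ℂ W = 3) (f g : U →ₗ[ℂ] W)
    (h : ∀ s t : ℂ, (s ≠ 0 ∨ t ≠ 0) → Function.Surjective (s • f + t • g))
    (mul : U →ₗ[ℂ] W →ₗ[ℂ] X) (hf : ∀ y y', mul y (f y') = mul y' (f y))
    (hg : ∀ y y', mul y (g y') = mul y' (g y)) (y : U) (w : W) : mul y w = 0 := by
  obtain ⟨v, hv, e0, ec, e3⟩ := pencil_chain hU hW f g h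
  have c1 : f (v 1) = - g (v 0) := ec 0
  have c2 : f (v 2) = - g (v 1) := ec 1
  have c3 : f (v 3) = - g (v 2) := ec 2
  -- `B i j = mul (v j) (f (v i))`
  have b0 : ∀ j, mul (v j) (f (v 0)) = 0 := fun j => by rw [e0, map_zero]
  have b0' : ∀ i, mul (v 0) (f (v i)) = 0 := fun i => by rw [hf, b0]
  have g3 : ∀ j, mul (v j) (g (v 3)) = 0 := fun j => by rw [e3, map_zero]
  have g3' : ∀ i, mul (v 3) (g (v i)) = 0 := fun i => by rw [hg, g3]
  -- `mul (v j) (g (v i)) = - mul (v j) (f (v (i+1)))`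
  have r0 : ∀ j, mul (v j) (f (v 1)) = - mul (v j) (g (v 0)) := fun j => by rw [c1, map_neg]
  have r1 : ∀ j, mul (v j) (f (v 2)) = - mul (v j) (g (v 1)) := fun j => by rw [c2, map_neg]
  have r2 : ∀ j, mul (v j) (f (v 3)) = - mul (v j) (g (v 2)) := fun j => by rw [c3, map_neg]
  have b11 : mul (v 1) (f (v 1)) = 0 := by
    rw [r0, hg, ← r1, b0']
  have b12 : mul (v 2) (f (v 1)) = 0 := by
    rw [r0, hg, ← r2, b0']
  have b13 : mul (v 3) (f (v 1)) = 0 := by
    rw [r0, g3', neg_zero]
  have b22 : mul (v 2) (f (v 2)) = 0 := by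
    rw [r1, hg, ← r2, hf, b13]
  have b23 : mul (v 3) (f (v 2)) = 0 := by
    rw [r1, g3', neg_zero]
  have b33 : mul (v 3) (f (v 3)) = 0 := by
    rw [r2, g3', neg_zero]
  have hB : ∀ i j, mul (v j) (f (v i)) = 0 := by
    intro i j
    fin_cases i
    · exact b0 j
    · fin_cases j
      · exact b0' 1
      · exact b11
      · exact b12
      · exact b13
    · fin_cases j
      · exact b0' 2
      · exact (hf _ _).trans b12
      · exact b22
      · exact b23
    · fin_cases j
      · exact b0' 3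
      · exact (hf _ _).trans b13
      · exact (hf _ _).trans b23
      · exact b33
  have hs : Function.Surjective f := by
    have h1 := h 1 0 (Or.inl one_ne_zero)
    rw [one_smul, zero_smul, add_zero] at h1
    exact h1
  obtain ⟨x, rfl⟩ := hs w
  have h1 : ∀ j, mul (v j) (f x) = 0 := by
    intro j
    have h2 : Submodule.span ℂ (Set.range v) ≤ LinearMap.ker ((mul (v j)).comp f) := by
      rw [Submodule.span_le]
      rintro _ ⟨i, rfl⟩
      exact hB i j
    rw [hv] at h2
    exact h2 (Submodule.mem_top : x ∈ ⊤)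
  have h3 : Submodule.span ℂ (Set.range v) ≤ LinearMap.ker (mul.flip (f x)) := by
    rw [Submodule.span_le]
    rintro _ ⟨i, rfl⟩
    exact h1 i
  rw [hv] at h3
  exact h3 (Submodule.mem_top : y ∈ ⊤)

end Pool.Agent.Helper57.SC
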