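import Pool.Agent.Helper57.SC.Pl5
import Pool.Agent.Helper57.SC.Pencil

/-! SC-9 (project FOL, case Y, z = 5): on `H = ℂ^4` (`θ : F2 4`, `P = {x_0 = 0}` of type `Pl5`) one has `E_2(H) ≠ 0`.
Notation `m_d = mM θ d`, `k_d = kM θ d`, `P`-values from `Pl5`.

* `H_small`: `finrank_EE_zero_of_rs`.
* `H_kM`: `count_E0`, `count_E` (`k = 0, 1`): `k_2 = 0`, `k_3 = 0`, `k_4 = 2 - e_2(H)`; `inj_small` for `k_0`, `k_1`.
* `H_mM`: `mM_zero_of_rs` for `m_0 = m_1 = 0`; `count_M`: `m_2 ≤ 1`, `m_3 ≤ m_2 + 2`, `m_4 ≤ m_3 + 1`, `m_5 + k_4 ≤ m_4`.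
* `onto5`: `X 0 : M[4] → M[5]` is onto: `b ∈ BS θ 5`, `rs3 b` is in the saturation on `P` and `mM (rs2 θ) 5 = 0`, so `BS_res` applies.
* `m2_zero` (uses `e_2(H) = 0`): let `b ∈ BS θ 2` not in `B`.  `H* b ⊂ M[3]` has dimension `≤ m_3 ≤ 3`, so `AnnB θ b` has dimension `≥ 1` (`ann_add`): `y b ∈ B`, `y ≠ 0`.
  The map `p ↦ p b`, quadrics (dimension 10) → `M[4]` of dimension `≤ m_4 ≤ 4`, has a kernel of dimension `≥ 6`; by `quad_ann` the kernel consists of
  multiples of `y`: dimension `≤ 4`.  Contradiction.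
* `main` (`H0`).  Suppose `e_2(H) = 0`.  `k_4 = 2` so `m_4 ≥ 2`, `m_3 ≥ 1`.  For `b ∈ BS θ 3` not in `B`: `AnnB θ b` has dimension `≤ 1` (`ann_two`), so by `ann_add`
  `m_4 ≥ 3`, `m_3 ≥ 2`.  With `m_2 = 0`: `m_3 = 2`, `m_4 = 3`.  Let `q_0, q_1` be a basis of `MQ θ 3`.  `f a = actQ a q_0`, `g a = actQ a q_1`, maps from `ℂ^4` to
  `MQ θ 4` (dimension 3); for `(s, t) ≠ 0` the map `s f + t g` is `a ↦ actQ a (s q_0 + t q_1)`, its kernel has dimension `≤ 1` (`ann_two`), so it is onto.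
  `mul a q = actQ a q`, `MQ θ 4 → Qm θ` is symmetric (`GrAct.comm`).  `pencil_mult`: `actQ a` is zero on `MQ θ 4` for all `a`, in particular for `a = e0`:
  `k_4 = m_4 = 3 ≠ 2`.  Contradiction. -/

set_option autoImplicit false

namespace Pool.Agent.Helper57.SC

open MvPolynomial
open scoped BigOperators
open Pool.Agent.Helper71.FL (w12 pf ct Dec Closed dd res)
open Pool.Agent.Helper71.FC

section
variable {θ : F2 4}

private theorem nz_of_GP (gp : GP θ) : ∃ i j, rs2 θ i j ≠ 0 := by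
  by_contra hc
  push Not at hc
  have h1 := gp.prim 0 (fun i j => by rw [hc i j])
  exact not_isUnit_zero h1

theorem H_small (gp : GP θ) (hP : Pl5 (rs2 θ)) :
    Module.finrank ℂ (EE θ 0) = 0 ∧ Module.finrank ℂ (EE θ 1) = 0 := by
  have h := finrank_EE_zero_of_rs (θ := θ) (nz_of_GP gp) (k := 1) (by
    intro l hl
    rcases Nat.lt_or_ge l 1 with h | h
    · have : l = 0 := by omega
      subst this
      exact hP.e0
    · have : l = 1 := by omega
      subst this
      exact hP.e1)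
  exact ⟨h 0 (by omega), h 1 (by omega)⟩

theorem H_e2 (gp : GP θ) (hP : Pl5 (rs2 θ)) : Module.finrank ℂ (EE θ 2) ≤ 2 := by
  have h := finrank_EE_le_rs (θ := θ) (nz_of_GP gp) (k := 1) (H_small gp hP).2
  exact le_trans h (le_of_eq hP.e2)

theorem H_kM (hF : Fol θ) (gp : GP θ) (hP : Pl5 (rs2 θ)) :
    kM θ 2 = 0 ∧ kM θ 3 = 0 ∧ kM θ 4 + Module.finrank ℂ (EE θ 2) = 2 := by
  obtain ⟨s0, s1⟩ := H_small gp hP
  have c0 := count_E0 (θ := θ) le_rfl hF.hom hF.dec gp.prim gp.hz
  have c1 : Module.finrank ℂ (EE (rs2 θ) 1) + Module.finrank ℂ (EE θ 0) =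
      Module.finrank ℂ (EE θ 1) + kM θ 3 :=
    count_E (θ := θ) le_rfl hF.hom hF.dec gp.prim gp.hz 0
  have c2 : Module.finrank ℂ (EE (rs2 θ) 2) + Module.finrank ℂ (EE θ 1) =
      Module.finrank ℂ (EE θ 2) + kM θ 4 :=
    count_E (θ := θ) le_rfl hF.hom hF.dec gp.prim gp.hz 1
  have e0 := hP.e0
  have e1 := hP.e1
  have e2 := hP.e2
  rw [s0] at c0
  rw [e1, s0] at c1
  rw [e2, s1] at c2
  omega

private theorem BK_le_BS' (θ : F2 4) (d : ℕ) : BK θ d ≤ BS θ d := fun _ hb => hb.1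

private theorem inj_of_kM {d : ℕ} (h : kM θ d = 0) : InjAt θ d := by
  have := finite_BS θ d
  have i6 : FiniteDimensional ℂ (BK θ d) := Submodule.finiteDimensional_of_le (BK_le_BS' θ d)
  have h1 : BB θ d = BK θ d := by
    apply Submodule.eq_of_le_of_finrank_le (BB_le_BK θ d)
    unfold kM at h
    omega
  intro b hb hX
  have h2 : b ∈ BK θ d := ⟨hb, hX⟩
  rw [← h1] at h2
  exact h2.2

theorem H_inj (hF : Fol θ) (gp : GP θ) (hP : Pl5 (rs2 θ)) : ∀ d ≤ 3, InjAt θ d := by
  obtain ⟨k2, k3, -⟩ := H_kM hF gp hP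
  intro d hd
  rcases Nat.lt_or_ge d 2 with h | h
  · exact inj_small hF.hom h
  · rcases Nat.lt_or_ge d 3 with h' | h'
    · have : d = 2 := by omega
      subst this
      exact inj_of_kM k2
    · have : d = 3 := by omega
      subst this
      exact inj_of_kM k3

/-- multiplication by `X 0` -/
private noncomputable def mx : F3 4 →ₗ[ℂ] F3 4 where
  toFun b := fun i j k => X 0 * b i j k
  map_add' := by
    intro a b
    funext i j k
    exact mul_add _ _ _
  map_smul' := by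
    intro c a
    funext i j k
    show X 0 * (c • a i j k) = c • (X 0 * a i j k)
    rw [mul_smul_comm]

private theorem mx_inj : Function.Injective mx := by
  intro a b h
  funext i j k
  have h1 : X 0 * a i j k = X 0 * b i j k := congrFun (congrFun (congrFun h i) j) k
  exact mul_left_cancel₀ (X_ne_zero 0) h1

private theorem mx_le (θ : F2 4) (d : ℕ) : (BS θ d).map mx ≤ BS θ (d + 1) := by
  rintro _ ⟨b, hb, rfl⟩
  refine ⟨fun i j k => ?_, hb.2.smul (X 0)⟩
  have h6 := (isHomogeneous_X ℂ (0 : Fin 4)).mul (hb.1 i j k)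
  rw [add_comm 1 d] at h6
  exact h6

private theorem mx_inf (θ : F2 4) (d : ℕ) :
    (BS θ d).map mx ⊓ BB θ (d + 1) = (BK θ d).map mx := by
  apply le_antisymm
  · rintro _ ⟨⟨b, hb, rfl⟩, hb'⟩
    exact ⟨b, ⟨hb, hb'.2⟩, rfl⟩
  · rintro _ ⟨b, ⟨hb, hb'⟩, rfl⟩
    refine ⟨⟨b, hb, rfl⟩, fun i j k => ?_, hb'⟩
    have h6 := (isHomogeneous_X ℂ (0 : Fin 4)).mul (hb.1 i j k)
    rw [add_comm 1 d] at h6
    exact h6

/-- rank-nullity for `X 0 : M[d] → M[d+1]` -/
private theorem mM_le (θ : F2 4) (d : ℕ) : mM θ d ≤ mM θ (d + 1) + kM θ d := by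
  have i1 := finite_BS θ (d + 1)
  have i2 := finite_BS θ d
  have i5 := finite_BB θ (d + 1)
  have i6 : FiniteDimensional ℂ (BK θ d) := Submodule.finiteDimensional_of_le (BK_le_BS' θ d)
  have e5 := Submodule.finrank_sup_add_finrank_inf_eq ((BS θ d).map mx) (BB θ (d + 1))
  rw [mx_inf] at e5
  have e6 : Module.finrank ℂ ((BS θ d).map mx) = Module.finrank ℂ (BS θ d) :=
    (LinearEquiv.finrank_eq (Submodule.equivMapOfInjective mx mx_inj (BS θ d))).symm
  have e7 : Module.finrank ℂ ((BK θ d).map mx) = Module.finrank ℂ (BK θ d) :=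
    (LinearEquiv.finrank_eq (Submodule.equivMapOfInjective mx mx_inj (BK θ d))).symm
  have e8 : Module.finrank ℂ ((BS θ d).map mx ⊔ BB θ (d + 1) : Submodule ℂ (F3 4)) ≤
      Module.finrank ℂ (BS θ (d + 1)) :=
    Submodule.finrank_mono (sup_le (mx_le θ d) (BB_le_BS θ (d + 1)))
  have f1 := Submodule.finrank_mono (BB_le_BS θ (d + 1))
  have f2 := Submodule.finrank_mono (BB_le_BS θ d)
  have f3 : Module.finrank ℂ (BB θ d) ≤ Module.finrank ℂ (BK θ d) :=
    Submodule.finrank_mono (BB_le_BK θ d)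
  have hk : kM θ d = Module.finrank ℂ (BK θ d) - Module.finrank ℂ (BB θ d) := rfl
  rw [e6, e7] at e5
  rw [hk]
  unfold mM
  omega

theorem H_mM (hF : Fol θ) (gp : GP θ) (hP : Pl5 (rs2 θ)) :
    mM θ 0 = 0 ∧ mM θ 1 = 0 ∧ mM θ 2 ≤ 1 ∧ mM θ 3 ≤ mM θ 2 + 2 ∧ mM θ 4 ≤ mM θ 3 + 1 ∧
      mM θ 5 + kM θ 4 = mM θ 4 := by
  have h01 := mM_zero_of_rs (θ := θ) le_rfl hF gp (d := 1) (by
    intro l hl
    rcases Nat.lt_or_ge l 1 with h | h
    · have : l = 0 := by omega
      subst this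
      exact hP.m0
    · have : l = 1 := by omega
      subst this
      exact hP.m1)
  have h0 := h01 0 (by omega)
  have h1 := h01 1 (by omega)
  have c1 := count_M (θ := θ) le_rfl hF.hom hF.dec gp.prim gp.hz 1
  have c2 := count_M (θ := θ) le_rfl hF.hom hF.dec gp.prim gp.hz 2
  have c3 := count_M (θ := θ) le_rfl hF.hom hF.dec gp.prim gp.hz 3
  have c4 := count_M (θ := θ) le_rfl hF.hom hF.dec gp.prim gp.hz 4
  have c5 := mM_le θ 4
  have m2 := hP.m2
  have m3 := hP.m3
  have m4 := hP.m4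
  have m5 := hP.m5 5 le_rfl
  norm_num at c1 c2 c3 c4 c5
  omega

private theorem exists_notB {d : ℕ} (h : mM θ d ≠ 0) : ∃ b ∈ BS θ d, ¬ IsB θ b := by
  by_contra hc
  push Not at hc
  exact h ((mM_eq_zero_iff θ d).2 hc)

/-- pairs of indices of the six quadratic monomials in three variables -/
private def pr1 : Fin 6 → Fin 3 := ![0, 1, 2, 0, 1, 0]
private def pr2 : Fin 6 → Fin 3 := ![0, 1, 2, 1, 2, 2]

/-- quadrics without the variable `i` -/
private noncomputable def qq (i : Fin 4) : (Fin 6 → ℂ) →ₗ[ℂ] Pn 4 where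
  toFun c := ∑ r, C (c r) * (X (i.succAbove (pr1 r)) * X (i.succAbove (pr2 r)))
  map_add' := by
    intro a b
    rw [← Finset.sum_add_distrib]
    refine Finset.sum_congr rfl fun r _ => ?_
    rw [Pi.add_apply, C_add]
    ring
  map_smul' := by
    intro c a
    rw [RingHom.id_apply, smul_eq_C_mul, Finset.mul_sum]
    refine Finset.sum_congr rfl fun r _ => ?_
    rw [Pi.smul_apply, smul_eq_mul, C_mul]
    ring

private theorem qq_hom (i : Fin 4) (c : Fin 6 → ℂ) : (qq i c).IsHomogeneous 2 := by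
  show (∑ r, C (c r) * (X (i.succAbove (pr1 r)) * X (i.succAbove (pr2 r)))).IsHomogeneous 2
  apply IsHomogeneous.sum
  intro r _
  have h := (isHomogeneous_C (Fin 4) (c r)).mul
    ((isHomogeneous_X ℂ (i.succAbove (pr1 r))).mul (isHomogeneous_X ℂ (i.succAbove (pr2 r))))
  exact h

private theorem qq_zero {i : Fin 4} {a : Fin 4 → ℂ} (hi : a i ≠ 0) {c : Fin 6 → ℂ}
    (h : (lf a : Pn 4) ∣ qq i c) : c = 0 := by
  obtain ⟨l, hl⟩ := h
  have key : ∀ t : Fin 3 → ℂ, ∑ r, c r * (t (pr1 r) * t (pr2 r)) = 0 := by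
    intro t
    have h1 := congrArg (eval (i.insertNth (-(∑ j, a (i.succAbove j) * t j) / a i) t)) hl
    rw [map_mul] at h1
    have h2 : eval (i.insertNth (-(∑ j, a (i.succAbove j) * t j) / a i) t) (lf a : Pn 4) = 0 := by
      unfold lf
      rw [map_sum, Fin.sum_univ_succAbove _ i]
      simp only [map_mul, eval_C, eval_X, Fin.insertNth_apply_same, Fin.insertNth_apply_succAbove]
      field_simp
      ring
    rw [h2, zero_mul] at h1
    have h3 : eval (i.insertNth (-(∑ j, a (i.succAbove j) * t j) / a i) t) (qq i c)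
        = ∑ r, c r * (t (pr1 r) * t (pr2 r)) := by
      show eval _ (∑ r, C (c r) * (X (i.succAbove (pr1 r)) * X (i.succAbove (pr2 r)))) = _
      rw [map_sum]
      refine Finset.sum_congr rfl fun r _ => ?_
      simp only [map_mul, eval_C, eval_X, Fin.insertNth_apply_succAbove]
    rw [← h3, h1]
  have k0 := key ![1, 0, 0]
  have k1 := key ![0, 1, 0]
  have k2 := key ![0, 0, 1]
  have k3 := key ![1, 1, 0]
  have k4 := key ![0, 1, 1]
  have k5 := key ![1, 0, 1]
  simp [Fin.sum_univ_succ, pr1, pr2] at k0 k1 k2 k3 k4 k5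
  funext r
  fin_cases r
  · simpa using k0
  · simpa using k1
  · simpa using k2
  · simp
    linear_combination k3 - k0 - k1
  · simp
    linear_combination k4 - k1 - k2
  · simp
    linear_combination k5 - k0 - k2

theorem m2_zero (hF : Fol θ) (gp : GP θ) (hP : Pl5 (rs2 θ))
    (h2 : Module.finrank ℂ (EE θ 2) = 0) : mM θ 2 = 0 := by
  by_contra hm
  obtain ⟨b, hb, hnb⟩ := exists_notB hm
  obtain ⟨-, -, m2, m3, m4, -⟩ := H_mM hF gp hP
  have h1 := ann_add hb
  have h3 : 0 < Module.finrank ℂ (AnnB θ b) := by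
    norm_num at h1
    omega
  have h4 : AnnB θ b ≠ ⊥ := by
    intro h
    rw [h, finrank_bot] at h3
    exact lt_irrefl 0 h3
  obtain ⟨a, ha, ha0⟩ := Submodule.exists_mem_ne_zero_of_ne_bot h4
  obtain ⟨i, hi⟩ := Function.ne_iff.mp ha0
  have hi' : a i ≠ 0 := hi
  -- the map `c ↦ [q_c b]`
  let T : (Fin 6 → ℂ) →ₗ[ℂ] Qm θ :=
    { toFun := fun c => mulQ θ (qq i c) ((Bsub θ).mkQ b)
      map_add' := by
        intro c c'
        rw [mulQ_mk, mulQ_mk, mulQ_mk, ← map_add]
        congr 1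
        funext j k l
        show qq i (c + c') * b j k l = qq i c * b j k l + qq i c' * b j k l
        rw [map_add, add_mul]
      map_smul' := by
        intro r c
        rw [RingHom.id_apply, mulQ_mk, mulQ_mk, ← map_smul]
        congr 1
        funext j k l
        show qq i (r • c) * b j k l = r • (qq i c * b j k l)
        rw [map_smul, smul_mul_assoc] }
  have hT : ∀ c, T c = (Bsub θ).mkQ (fun j k l => qq i c * b j k l) := fun c => rfl
  have hrange : LinearMap.range T ≤ MQ θ 4 := by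
    rintro _ ⟨c, rfl⟩
    rw [hT, mem_MQ]
    refine ⟨_, ⟨fun j k l => ?_, hb.2.smul (qq i c)⟩, rfl⟩
    exact (qq_hom i c).mul (hb.1 j k l)
  have hfin : Module.Finite ℂ (MQ θ 4) := (grAct θ).fin 4
  have hr := Submodule.finrank_mono hrange
  rw [finrank_MQ] at hr
  have hrn := LinearMap.finrank_range_add_finrank_ker T
  rw [Module.finrank_pi, Fintype.card_fin] at hrn
  have hk : 0 < Module.finrank ℂ (LinearMap.ker T) := by omega
  have hk' : LinearMap.ker T ≠ ⊥ := by
    intro h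
    rw [h, finrank_bot] at hk
    exact lt_irrefl 0 hk
  obtain ⟨c, hc, hc0⟩ := Submodule.exists_mem_ne_zero_of_ne_bot hk'
  apply hc0
  rw [LinearMap.mem_ker, hT, mkQ_eq_zero] at hc
  apply qq_zero hi'
  refine quad_ann hF hb.1 hnb h2 ?_ ?_ (qq_hom i c) ?_ hc
  · unfold lf
    apply IsHomogeneous.sum
    intro j _
    have h := (isHomogeneous_C (Fin 4) (a j)).mul (isHomogeneous_X ℂ j)
    rw [zero_add] at h
    exact h
  · intro h
    apply hi'
    have h5 := congrArg (coeff (Finsupp.single i 1)) h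
    unfold lf at h5
    rw [coeff_sum] at h5
    simp only [coeff_C_mul, coeff_X', coeff_zero] at h5
    rw [Finset.sum_eq_single i] at h5
    · simpa using h5
    · intro j _ hj
      have : Finsupp.single j (1 : ℕ) ≠ Finsupp.single i 1 := by
        intro h6
        exact hj ((Finsupp.single_left_inj one_ne_zero).1 h6)
      rw [if_neg this, mul_zero]
    · intro h; exact absurd (Finset.mem_univ _) h
  · exact mem_AnnB.1 ha

/-- `E_2(H) ≠ 0` -/
theorem H0 (hF : Fol θ) (gp : GP θ) (hP : Pl5 (rs2 θ)) : Module.finrank ℂ (EE θ 2) ≠ 0 := by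
  intro h2
  obtain ⟨-, -, k4⟩ := H_kM hF gp hP
  rw [h2, add_zero] at k4
  obtain ⟨-, -, -, m3, m4, m5⟩ := H_mM hF gp hP
  have m2 := m2_zero hF gp hP h2
  have hann : ∀ b ∈ BS θ 3, ¬ IsB θ b → Module.finrank ℂ (AnnB θ b) ≤ 1 := by
    intro b hb hnb
    by_contra hc
    exact ann_two hF (d := 1) hb.1 hnb (by omega) h2
  have m3' : mM θ 3 ≠ 0 := by omega
  obtain ⟨b0, hb0, hnb0⟩ := exists_notB m3'
  have a0 := ann_add hb0
  have a1 := hann b0 hb0 hnb0
  norm_num at a0
  have e3 : mM θ 3 = 2 := by omega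
  have e4 : mM θ 4 = 3 := by omega
  have hfin3 : Module.Finite ℂ (MQ θ 3) := (grAct θ).fin 3
  have hfin4 : Module.Finite ℂ (MQ θ 4) := (grAct θ).fin 4
  have f3 : Module.finrank ℂ (MQ θ 3) = 2 := by rw [finrank_MQ, e3]
  have f4 : Module.finrank ℂ (MQ θ 4) = 3 := by rw [finrank_MQ, e4]
  let B := Module.finBasisOfFinrankEq ℂ (MQ θ 3) f3
  -- multiplication by a fixed element of `MQ θ 3`
  let F : (MQ θ 3) → (Fin 4 → ℂ) →ₗ[ℂ] (MQ θ 4) := fun q =>
    { toFun := fun a => ⟨actQ θ a q.1, (grAct θ).deg a 3 q.1 q.2⟩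
      map_add' := by
        intro a a'
        apply Subtype.ext
        show actQ θ (a + a') q.1 = actQ θ a q.1 + actQ θ a' q.1
        rw [map_add, LinearMap.add_apply]
      map_smul' := by
        intro c a
        apply Subtype.ext
        show actQ θ (c • a) q.1 = c • actQ θ a q.1
        rw [map_smul, LinearMap.smul_apply] }
  have hFv : ∀ q a, ((F q a : MQ θ 4) : Qm θ) = actQ θ a q.1 := fun q a => rfl
  have hlin : ∀ s t : ℂ, s • F (B 0) + t • F (B 1) = F (s • B 0 + t • B 1) := by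
    intro s t
    apply LinearMap.ext
    intro a
    apply Subtype.ext
    show s • actQ θ a (B 0).1 + t • actQ θ a (B 1).1 = actQ θ a (s • B 0 + t • B 1 : MQ θ 3).1
    rw [Submodule.coe_add, Submodule.coe_smul, Submodule.coe_smul, map_add, map_smul, map_smul]
  have hsurj : ∀ q : MQ θ 3, q ≠ 0 → Function.Surjective (F q) := by
    intro q hq
    obtain ⟨b, hb, hbq⟩ := mem_MQ.1 q.2
    have hnb : ¬ IsB θ b := by
      intro h
      apply hq
      apply Subtype.ext
      rw [← hbq]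
      exact mkQ_eq_zero.2 h
    have hker : LinearMap.ker (F q) = AnnB θ b := by
      ext a
      rw [LinearMap.mem_ker, mem_AnnB, ← mkQ_eq_zero, ← actQ_mk, hbq, ← hFv]
      constructor
      · intro h; rw [h]; rfl
      · intro h; exact Subtype.ext h
    have hrn := LinearMap.finrank_range_add_finrank_ker (F q)
    rw [hker, Module.finrank_pi, Fintype.card_fin] at hrn
    have hle := hann b hb hnb
    have htop : LinearMap.range (F q) = ⊤ := by
      apply Submodule.eq_top_of_finrank_eq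
      have := Submodule.finrank_le (LinearMap.range (F q))
      omega
    exact LinearMap.range_eq_top.1 htop
  have hpen : ∀ s t : ℂ, (s ≠ 0 ∨ t ≠ 0) → Function.Surjective (s • F (B 0) + t • F (B 1)) := by
    intro s t hst
    rw [hlin]
    apply hsurj
    intro h0
    have hli := Fintype.linearIndependent_iff.1 B.linearIndependent ![s, t] (by
      rw [Fin.sum_univ_two]
      exact h0)
    rcases hst with h | h
    · exact h (hli 0)
    · exact h (hli 1)
  let mul : (Fin 4 → ℂ) →ₗ[ℂ] (MQ θ 4) →ₗ[ℂ] Qm θ :=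
    { toFun := fun a => (actQ θ a).comp (MQ θ 4).subtype
      map_add' := by
        intro a a'
        rw [map_add, LinearMap.add_comp]
      map_smul' := by
        intro c a
        rw [map_smul, LinearMap.smul_comp]
        rfl }
  have hmul : ∀ a (w : MQ θ 4), mul a w = actQ θ a w.1 := fun a w => rfl
  have hz := pencil_mult (by rw [Module.finrank_pi, Fintype.card_fin]) f4 (F (B 0)) (F (B 1)) hpen
    mul (by
      intro y y'
      rw [hmul, hmul, hFv, hFv]
      exact (grAct θ).comm y y' _) (by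
      intro y y'
      rw [hmul, hmul, hFv, hFv]
      exact (grAct θ).comm y y' _)
  have hBK : BK θ 4 = BS θ 4 := by
    apply le_antisymm (BK_le_BS' θ 4)
    intro b hb
    refine ⟨hb, ?_⟩
    have h5 := hz (e0 3) ⟨(Bsub θ).mkQ b, mem_MQ.2 ⟨b, hb, rfl⟩⟩
    rw [hmul, actQ_mk, mkQ_eq_zero, lf_e0] at h5
    exact h5
  have h6 : kM θ 4 = mM θ 4 := by
    unfold kM mM
    rw [hBK]
  omega

end

end Pool.Agent.Helper57.SC
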