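import Pool.Agent.Helper57.SC.H0

/-! SC-10 (project FOL, case Y, z = 5): `H = ℂ^4`, `e_2(H) = 1`, and an element `t` of `M_H[4]` killed by all linear forms (not in `B`).
Conclusion (`H1`): `M_H` is one-dimensional, in degree 4, and `e_3(H) = 8`.
* `kM θ 4 = 1` (`H_kM`), so the kernel of `X 0` on `M_H[4]` is spanned by `t`.
* `lift_XE`: let `ζ ∈ EE (rs2 θ) 2`, `EE_lift`: `ξ`, `b` with `res ξ = ζ`, `ξ ∧ θ = X 0 b`, `b ∈ BS θ 4` (`hz`), `X 0 b ∈ B`, so `b = c t` modulo `B`; hence `X i b ∈ B` for all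
  `i`, and `X (succ i) ξ` restricts to `X i ζ`, `(X (succ i) ξ) ∧ θ = X 0 (X (succ i) b)`; by `EE_lift_iff` `X i ζ` lifts to `EE θ 3`.
* `lift3`: `v` with `av (rs2 θ) v ∉ XE (rs2 θ) 2` (`exists_av`); `EE (rs2 θ) 3 = XE (rs2 θ) 2 + ℂ av (rs2 θ) v` by `Pl5.gen3` (dimension of `EE/XE` at most one);
  `av (rs2 θ) v` is the restriction of `av θ (0, v) ∈ EE θ 3` (`av_mem_EE`).
* `lift_ge`: `LiftAt θ k` for `k ≥ 3` by induction with `Pl5.gen` (lifts of products with linear forms).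
* `inj_ge`: `inj_of_lift`: `InjAt θ d` for `d ≥ 5`; `BS_large` and induction downwards: `mM θ d = 0` for `d ≥ 5` (`X 0 b ∈ BS θ (d+1)` is in `B`).
* `mM θ 4 = kM θ 4 = 1`.  `mM θ 3 = 0`: otherwise `b ∈ BS θ 3` not in `B`, `ann_add`: `AnnB θ b` has dimension `≥ 3`, `ann_three`: `e_2(H) ≥ 3`.
  `mM θ 2 ≤ mM θ 3` as `X 0` is injective (`H_inj`).  `e_3(H) = e_3(P) + e_2(H) - kM θ 5 = 8` (`count_E` with `k = 2`, `kM θ 5 ≤ mM θ 5 = 0`). -/

set_option autoImplicit false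

namespace Pool.Agent.Helper57.SC

open MvPolynomial
open scoped BigOperators
open Pool.Agent.Helper71.FL (w12 pf ct Dec Closed dd res at0)
open Pool.Agent.Helper71.FC

section
variable {θ : F2 4} {t : F3 4}

private theorem nz1_of_GP (gp : GP θ) : ∃ i j, rs2 θ i j ≠ 0 := by
  by_contra hc
  push Not at hc
  have h1 := gp.prim 0 (fun i j => by rw [hc i j])
  exact not_isUnit_zero h1

private theorem h1_at0_X0 : at0 3 ℂ (X 0) = 0 := (at0_eq_zero_iff _).2 ⟨1, by rw [mul_one]⟩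

private theorem h1_at0_Xs (i : Fin 3) : at0 3 ℂ (X i.succ) = X i := by
  unfold at0
  rw [aeval_X, Fin.cons_succ]

private theorem h1_at0_C (c : ℂ) : at0 3 ℂ (C c) = C c := by
  unfold at0
  rw [aeval_C]
  rfl

private theorem h1_hom {b : F3 4} {d : ℕ} (a : Fin 4) (h : ∀ i j l, (b i j l).IsHomogeneous d)
    (i j l : Fin 4) : (X a * b i j l).IsHomogeneous (d + 1) := by
  have h6 := (isHomogeneous_X ℂ a).mul (h i j l)
  rwa [add_comm 1 d] at h6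

theorem ker4_of_socle (hF : Fol θ) (gp : GP θ) (hP : Pl5 (rs2 θ))
    (h2 : Module.finrank ℂ (EE θ 2) = 1) (ht : t ∈ BS θ 4) (hnt : ¬ IsB θ t)
    (hX : IsB θ (fun i j l => X 0 * t i j l)) {b : F3 4} (hb : b ∈ BS θ 4)
    (h : IsB θ (fun i j l => X 0 * b i j l)) :
    ∃ c : ℂ, IsB θ (fun i j l => b i j l - C c * t i j l) := by
  obtain ⟨-, -, k4⟩ := H_kM hF gp hP
  have i1 := finite_BS θ 4
  have i2 : FiniteDimensional ℂ (BK θ 4) :=
    Submodule.finiteDimensional_of_le (fun _ hb => hb.1 : BK θ 4 ≤ BS θ 4)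
  have htK : t ∈ BK θ 4 := ⟨ht, hX⟩
  have hbK : b ∈ BK θ 4 := ⟨hb, h⟩
  have hle : BB θ 4 ⊔ Submodule.span ℂ {t} ≤ BK θ 4 :=
    sup_le (BB_le_BK θ 4) ((Submodule.span_singleton_le_iff_mem _ _).2 htK)
  have i3 : FiniteDimensional ℂ (BB θ 4 ⊔ Submodule.span ℂ {t} : Submodule ℂ (F3 4)) :=
    Submodule.finiteDimensional_of_le hle
  have hlt : BB θ 4 < BB θ 4 ⊔ Submodule.span ℂ {t} := by
    refine lt_of_le_of_ne le_sup_left ?_
    intro he
    apply hnt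
    have h3 : t ∈ BB θ 4 ⊔ Submodule.span ℂ {t} :=
      (le_sup_right : Submodule.span ℂ {t} ≤ _) (Submodule.mem_span_singleton_self t)
    rw [← he] at h3
    exact h3.2
  have h4 : Module.finrank ℂ (BB θ 4) <
      Module.finrank ℂ (BB θ 4 ⊔ Submodule.span ℂ {t} : Submodule ℂ (F3 4)) :=
    Submodule.finrank_lt_finrank_of_lt hlt
  have hk : kM θ 4 = Module.finrank ℂ (BK θ 4) - Module.finrank ℂ (BB θ 4) := rfl
  have h5 : BB θ 4 ⊔ Submodule.span ℂ {t} = BK θ 4 := by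
    apply Submodule.eq_of_le_of_finrank_le hle
    have h6 : Module.finrank ℂ (BK θ 4) ≤
      Module.finrank ℂ (BB θ 4 ⊔ Submodule.span ℂ {t} : Submodule ℂ (F3 4)) := by omega
    exact h6
  rw [← h5, Submodule.mem_sup] at hbK
  obtain ⟨b', hb', s, hs, hsum⟩ := hbK
  obtain ⟨c, rfl⟩ := Submodule.mem_span_singleton.1 hs
  refine ⟨c, ?_⟩
  have h6 : (fun i j l => b i j l - C c * t i j l) = b' := by
    funext i j l
    rw [← hsum]
    show b' i j l + c • t i j l - C c * t i j l = b' i j l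
    rw [smul_eq_C_mul]
    ring
  rw [h6]
  exact hb'.2

/-- lifts of products of liftable forms with linear forms -/
private theorem h1_span {k : ℕ}
    (h : ∀ (i : Fin 3) (ζ : F1 3), ζ ∈ EE (rs2 θ) k →
      ∃ ξ ∈ EE θ (k + 1), ∀ j, res ξ j = X i * ζ j) :
    ∀ ζ ∈ XE (rs2 θ) k, ∃ ξ ∈ EE θ (k + 1), ∀ i, res ξ i = ζ i := by
  intro ζ hζ
  unfold XE at hζ
  induction hζ using Submodule.span_induction with
  | mem x hx =>
    obtain ⟨i, ζ0, h1, h2⟩ := hx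
    obtain ⟨ξ, hξ, hr⟩ := h i ζ0 h1
    exact ⟨ξ, hξ, fun j => (hr j).trans (h2 j).symm⟩
  | zero => exact ⟨0, (EE θ (k + 1)).zero_mem, fun i => map_zero _⟩
  | add x y _ _ hx hy =>
    obtain ⟨ξ, hξ, hr⟩ := hx
    obtain ⟨ξ', hξ', hr'⟩ := hy
    refine ⟨ξ + ξ', (EE θ (k + 1)).add_mem hξ hξ', fun i => ?_⟩
    have h1 : res (ξ + ξ') i = res ξ i + res ξ' i := map_add (at0 3 ℂ) _ _
    rw [h1, hr, hr']
    rfl
  | smul c x _ hx =>
    obtain ⟨ξ, hξ, hr⟩ := hx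
    refine ⟨c • ξ, (EE θ (k + 1)).smul_mem c hξ, fun i => ?_⟩
    have h1 : res (c • ξ) i = c • res ξ i := map_smul (at0 3 ℂ) c (ξ i.succ)
    rw [h1, hr]
    rfl

theorem lift_XE (hF : Fol θ) (gp : GP θ) (hP : Pl5 (rs2 θ)) (h2 : Module.finrank ℂ (EE θ 2) = 1)
    (ht : t ∈ BS θ 4) (hnt : ¬ IsB θ t) (hX : ∀ a, IsB θ (fun i j l => X a * t i j l)) :
    ∀ ζ ∈ XE (rs2 θ) 2, ∃ ξ ∈ EE θ 3, ∀ i, res ξ i = ζ i := by
  refine h1_span (k := 2) ?_
  intro i ζ hζ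
  obtain ⟨ξ, hξ, hr, b, hbh, hb⟩ := EE_lift hF.hom hF.dec gp.prim hζ
  have h1 : IsB θ (fun i j k => X 0 * b i j k) := ⟨ξ, fun i j l => (hb i j l).symm⟩
  have hs : IsBsat θ b := gp.hz b h1.sat
  obtain ⟨c, hc⟩ := ker4_of_socle hF gp hP h2 ht hnt (hX 0) (b := b) ⟨hbh, hs⟩ h1
  have h3 : IsB θ (fun j k l => X i.succ * b j k l) := by
    have h4 := (hc.smul (X i.succ)).add ((hX i.succ).smul (C c))
    have h5 : (fun j k l => X i.succ * (b j k l - C c * t j k l) + C c * (X i.succ * t j k l)) =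
        fun j k l => X i.succ * b j k l := by
      funext j k l
      ring
    rw [← h5]
    exact h4
  have hξ' : ∀ j, (X i.succ * ξ j).IsHomogeneous 3 := by
    intro j
    have h6 := (isHomogeneous_X ℂ i.succ).mul (hξ j)
    exact h6
  have hb' : ∀ j k l, w12 (fun j => X i.succ * ξ j) θ j k l = X 0 * (X i.succ * b j k l) := by
    intro j k l
    rw [Pool.Agent.Helper71.FL.w12_smul, hb]
    ring
  obtain ⟨ξ', hξ'', hr'⟩ := (EE_lift_iff hF.hom (nz1_of_GP gp) hξ' hb').2 h3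
  refine ⟨ξ', hξ'', fun j => ?_⟩
  rw [hr', ← hr j]
  show at0 3 ℂ (X i.succ * ξ j.succ) = X i * at0 3 ℂ (ξ j.succ)
  rw [map_mul, h1_at0_Xs]

theorem lift3 (hF : Fol θ) (gp : GP θ) (hP : Pl5 (rs2 θ)) (h2 : Module.finrank ℂ (EE θ 2) = 1)
    (ht : t ∈ BS θ 4) (hnt : ¬ IsB θ t) (hX : ∀ a, IsB θ (fun i j l => X a * t i j l)) :
    LiftAt θ 3 := by
  have hL := lift_XE hF gp hP h2 ht hnt hX
  have hFr := Fol_rs2 hF gp
  obtain ⟨v, hv⟩ := exists_av hFr hP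
  obtain ⟨τ, hτ, hgen⟩ := hP.gen3
  have hav : av (rs2 θ) v ∈ EE (rs2 θ) 3 := av_mem_EE hFr.dec hFr.hom v
  obtain ⟨x, hx, s, hs, hsum⟩ := Submodule.mem_sup.1 (hgen hav)
  obtain ⟨c, rfl⟩ := Submodule.mem_span_singleton.1 hs
  have hc : c ≠ 0 := by
    rintro rfl
    apply hv
    rw [← hsum, zero_smul, add_zero]
    exact hx
  -- the lift of `av (rs2 θ) v`
  have hA : (av θ (Fin.cons 0 v)) ∈ EE θ 3 := av_mem_EE hF.dec hF.hom _
  have hAr : ∀ j, res (av θ (Fin.cons 0 v)) j = av (rs2 θ) v j := by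
    intro j
    show at0 3 ℂ (∑ i : Fin 4, C ((Fin.cons 0 v : Fin 4 → ℂ) i) * θ i j.succ) =
      ∑ i : Fin 3, C (v i) * at0 3 ℂ (θ i.succ j.succ)
    rw [map_sum, Fin.sum_univ_succ, map_mul, h1_at0_C, Fin.cons_zero, C_0, zero_mul, zero_add]
    refine Finset.sum_congr rfl fun i _ => ?_
    rw [map_mul, h1_at0_C, Fin.cons_succ]
  obtain ⟨ξx, hξx, hrx⟩ := hL x hx
  intro ζ hζ
  obtain ⟨y, hy, s, hs, hsum'⟩ := Submodule.mem_sup.1 (hgen hζ)
  obtain ⟨e, rfl⟩ := Submodule.mem_span_singleton.1 hs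
  obtain ⟨ξy, hξy, hry⟩ := hL y hy
  refine ⟨ξy + (e * c⁻¹) • (av θ (Fin.cons 0 v) - ξx), (EE θ 3).add_mem hξy
    ((EE θ 3).smul_mem _ ((EE θ 3).sub_mem hA hξx)), fun i => ?_⟩
  have h5 : res (ξy + (e * c⁻¹) • (av θ (Fin.cons 0 v) - ξx)) i =
      res ξy i + (e * c⁻¹) • (res (av θ (Fin.cons 0 v)) i - res ξx i) := by
    show at0 3 ℂ (ξy i.succ + (e * c⁻¹) • (av θ (Fin.cons 0 v) i.succ - ξx i.succ)) = _
    rw [map_add, map_smul, map_sub]
    rfl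
  rw [h5, hry, hAr, hrx]
  have h6 : av (rs2 θ) v i - x i = c • τ i := by
    rw [← hsum]
    show x i + c • τ i - x i = c • τ i
    ring
  rw [h6, smul_smul, mul_assoc, inv_mul_cancel₀ hc, mul_one, ← hsum']
  rfl

theorem lift_ge (hP : Pl5 (rs2 θ)) (h3 : LiftAt θ 3) : ∀ k, 3 ≤ k → LiftAt θ k := by
  intro k hk
  induction k, hk using Nat.le_induction with
  | base => exact h3
  | succ k hk ih =>
    intro ζ hζ
    refine h1_span (k := k) ?_ ζ (hP.gen k hk hζ)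
    intro i ζ0 hζ0
    obtain ⟨ξ, hξ, hr⟩ := ih ζ0 hζ0
    refine ⟨fun j => X i.succ * ξ j, ⟨fun j => ?_, fun j k l => ?_⟩, fun j => ?_⟩
    · have h6 := (isHomogeneous_X ℂ i.succ).mul (hξ.1 j)
      rwa [add_comm 1] at h6
    · rw [Pool.Agent.Helper71.FL.w12_smul, hξ.2, mul_zero]
    · rw [← hr j]
      show at0 3 ℂ (X i.succ * ξ j.succ) = X i * at0 3 ℂ (ξ j.succ)
      rw [map_mul, h1_at0_Xs]

theorem mM_ge_zero (hF : Fol θ) (gp : GP θ) (hl : ∀ k, 3 ≤ k → LiftAt θ k) :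
    ∀ d, 5 ≤ d → mM θ d = 0 := by
  obtain ⟨D, hD⟩ := BS_large (θ := θ) hF.hom
  have hinj : ∀ d, 5 ≤ d → InjAt θ d := by
    intro d hd
    obtain ⟨k, rfl⟩ : ∃ k, d = k + 2 := ⟨d - 2, by omega⟩
    exact inj_of_lift hF.hom (nz1_of_GP gp) (hl k (by omega))
  have key : ∀ m d, 5 ≤ d → D ≤ d + m → ∀ b ∈ BS θ d, IsB θ b := by
    intro m
    induction m with
    | zero =>
      intro d _ hd' b hb
      exact hD d hd' b hb
    | succ m ih =>
      intro d hd hd' b hb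
      apply hinj d hd b hb
      exact ih (d + 1) (by omega) (by omega) _ ⟨fun i j l => h1_hom 0 hb.1 i j l, hb.2.smul (X 0)⟩
  intro d hd
  rw [mM_eq_zero_iff]
  exact key D d hd (by omega)

/-- `M_H` is one-dimensional -/
theorem H1 (hF : Fol θ) (gp : GP θ) (hP : Pl5 (rs2 θ)) (h2 : Module.finrank ℂ (EE θ 2) = 1)
    (ht : t ∈ BS θ 4) (hnt : ¬ IsB θ t) (hX : ∀ a, IsB θ (fun i j l => X a * t i j l)) :
    (∀ d ≤ 3, mM θ d = 0) ∧ mM θ 4 = 1 ∧ Module.finrank ℂ (EE θ 3) = 8 := by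
  have h5 := mM_ge_zero hF gp (lift_ge hP (lift3 hF gp hP h2 ht hnt hX)) 5 le_rfl
  obtain ⟨-, -, k4⟩ := H_kM hF gp hP
  obtain ⟨m0, m1, m2, m3, m4, m5⟩ := H_mM hF gp hP
  have e4 : mM θ 4 = 1 := by omega
  have e3 : mM θ 3 = 0 := by
    rw [mM_eq_zero_iff]
    intro b hb
    by_contra hnb
    have h7 := ann_add hb
    have h8 : (3 : ℕ) ≤ Module.finrank ℂ (AnnB θ b) := by
      have h9 : mM θ (3 + 1) = 1 := e4
      omega
    have h10 : 3 ≤ Module.finrank ℂ (EE θ 2) := ann_three hF (d := 1) hb.1 hnb h8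
    omega
  have e2 : mM θ 2 = 0 := by
    rw [mM_eq_zero_iff]
    intro b hb
    apply H_inj hF gp hP 2 (by omega) b hb
    exact (mM_eq_zero_iff θ 3).1 e3 _ ⟨fun i j l => h1_hom 0 hb.1 i j l, hb.2.smul (X 0)⟩
  have hc := count_E (θ := θ) le_rfl hF.hom hF.dec gp.prim gp.hz 2
  have hc' : Module.finrank ℂ (EE (rs2 θ) 3) + Module.finrank ℂ (EE θ 2) =
      Module.finrank ℂ (EE θ 3) + kM θ 5 := hc
  have hk := kM_le θ 5
  have he3 := hP.e3
  refine ⟨?_, e4, by omega⟩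
  intro d hd
  rcases Nat.lt_or_ge d 1 with h | h
  · have : d = 0 := by omega
    rw [this]; exact m0
  · rcases Nat.lt_or_ge d 2 with h' | h'
    · have : d = 1 := by omega
      rw [this]; exact m1
    · rcases Nat.lt_or_ge d 3 with h'' | h''
      · have : d = 2 := by omega
        rw [this]; exact e2
      · have : d = 3 := by omega
        rw [this]; exact e3

end

end Pool.Agent.Helper57.SC
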