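import Pool.Agent.Helper57.SC.Pl5
import Pool.Agent.Helper18.LB.Dim3
import Pool.Agent.Helper18.LB.MP
import Mathlib.RingTheory.MvPolynomial.EulerIdentity

/-! SC-14 (project FOL, case Y, z = 5): the plane type `Pl5` from helper18's normal form `NF θ 2 ..`. -/

set_option autoImplicit false

namespace Pool.Agent.Helper57.SC

open MvPolynomial
open scoped BigOperators
open Pool.Agent.Helper71.FL (w12 pf ct Dec Closed dd res)
open Pool.Agent.Helper71.FC
open Pool.Agent.Helper18.LB

private theorem hom_split {n d : ℕ} {f : Pn n} (hf : f.IsHomogeneous (d + 1)) :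
    ∃ g : Fin n → Pn n, (∀ i, (g i).IsHomogeneous d) ∧ f = ∑ i, X i * g i := by
  refine ⟨fun i => C ((d + 1 : ℂ)⁻¹) * pderiv i f, fun i => ?_, ?_⟩
  · have := (isHomogeneous_C (Fin n) ((d + 1 : ℂ)⁻¹)).mul (hf.pderiv (i := i))
    rw [zero_add, Nat.add_sub_cancel] at this
    exact this
  · have h1 := hf.sum_X_mul_pderiv
    have h2 : ((d : ℂ) + 1) ≠ 0 := by exact_mod_cast Nat.succ_ne_zero d
    calc f = C ((d + 1 : ℂ)⁻¹) * ((d + 1) • f) := by
          rw [nsmul_eq_mul, ← mul_assoc]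
          have : (C ((d + 1 : ℂ)⁻¹) : Pn n) * ((d + 1 : ℕ) : Pn n) = 1 := by
            rw [← C_eq_coe_nat, ← C_mul, ← C_1]
            congr 1
            push_cast
            exact inv_mul_cancel₀ h2
          rw [this, one_mul]
      _ = C ((d + 1 : ℂ)⁻¹) * ∑ i, X i * pderiv i f := by rw [h1]
      _ = _ := by
          rw [Finset.mul_sum]
          exact Finset.sum_congr rfl fun i _ => by ring

private theorem mul_mem_EE {n : ℕ} {θ : F2 n} {k e : ℕ} {ξ : F1 n} (hξ : ξ ∈ EE θ k) {f : Pn n}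
    (hf : f.IsHomogeneous e) : (fun i => f * ξ i) ∈ EE θ (e + k) := by
  refine ⟨fun i => hf.mul (hξ.1 i), fun i j l => ?_⟩
  have := Pool.Agent.Helper71.FL.w12_smul f ξ θ i j l
  rw [hξ.2, mul_zero] at this
  exact this

private theorem mul_mem_XE {n : ℕ} {θ : F2 n} {k d : ℕ} {ξ : F1 n} (hξ : ξ ∈ EE θ k) {f : Pn n}
    (hf : f.IsHomogeneous (d + 1)) : (fun i => f * ξ i) ∈ XE θ (d + k) := by
  obtain ⟨g, hg, rfl⟩ := hom_split hf
  have h1 : (fun i => (∑ l, X l * g l) * ξ i) = ∑ l, fun i => X l * (g l * ξ i) := by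
    funext i
    rw [Finset.sum_apply, Finset.sum_mul]
    exact Finset.sum_congr rfl fun l _ => by ring
  rw [h1]
  exact Submodule.sum_mem _ fun l _ => Submodule.subset_span ⟨l, fun i => g l * ξ i,
    mul_mem_EE hξ (hg l), fun j => rfl⟩

private theorem const_of_hom {n : ℕ} {f : Pn n} (hf : f.IsHomogeneous 0) : ∃ c : ℂ, f = C c :=
  ⟨coeff 0 f, (totalDegree_eq_zero_iff_eq_C.mp (Nat.le_zero.mp hf.totalDegree_le))⟩

theorem Pl5_of {θ : F2 3} (hF : Fol θ) (h0 : Module.finrank ℂ (EE θ 0) = 0)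
    (h1 : Module.finrank ℂ (EE θ 1) = 0) (h2 : Module.finrank ℂ (EE θ 2) = 2) : Pl5 θ := by
  have h1' : EE θ 1 = ⊥ := by
    have := finite_EE θ 1
    exact Submodule.finrank_eq_zero.mp h1
  obtain ⟨e, σ1, σ2, a, b, m, ρ, φ1, φ2, h⟩ := exists_NF' hF h1' (by omega)
  have he : e = 2 := by
    rcases h.he with rfl | rfl
    · have := h.finrank1 hF
      omega
    · rfl
  subst he
  have s1 := h.mem1
  have s2 := h.mem2
  have st : tau a b φ1 φ2 ∈ EE θ 3 := h.memt
  refine ⟨h0, h1, h2, ?_, ⟨tau a b φ1 φ2, st, ?_⟩, ?_, ⟨m, h.hm, h.hm0, ?_⟩, ?_, ?_, ?_, ?_, ?_, ?_⟩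
  · -- `e_3 = 7`
    let H1 := homogeneousSubmodule (Fin 3) ℂ 1
    haveI : Module.Finite ℂ H1 := finite_homog 3 1
    let L : (H1 × H1 × ℂ) →ₗ[ℂ] F1 3 :=
      { toFun := fun x i => x.1.1 * σ1 i + x.2.1.1 * σ2 i + C x.2.2 * tau a b φ1 φ2 i
        map_add' := by
          intro x y
          funext i
          simp only [Prod.fst_add, Prod.snd_add, Submodule.coe_add, map_add, Pi.add_apply]
          ring
        map_smul' := by
          intro c x
          funext i
          simp only [Prod.smul_fst, Prod.smul_snd, Submodule.coe_smul, RingHom.id_apply,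
            Pi.smul_apply, smul_eq_C_mul, smul_eq_mul, C_mul]
          ring }
    have hL : ∀ x : H1 × H1 × ℂ, L x = fun i => x.1.1 * σ1 i + x.2.1.1 * σ2 i +
      C x.2.2 * tau a b φ1 φ2 i := fun x => rfl
    have hinj : Function.Injective L := by
      rw [← LinearMap.ker_eq_bot, LinearMap.ker_eq_bot']
      rintro ⟨⟨f, hf⟩, ⟨g, hg⟩, c⟩ hx
      have hx' := fun i => congrFun ((hL _).symm.trans hx) i
      obtain ⟨u, hu1, hu2, hu3⟩ := h.ker hF (f := f) (g := g) (k := C c) hx'
      have hc : c = 0 := by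
        by_contra hc
        have h3 : m * u = C (-c) := by rw [C_neg, hu3, neg_neg]
        have h4 : IsUnit (m * u) := by
          rw [h3]
          exact (isUnit_iff_ne_zero.mpr (neg_ne_zero.mpr hc)).map C
        exact (prime_of_hom_one h.hm h.hm0).not_unit (isUnit_of_mul_isUnit_left h4)
      have hu : u = 0 := by
        rw [hc, C_0] at hu3
        rcases mul_eq_zero.mp (neg_eq_zero.mp hu3.symm) with h5 | h5
        · exact absurd h5 h.hm0
        · exact h5
      rw [hu, mul_zero] at hu1 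
      rw [hu, mul_zero, neg_zero] at hu2
      subst hu1 hu2 hc
      rfl
    have hr : LinearMap.range L = EE θ 3 := by
      apply le_antisymm
      · rintro _ ⟨⟨⟨f, hf⟩, ⟨g, hg⟩, c⟩, rfl⟩
        have a1 : (fun i => f * σ1 i) ∈ EE θ 3 := mul_mem_EE (e := 1) s1 hf
        have a2 : (fun i => g * σ2 i) ∈ EE θ 3 := mul_mem_EE (e := 1) s2 hg
        have a3 : (fun i => C c * tau a b φ1 φ2 i) ∈ EE θ 3 := by
          have := (EE θ 3).smul_mem c st
          have h4 : c • tau a b φ1 φ2 = fun i => C c * tau a b φ1 φ2 i := by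
            funext i
            rw [Pi.smul_apply, smul_eq_C_mul]
          rwa [h4] at this
        exact (EE θ 3).add_mem ((EE θ 3).add_mem a1 a2) a3
      · intro ξ hξ
        obtain ⟨f, g, k, hf, hg, hk, hx⟩ := h.gen2 hF (d := 0) hξ
        obtain ⟨c, rfl⟩ := const_of_hom hk
        exact ⟨(⟨f, hf⟩, ⟨g, hg⟩, c), funext fun i => (hx i).symm⟩
    rw [← hr, LinearMap.finrank_range_of_inj hinj, Module.finrank_prod, Module.finrank_prod,
      finrank_homog 2 1, Module.finrank_self]
    rfl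
  · intro ξ hξ
    obtain ⟨f, g, k, hf, hg, hk, hx⟩ := h.gen2 hF (d := 0) hξ
    obtain ⟨c, rfl⟩ := const_of_hom hk
    have h3 : ξ = (fun i => f * σ1 i) + (fun i => g * σ2 i) + c • tau a b φ1 φ2 := by
      funext i
      rw [Pi.add_apply, Pi.add_apply, Pi.smul_apply, smul_eq_C_mul]
      exact hx i
    rw [h3]
    refine Submodule.add_mem _ (Submodule.mem_sup_left (Submodule.add_mem _ ?_ ?_))
      (Submodule.mem_sup_right (Submodule.smul_mem _ _ (Submodule.mem_span_singleton_self _)))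
    · exact mul_mem_XE (d := 0) (k := 2) s1 hf
    · exact mul_mem_XE (d := 0) (k := 2) s2 hg
  · intro k hk ξ hξ
    obtain ⟨d, rfl⟩ : ∃ d, k = d + 3 := ⟨k - 3, by omega⟩
    obtain ⟨f, g, k, hf, hg, hk, hx⟩ := h.gen2 hF (d := d + 1) hξ
    have h3 : ξ = (fun i => f * σ1 i) + (fun i => g * σ2 i) + (fun i => k * tau a b φ1 φ2 i) := by
      funext i
      exact hx i
    rw [h3]
    refine Submodule.add_mem _ (Submodule.add_mem _ ?_ ?_) ?_
    · exact mul_mem_XE (d := d + 1) (k := 2) s1 hf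
    · exact mul_mem_XE (d := d + 1) (k := 2) s2 hg
    · exact mul_mem_XE (d := d) (k := 3) st hk
  · intro σ hσ σ' hσ'
    obtain ⟨c1, c2, hc⟩ := h.gen2' hF hσ
    obtain ⟨c1', c2', hc'⟩ := h.gen2' hF hσ'
    refine ⟨c1 * c2' - c2 * c1', fun i j => ?_⟩
    have h3 := h.w12' i j
    unfold w11 at h3 ⊢
    rw [hc, hc, hc', hc', C_sub, C_mul, C_mul]
    linear_combination (C c1 * C c2' - C c2 * C c1') * h3
  · have := h.mM2 hF 0
    norm_num at this
    exact this
  · have := h.mM2 hF 1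
    norm_num at this
    exact this
  · have := h.mM2 hF 2
    norm_num at this
    exact this
  · have := h.mM2 hF 3
    norm_num at this
    exact this
  · have := h.mM2 hF 4
    norm_num at this
    exact this
  · intro d hd
    have := h.mM2 hF d
    rw [if_neg (by omega), if_neg (by omega), if_neg (by omega)] at this
    omega

end Pool.Agent.Helper57.SC
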