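import Pool.Agent.Helper57.SC.AllN
import Pool.Agent.Helper57.SC.Pl5of
import Pool.Agent.Helper71.FC.CaseY

/-! SC-15 (project FOL, case Y): `z = 5` does not occur in case Y. -/

set_option autoImplicit false

namespace Pool.Agent.Helper57.SC

open MvPolynomial
open scoped BigOperators
open Pool.Agent.Helper71.FL (w12 pf ct Dec Closed dd res)
open Pool.Agent.Helper71.FC

/-- `z = 5` does not occur in case Y (modulo LEMMA X) -/
theorem IY5_of (hX : LemmaX) : IY5 := by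
  intro θ hY g0 g1 h2
  have hq : ∀ m, 3 ≤ m → m ≤ 2 + 3 →
      GenM (fun φ : Fin (2 + 3) → Fin m → ℂ => q5 m (pb2 φ θ)) := by
    intro m hm3 hm5
    obtain rfl | rfl | rfl : m = 3 ∨ m = 4 ∨ m = 5 := by omega
    · refine ((((ge_gen θ 3 0).and (ge_gen θ 3 1)).and (ge_gen θ 3 2)).and
        (Fol_gen (m := 3) (by norm_num) (by norm_num) hY.fol)).mono fun φ hφ => ?_
      exact Pl5_of hφ.2 (hφ.1.1.1.trans g0) (hφ.1.1.2.trans g1) (hφ.1.2.trans h2)
    · exact ⟨1, one_ne_zero, fun _ _ => trivial⟩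
    · refine (GenM.inv 5).mono fun φ hφ => ?_
      obtain ⟨g', hg⟩ := hφ
      exact fun hc => hY.nc ((Cone_pb2 θ hg).1 hc)
  obtain ⟨g, g', hg, hfl⟩ := exists_flag q5_inv 2 θ hY.fol hq
  have h3 := allN5 hX 2 (pb2 g θ) hfl
  rw [finrank_EE_pb2 θ 2 hg, hY.e2, finrank_bot] at h3
  exact h3 rfl

end Pool.Agent.Helper57.SC
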