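import Pool.Agent.Helper71.FC.CaseY
import Pool.Agent.Helper18.LB.SatB
import Pool.Agent.Helper18.LB.MP

/-! SC-13 (project FOL, case Y, z = 6): plane type `e_2(P) = 3`.
`M_P = (0, 1, 0)` in degrees 2, 3, 4 (`NF.mM1`), so `m_4(H) ≤ 1`, `e_2(H) = 3 - k_4(H) ≥ 2`, and `lift_two` gives `e_2 ≥ 2` in all higher dimensions. -/

set_option autoImplicit false

namespace Pool.Agent.Helper57.SC

open MvPolynomial
open scoped BigOperators
open Pool.Agent.Helper71.FL (w12 pf ct Dec Closed dd res)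
open Pool.Agent.Helper71.FC
open Pool.Agent.Helper18.LB

/-- plane with `e_2 ≥ 3` -/
theorem three_plane {θ : F2 3} (hF : Fol θ) (h1 : EE θ 1 = ⊥)
    (h2 : 3 ≤ Module.finrank ℂ (EE θ 2)) :
    Module.finrank ℂ (EE θ 2) = 3 ∧ ∀ d, mM θ d ≤ if d = 3 then 1 else 0 := by
  obtain ⟨e, σ1, σ2, a, b, m, ρ, φ1, φ2, h⟩ := exists_NF' hF h1 (by omega)
  rcases h.he with rfl | rfl
  · exact ⟨h.finrank1 hF, fun d => h.mM1 hF d⟩
  · have := h.finrank2 hF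
    omega

/-- `e_2(H) ≥ 2` for a general hyperplane section `P` of type `e_2(P) ≥ 3` -/
theorem three_H {θ : F2 4} (hF : Fol θ) (hFP : Fol (rs2 θ)) (h0 : hz θ)
    (h00 : Module.finrank ℂ (EE (rs2 θ) 0) = 0) (h1 : Module.finrank ℂ (EE (rs2 θ) 1) = 0)
    (h2 : 3 ≤ Module.finrank ℂ (EE (rs2 θ) 2)) : 2 ≤ Module.finrank ℂ (EE θ 2) := by
  have h1' : EE (rs2 θ) 1 = ⊥ := by
    have := finite_EE (rs2 θ) 1
    exact Submodule.finrank_eq_zero.mp h1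
  obtain ⟨e3, hm⟩ := three_plane hFP h1' h2
  have c0 := count_E0 le_rfl hF.hom hF.dec hFP.prim h0
  have c1 : Module.finrank ℂ (EE (rs2 θ) 1) + Module.finrank ℂ (EE θ 0) =
    Module.finrank ℂ (EE θ 1) + kM θ 3 := count_E le_rfl hF.hom hF.dec hFP.prim h0 0
  have c2 : Module.finrank ℂ (EE (rs2 θ) 2) + Module.finrank ℂ (EE θ 1) =
    Module.finrank ℂ (EE θ 2) + kM θ 4 := count_E le_rfl hF.hom hF.dec hFP.prim h0 1
  have m0 := count_M0 le_rfl hF.hom hF.dec hFP.prim h0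
  have m1 : mM θ 1 + kM θ 0 ≤ mM θ 0 + mM (rs2 θ) 1 := count_M le_rfl hF.hom hF.dec hFP.prim h0 0
  have m2 : mM θ 2 + kM θ 1 ≤ mM θ 1 + mM (rs2 θ) 2 := count_M le_rfl hF.hom hF.dec hFP.prim h0 1
  have m3 : mM θ 3 + kM θ 2 ≤ mM θ 2 + mM (rs2 θ) 3 := count_M le_rfl hF.hom hF.dec hFP.prim h0 2
  have m4 : mM θ 4 + kM θ 3 ≤ mM θ 3 + mM (rs2 θ) 4 := count_M le_rfl hF.hom hF.dec hFP.prim h0 3
  have k4 := kM_le θ 4
  have p0 := hm 0
  have p1 := hm 1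
  have p2 := hm 2
  have p3 := hm 3
  have p4 := hm 4
  norm_num at p0 p1 p2 p3 p4
  omega

/-- `z = 6` does not occur in case Y -/
theorem IY6_of : IY6 := by
  intro θ hY g0 g1
  by_contra hlt
  have hge : 3 ≤ ge θ 3 2 := by omega
  obtain ⟨g, g', hg, -, -, ⟨q0, q1, q2⟩, hF, hz0, hFH, hzH, hFP⟩ := exists_flag2 (n := 3) le_rfl hY.fol
    (p := fun _ => True) ⟨1, one_ne_zero, fun _ _ => trivial⟩ (q := fun _ => True)
    ⟨1, one_ne_zero, fun _ _ => trivial⟩ (((ge_gen θ 3 0).and ((ge_gen θ 3 1).and (ge_gen θ 3 2))))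
  have hP : rs2 (rs2 (pb2 g θ)) = pb2 (fun i (j : Fin 3) => g i j.succ.succ) θ := by
    rw [Pool.Agent.Helper71.FC.rs2_pb2, rs2_eq_pb2, pb2_mm]
    congr 1
    funext i j
    show ∑ l : Fin 4, g i l.succ * (if l = j.succ then (1 : ℂ) else 0) = _
    simp
  rw [← hP] at q0 q1 q2
  have hH := three_H hFH hFP hzH (q0.trans g0) (q1.trans g1) (by omega)
  have e1H : EE (rs2 (pb2 g θ)) 1 = ⊥ := by
    have c0 := count_E0 le_rfl hFH.hom hFH.dec hFP.prim hzH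
    have c1 : Module.finrank ℂ (EE (rs2 (rs2 (pb2 g θ))) 1) +
      Module.finrank ℂ (EE (rs2 (pb2 g θ)) 0) = Module.finrank ℂ (EE (rs2 (pb2 g θ)) 1) +
        kM (rs2 (pb2 g θ)) 3 := count_E le_rfl hFH.hom hFH.dec hFP.prim hzH 0
    have := finite_EE (rs2 (pb2 g θ)) 1
    refine Submodule.finrank_eq_zero.mp ?_
    omega
  have hV := lift_two (n := 4) le_rfl hF hFH hz0 e1H hH
  rw [finrank_EE_pb2 θ 2 hg, hY.e2, finrank_bot] at hV
  omega

end Pool.Agent.Helper57.SC
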