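import Pool.Agent.Helper57.SC.Flag

/-! SC-5 (project FOL, case Y): LEMMA S and LEMMA S' (lifting of sections through hyperplane sections).
Notation: `H = {x_0 = 0}`, `θ_H = rs2 θ`, `EE`, `BS`, `BB` as in `Helper71/FC`.

* `inj_of_lift`: `X 0 b = c ∧ θ` with `c` homogeneous of degree `k` (`mem_BB_iff`); `res c ∈ EE (rs2 θ) k` (`res_of_mul`), so it lifts to
  `EE θ k` by hypothesis, and `EE_lift_iff` gives `IsB θ b`.
* `lift_of_inj`: `EE_lift` gives `ξ`, `b` with `ξ ∧ θ = X 0 b`; `X 0 b` is in the saturation, so `b ∈ BS θ (k + 2)` by `hz`; by hypothesis `IsB θ b`;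
  `EE_lift_iff`.
* `inj_small`: `BB_small` (`X 0 b` has degree `< 3`), `X 0` is a nonzerodivisor.
* `inj_of_no_socle` (LEMMA S'): `socleBS`.  Let `b ∈ BS θ d`, and for all `a` let `lf a * b - X 0 * b' ∈ B`.  Restrict to `H` (`IsB` restricts: `w12_res`):
  `X i * rs3 b ∈ B_H` for all `i`, `rs3 b ∈ BS (rs2 θ) d` (`IsBsat_rs3`), so `IsB (rs2 θ) (rs3 b)` by hypothesis; `BS_res` (for `d ≥ 1`) gives
  `b = X 0 * b1 + c ∧ θ` with `b1 ∈ BS θ (d - 1)`, `BS_res0` gives `b = 0` for `d = 0`.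
* `lemmaS`: `inj_of_lift` for `rs2 θ` in degrees `k + 2 ≤ k0 + 2` and `inj_small` in degrees `0, 1` show that no `b ∈ BS (rs2 θ) d`, `d ≤ k0 + 2`, not
  in `B`, is killed by all `X i`; `inj_of_no_socle`; `lift_of_inj`. -/

set_option autoImplicit false

namespace Pool.Agent.Helper57.SC

open MvPolynomial
open scoped BigOperators
open Pool.Agent.Helper71.FL (w12 pf ct Dec Closed dd res at0)
open Pool.Agent.Helper71.FC

variable {n : ℕ}

/-! ### auxiliary facts -/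

private theorem ls_at0_X0 : at0 n ℂ (X 0) = 0 := (at0_eq_zero_iff _).2 ⟨1, by rw [mul_one]⟩

private theorem ls_at0_Xs (i : Fin n) : at0 n ℂ (X i.succ) = X i := by
  unfold at0
  rw [aeval_X, Fin.cons_succ]

private theorem ls_at0_hom {f : Pn (n + 1)} {d : ℕ} (h : f.IsHomogeneous d) :
    (at0 n ℂ f).IsHomogeneous d := by
  unfold at0
  have h1 := h.aeval (Fin.cons (0 : Pn n) (fun i => (X i : Pn n)) : Fin (n + 1) → Pn n) (n := 1)
    (by
      intro i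
      refine Fin.cases ?_ (fun j => ?_) i
      · rw [Fin.cons_zero]; exact isHomogeneous_zero _ _ _
      · rw [Fin.cons_succ]; exact isHomogeneous_X _ _)
  rwa [one_mul] at h1

private theorem ls_nz {θ : F2 n} (hp : Prim2 θ) : ∃ i j, θ i j ≠ 0 := by
  by_contra hcon
  push Not at hcon
  have := hp 0 (fun i j => by rw [hcon])
  exact not_isUnit_zero this

private theorem ls_res {θ : F2 (n + 1)} {b : F3 (n + 1)} (h : IsB θ b) : IsB (rs2 θ) (rs3 b) := by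
  obtain ⟨c, hc⟩ := h
  refine ⟨res c, fun i j k => ?_⟩
  rw [w12_res, ← hc]
  rfl

private theorem ls_hom1 {b : F3 (n + 1)} {d : ℕ} (h : ∀ i j l, (b i j l).IsHomogeneous d)
    (i j l : Fin (n + 1)) : (X 0 * b i j l).IsHomogeneous (d + 1) := by
  have h6 := (isHomogeneous_X ℂ (0 : Fin (n + 1))).mul (h i j l)
  rwa [add_comm 1 d] at h6

private theorem ls_rs3_mem {θ : F2 (n + 1)} {d : ℕ} {b : F3 (n + 1)} (hb : b ∈ BS θ d) :
    rs3 b ∈ BS (rs2 θ) d :=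
  ⟨fun _ _ _ => ls_at0_hom (hb.1 _ _ _), IsBsat_rs3 hb.2⟩

private theorem ls_lf (a : Fin n) :
    lf (fun i : Fin (n + 1) => if i = a.succ then (1 : ℂ) else 0) = X a.succ := by
  unfold lf
  rw [Finset.sum_eq_single a.succ]
  · simp
  · intro b _ hb
    simp [hb]
  · intro h
    exact absurd (Finset.mem_univ _) h

private theorem ls_soc {θ : F2 (n + 1)} {d : ℕ} (hs : ∀ b ∈ BS (rs2 θ) d,
    (∀ a : Fin n, IsB (rs2 θ) (fun i j l => X a * b i j l)) → IsB (rs2 θ) b) {b : F3 (n + 1)}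
    (hb : b ∈ BS θ d) (h : ∀ a : Fin (n + 1) → ℂ, ∃ b' ∈ BS θ d,
      IsB θ (fun i j l => lf a * b i j l - X 0 * b' i j l)) : IsB (rs2 θ) (rs3 b) := by
  refine hs _ (ls_rs3_mem hb) fun a => ?_
  obtain ⟨b', _, h1⟩ := h (fun i => if i = a.succ then (1 : ℂ) else 0)
  have h2 := ls_res h1
  have h3 : rs3 (fun i j l : Fin (n + 1) =>
      lf (fun i : Fin (n + 1) => if i = a.succ then (1 : ℂ) else 0) * b i j l - X 0 * b' i j l) =
      fun i j l => X a * rs3 b i j l := by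
    funext i j l
    unfold rs3
    rw [ls_lf, map_sub, map_mul, map_mul, ls_at0_X0, ls_at0_Xs, zero_mul, sub_zero]
  rwa [h3] at h2

private theorem ls_zero {V : Type} [AddCommGroup V] [Module ℂ V] {p : Submodule ℂ V}
    [Module.Finite ℂ p] (h : Module.finrank ℂ p = 0) {x : V} (hx : x ∈ p) : x = 0 := by
  have h1 : p = ⊥ := Submodule.finrank_eq_zero.1 h
  rw [h1] at hx
  exact (Submodule.mem_bot ℂ).1 hx

/-- restriction as a linear map -/
private noncomputable def ls_resE (θ : F2 (n + 1)) (k : ℕ) : EE θ k →ₗ[ℂ] EE (rs2 θ) k where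
  toFun ξ := ⟨res ξ.1, res_mem_EE ξ.2⟩
  map_add' a b := by
    apply Subtype.ext
    funext i
    show at0 n ℂ (a.1 i.succ + b.1 i.succ) = at0 n ℂ (a.1 i.succ) + at0 n ℂ (b.1 i.succ)
    rw [map_add]
  map_smul' c a := by
    apply Subtype.ext
    funext i
    show at0 n ℂ (c • a.1 i.succ) = c • at0 n ℂ (a.1 i.succ)
    rw [map_smul]

/-! ### the lemmas -/

/-- all `EE (rs2 θ) k` lift to `θ` -/
def LiftAt (θ : F2 (n + 1)) (k : ℕ) : Prop :=
  ∀ ζ ∈ EE (rs2 θ) k, ∃ ξ ∈ EE θ k, ∀ i, res ξ i = ζ i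

/-- `x_0` is injective on `M[d]` -/
def InjAt (θ : F2 (n + 1)) (d : ℕ) : Prop :=
  ∀ b ∈ BS θ d, IsB θ (fun i j l => X 0 * b i j l) → IsB θ b

/-- `M[d]` has no socle -/
def NoSoc (θ : F2 n) (d : ℕ) : Prop :=
  ∀ b ∈ BS θ d, (∀ a : Fin n, IsB θ (fun i j l => X a * b i j l)) → IsB θ b

theorem inj_of_lift {θ : F2 (n + 1)} (hθ : ∀ i j, (θ i j).IsHomogeneous 3)
    (h : ∃ i j, rs2 θ i j ≠ 0) {k : ℕ} (hl : LiftAt θ k) : InjAt θ (k + 2) := by
  intro b hb h1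
  have h2 : (fun i j l => X 0 * b i j l) ∈ BB θ (k + 3) := ⟨ls_hom1 hb.1, h1⟩
  obtain ⟨c, hc, hc'⟩ := (mem_BB_iff hθ).1 h2
  have h3 : res c ∈ EE (rs2 θ) k := ⟨fun i => ls_at0_hom (hc _), res_of_mul hc'⟩
  obtain ⟨ξ, hξ, hr⟩ := hl _ h3
  exact (EE_lift_iff hθ h hc (fun i j l => (hc' i j l).symm)).1 ⟨ξ, hξ, hr⟩

theorem lift_of_inj {θ : F2 (n + 1)} (hn : 3 ≤ n) (hF : Fol θ) (gp : GP θ) {k : ℕ}
    (hi : InjAt θ (k + 2)) : LiftAt θ k := by
  intro ζ hζ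
  obtain ⟨ξ, hξ, hr, b, hbh, hb⟩ := EE_lift hF.hom hF.dec gp.prim hζ
  have h1 : IsB θ (fun i j k => X 0 * b i j k) := ⟨ξ, fun i j l => (hb i j l).symm⟩
  have hs : IsBsat θ b := gp.hz b h1.sat
  obtain ⟨ξ', hξ', hr'⟩ := (EE_lift_iff hF.hom (ls_nz gp.prim) hξ hb).2 (hi b ⟨hbh, hs⟩ h1)
  exact ⟨ξ', hξ', fun i => (hr' i).trans (hr i)⟩

theorem inj_small {θ : F2 (n + 1)} (hθ : ∀ i j, (θ i j).IsHomogeneous 3) {d : ℕ} (hd : d < 2) :
    InjAt θ d := by
  intro b hb h1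
  have h2 : (fun i j l => X 0 * b i j l) ∈ BB θ (d + 1) := ⟨ls_hom1 hb.1, h1⟩
  have h3 := BB_small hθ (by omega) h2
  have h4 : b = fun _ _ _ => 0 := by
    funext i j l
    have h5 : X 0 * b i j l = 0 := congrFun (congrFun (congrFun h3 i) j) l
    exact (mul_eq_zero.1 h5).resolve_left (X_ne_zero 0)
  rw [h4]
  exact IsB.zero' θ

/-- LEMMA S' -/
theorem inj_of_no_socle {θ : F2 (n + 1)} (hn : 3 ≤ n) (hF : Fol θ) (gp : GP θ) (D : ℕ)
    (hs : ∀ d ≤ D, NoSoc (rs2 θ) d) : ∀ d ≤ D, InjAt θ d := by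
  refine socleBS gp.mr D ?_ ?_
  · intro b hb h
    have h1 := ls_soc (hs 0 (Nat.zero_le _)) hb h
    have h2 := BS_res0 hn hF.hom hF.dec gp.prim hb h1
    rw [h2]
    exact IsB.zero' θ
  · intro d hd b hb h
    have h1 := ls_soc (hs (d + 1) hd) hb h
    obtain ⟨b1, hb1, c, hc⟩ := BS_res hn hF.hom hF.dec gp.prim gp.hz hb h1
    refine ⟨b1, hb1, c, fun i j k => ?_⟩
    beta_reduce
    rw [hc]
    ring

theorem noSoc_of_inj {θ : F2 (n + 1)} {d : ℕ} (h : InjAt θ d) : NoSoc θ d := fun b hb hx =>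
  h b hb (hx 0)

/-- LEMMA S: one lifting step is enough -/
theorem lemmaS {θ : F2 (n + 2)} (hn : 3 ≤ n) (hF : Fol θ) (gp : GP θ) (gpH : GP (rs2 θ)) {k0 : ℕ}
    (hl : ∀ k ≤ k0, LiftAt (rs2 θ) k) : ∀ k ≤ k0, LiftAt θ k := by
  have hθ := hF.hom
  have hn' : 3 ≤ n + 1 := by omega
  have h1 : ∀ d ≤ k0 + 2, InjAt (rs2 θ) d := by
    intro d hd
    rcases Nat.lt_or_ge d 2 with h | h
    · exact inj_small (rs2_hom hθ) h
    · obtain ⟨e, rfl⟩ : ∃ e, d = e + 2 := ⟨d - 2, by omega⟩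
      exact inj_of_lift (rs2_hom hθ) (ls_nz gpH.prim) (hl e (by omega))
  have h2 := inj_of_no_socle hn' hF gp (k0 + 2) (fun d hd => noSoc_of_inj (h1 d hd))
  exact fun k hk => lift_of_inj hn' hF gp (h2 (k + 2) (by omega))

/-- restriction is injective on `EE θ (k + 1)` if `EE θ k` vanishes -/
theorem res_inj {θ : F2 (n + 1)} (gp : ∃ i j, rs2 θ i j ≠ 0) {k : ℕ}
    (h0 : Module.finrank ℂ (EE θ k) = 0) {ξ : F1 (n + 1)} (hξ : ξ ∈ EE θ (k + 1))
    (hr : ∀ i, res ξ i = 0) : ξ = 0 := by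
  have := finite_EE θ k
  obtain ⟨η, hη, h1⟩ := EE_ker gp hξ hr
  have h2 := ls_zero h0 hη
  funext i
  rw [h1, h2]
  simp

/-- equal dimensions and injectivity: everything lifts -/
theorem liftAt_of_finrank {θ : F2 (n + 1)} (gp : ∃ i j, rs2 θ i j ≠ 0) {k : ℕ}
    (h0 : Module.finrank ℂ (EE θ k) = 0)
    (h : Module.finrank ℂ (EE θ (k + 1)) = Module.finrank ℂ (EE (rs2 θ) (k + 1))) :
    LiftAt θ (k + 1) := by
  have i1 := finite_EE θ (k + 1)
  have i2 := finite_EE (rs2 θ) (k + 1)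
  have hinj : Function.Injective (ls_resE θ (k + 1)) := by
    rw [injective_iff_map_eq_zero]
    intro a ha
    apply Subtype.ext
    exact res_inj gp h0 a.2 (fun i => congrFun (congrArg Subtype.val ha) i)
  have hsur := (LinearMap.injective_iff_surjective_of_finrank_eq_finrank h).1 hinj
  intro ζ hζ
  obtain ⟨ξ, hξ⟩ := hsur ⟨ζ, hζ⟩
  exact ⟨ξ.1, ξ.2, fun i => congrFun (congrArg Subtype.val hξ) i⟩

theorem liftAt_of_zero {θ : F2 (n + 1)} {k : ℕ} (h : Module.finrank ℂ (EE (rs2 θ) k) = 0) :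
    LiftAt θ k := by
  have i2 := finite_EE (rs2 θ) k
  intro ζ hζ
  have h1 := ls_zero h hζ
  refine ⟨0, (EE θ k).zero_mem, fun i => ?_⟩
  rw [h1]
  show at0 n ℂ 0 = 0
  exact map_zero _

/-- `E_0 = 0` and `E_1 = 0` pass from the section to `θ` -/
theorem finrank_EE_zero_of_rs {θ : F2 (n + 1)} (gp : ∃ i j, rs2 θ i j ≠ 0) {k : ℕ}
    (h : ∀ l ≤ k, Module.finrank ℂ (EE (rs2 θ) l) = 0) :
    ∀ l ≤ k, Module.finrank ℂ (EE θ l) = 0 := by
  have key : ∀ l ≤ k, ∀ ξ ∈ EE θ l, ξ = 0 := by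
    intro l
    induction l with
    | zero =>
      intro hl ξ hξ
      have i2 := finite_EE (rs2 θ) 0
      have h1 := ls_zero (h 0 hl) (res_mem_EE hξ)
      exact EE_ker0 gp hξ (fun i => congrFun h1 i)
    | succ l ih =>
      intro hl ξ hξ
      have i2 := finite_EE (rs2 θ) (l + 1)
      have h1 := ls_zero (h _ hl) (res_mem_EE hξ)
      obtain ⟨η, hη, h2⟩ := EE_ker gp hξ (fun i => congrFun h1 i)
      have h3 := ih (by omega) η hη
      funext i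
      rw [h2, h3]
      simp
  intro l hl
  have h1 : EE θ l = ⊥ := by
    rw [eq_bot_iff]
    intro ξ hξ
    exact (Submodule.mem_bot ℂ).2 (key l hl ξ hξ)
  rw [h1, finrank_bot]

/-- `E_(k+1)` does not grow if `E_k = 0` -/
theorem finrank_EE_le_rs {θ : F2 (n + 1)} (gp : ∃ i j, rs2 θ i j ≠ 0) {k : ℕ}
    (h0 : Module.finrank ℂ (EE θ k) = 0) :
    Module.finrank ℂ (EE θ (k + 1)) ≤ Module.finrank ℂ (EE (rs2 θ) (k + 1)) := by
  have i1 := finite_EE θ (k + 1)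
  have i2 := finite_EE (rs2 θ) (k + 1)
  have hinj : Function.Injective (ls_resE θ (k + 1)) := by
    rw [injective_iff_map_eq_zero]
    intro a ha
    apply Subtype.ext
    exact res_inj gp h0 a.2 (fun i => congrFun (congrArg Subtype.val ha) i)
  exact LinearMap.finrank_le_finrank_of_injective hinj

/-- `M` in small degrees: `M[d]` injects into `M_H[d]` as long as `M[d-1] = 0` -/
theorem mM_zero_of_rs {θ : F2 (n + 1)} (hn : 3 ≤ n) (hF : Fol θ) (gp : GP θ) {d : ℕ}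
    (h : ∀ e ≤ d, mM (rs2 θ) e = 0) : ∀ e ≤ d, mM θ e = 0 := by
  intro e
  induction e with
  | zero =>
    intro he
    have h1 := count_M0 hn hF.hom hF.dec gp.prim gp.hz
    have h2 := h 0 he
    omega
  | succ e ih =>
    intro he
    have h1 := count_M hn hF.hom hF.dec gp.prim gp.hz e
    have h2 := h (e + 1) he
    have h3 := ih (by omega)
    omega

end Pool.Agent.Helper57.SC
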