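import Pool.Agent.Helper57.SC.IY6
import Pool.Agent.Helper57.SC.LemS

/-! SC-16 (project FOL, case Y): reduction of `n ≥ 6` to `n = 5`: general restrictions to five variables are in case Y.
`G m d` = generic value of `e_d` for sections of dimension `m`.  If `G 5 2 ≠ 0` then `G m 2 ≠ 0` for all `m ≥ 5`:
`G 3 2 ≤ 2`: there is an equality step among the dimensions 3, 4, 5, `lemmaS`; `G 3 2 ≥ 3`: `three_H`, `lift_two`. -/

set_option autoImplicit false

namespace Pool.Agent.Helper57.SC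

open MvPolynomial
open scoped BigOperators
open Pool.Agent.Helper71.FL (w12 pf ct Dec Closed dd res)
open Pool.Agent.Helper71.FC
open Pool.Agent.Helper93 (lsub lmap OF pb)
open Pool.Agent.Helper18.LB

/-- sections of dimension `m` have `e_d = G m d`, `d ≤ 2` -/
def qG (G : ℕ → ℕ → ℕ) (m : ℕ) (θ : F2 m) : Prop :=
  ∀ d ≤ 2, Module.finrank ℂ (EE θ d) = G m d

private theorem iyn_nz {n : ℕ} {θ : F2 (n + 1)} (h : GP θ) : ∃ i j, rs2 θ i j ≠ 0 := by
  by_contra hcon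
  push Not at hcon
  have := h.prim 0 (fun i j => by rw [hcon])
  exact not_isUnit_zero this

private theorem flag_fol {q : (m : ℕ) → F2 m → Prop} : ∀ (n : ℕ) (θ : F2 (n + 3)), Flag q n θ → Fol θ
  | 0, _, h => h.1
  | _ + 1, _, h => h.1

private theorem flag_q {q : (m : ℕ) → F2 m → Prop} : ∀ (n : ℕ) (θ : F2 (n + 3)), Flag q n θ →
    q (n + 3) θ
  | 0, _, h => h.2
  | _ + 1, _, h => h.2.1

private theorem flag_small {G : ℕ → ℕ → ℕ} (h0 : G 3 0 = 0) (h1 : G 3 1 = 0) :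
    ∀ (n : ℕ) (θ : F2 (n + 3)), Flag (qG G) n θ → ∀ l ≤ 1, Module.finrank ℂ (EE θ l) = 0 := by
  intro n
  induction n with
  | zero =>
    intro θ h l hl
    have hP : qG G 3 θ := h.2
    rw [hP l (by omega)]
    interval_cases l
    · exact h0
    · exact h1
  | succ n ih =>
    intro θ h
    exact finrank_EE_zero_of_rs (iyn_nz h.2.2.1) (ih (rs2 θ) h.2.2.2)

private theorem flag_pos {n : ℕ} {θ : F2 (n + 1)} {k : ℕ} (hl : LiftAt θ k)
    (h : Module.finrank ℂ (EE (rs2 θ) k) ≠ 0) : Module.finrank ℂ (EE θ k) ≠ 0 := by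
  intro h0
  apply h
  have := finite_EE θ k
  have hbot : EE θ k = ⊥ := Submodule.finrank_eq_zero.mp h0
  have hb2 : EE (rs2 θ) k = ⊥ := by
    rw [eq_bot_iff]
    intro ζ hζ
    obtain ⟨ξ, hξ, hr⟩ := hl ζ hζ
    rw [hbot] at hξ
    have hξ0 : ξ = 0 := (Submodule.mem_bot ℂ).1 hξ
    rw [Submodule.mem_bot]
    funext i
    rw [← hr i, hξ0]
    exact map_zero _
  rw [hb2, finrank_bot]

/-- an equality step -/
private theorem step_lift {G : ℕ → ℕ → ℕ} (h0 : G 3 0 = 0) (h1 : G 3 1 = 0) (n : ℕ)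
    {θ : F2 (n + 4)} (h : Flag (qG G) (n + 1) θ)
    (he : Module.finrank ℂ (EE θ 2) = Module.finrank ℂ (EE (rs2 θ) 2)) : ∀ k ≤ 2, LiftAt θ k := by
  have gp : GP θ := h.2.2.1
  have hH : Flag (qG G) n (rs2 θ) := h.2.2.2
  have hs := flag_small h0 h1 (n + 1) θ h
  have hsH := flag_small h0 h1 n (rs2 θ) hH
  intro k hk
  interval_cases k
  · exact liftAt_of_zero (hsH 0 (by omega))
  · exact liftAt_of_zero (hsH 1 le_rfl)
  · exact liftAt_of_finrank (iyn_nz gp) (hs 1 le_rfl) he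

private theorem flag_lift {G : ℕ → ℕ → ℕ} (h0 : G 3 0 = 0) (h1 : G 3 1 = 0) (h3 : G 3 2 ≤ 2)
    (h5 : G 5 2 ≠ 0) : ∀ (n : ℕ) (θ : F2 (n + 5)), Flag (qG G) (n + 2) θ →
    ∀ k ≤ 2, LiftAt θ k := by
  intro n
  induction n with
  | zero =>
    intro θ h
    have hF : Fol θ := h.1
    have gp : GP θ := h.2.2.1
    have hH : Flag (qG G) 1 (rs2 θ) := h.2.2.2
    have gpH : GP (rs2 θ) := hH.2.2.1
    have hP : Flag (qG G) 0 (rs2 (rs2 θ)) := hH.2.2.2
    have a5 : Module.finrank ℂ (EE θ 2) = G 5 2 := flag_q 2 θ h 2 le_rfl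
    have a4 : Module.finrank ℂ (EE (rs2 θ) 2) = G 4 2 := flag_q 1 _ hH 2 le_rfl
    have a3 : Module.finrank ℂ (EE (rs2 (rs2 θ)) 2) = G 3 2 := flag_q 0 _ hP 2 le_rfl
    have b5 : Module.finrank ℂ (EE θ 2) ≤ Module.finrank ℂ (EE (rs2 θ) 2) :=
      finrank_EE_le_rs (iyn_nz gp) (flag_small h0 h1 2 θ h 1 le_rfl)
    have b4 : Module.finrank ℂ (EE (rs2 θ) 2) ≤ Module.finrank ℂ (EE (rs2 (rs2 θ)) 2) :=
      finrank_EE_le_rs (iyn_nz gpH) (flag_small h0 h1 1 _ hH 1 le_rfl)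
    by_cases he : Module.finrank ℂ (EE (rs2 θ) 2) = Module.finrank ℂ (EE (rs2 (rs2 θ)) 2)
    · exact lemmaS (n := 3) le_rfl hF gp gpH (step_lift h0 h1 0 hH he)
    · have he5 : Module.finrank ℂ (EE θ 2) = Module.finrank ℂ (EE (rs2 θ) 2) := by omega
      exact step_lift h0 h1 1 h he5
  | succ n ih =>
    intro θ h
    have hF : Fol θ := h.1
    have gp : GP θ := h.2.2.1
    have hH : Flag (qG G) (n + 2) (rs2 θ) := h.2.2.2
    have gpH : GP (rs2 θ) := hH.2.2.1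
    exact lemmaS (n := n + 4) (by omega) hF gp gpH (ih (rs2 θ) hH)

private theorem flag_two {G : ℕ → ℕ → ℕ} (h0 : G 3 0 = 0) (h1 : G 3 1 = 0) (h3 : 3 ≤ G 3 2) :
    ∀ (n : ℕ) (θ : F2 (n + 4)), Flag (qG G) (n + 1) θ → 2 ≤ Module.finrank ℂ (EE θ 2) := by
  intro n
  induction n with
  | zero =>
    intro θ h
    have hF : Fol θ := h.1
    have gp : GP θ := h.2.2.1
    have hP : Flag (qG G) 0 (rs2 θ) := h.2.2.2
    have a3 : Module.finrank ℂ (EE (rs2 θ) 2) = G 3 2 := flag_q 0 _ hP 2 le_rfl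
    exact three_H hF hP.1 gp.hz (flag_small h0 h1 0 _ hP 0 (by omega))
      (flag_small h0 h1 0 _ hP 1 le_rfl) (by omega)
  | succ n ih =>
    intro θ h
    have hF : Fol θ := h.1
    have gp : GP θ := h.2.2.1
    have hH : Flag (qG G) (n + 1) (rs2 θ) := h.2.2.2
    have e1 : EE (rs2 θ) 1 = ⊥ := by
      have := finite_EE (rs2 θ) 1
      exact Submodule.finrank_eq_zero.mp (flag_small h0 h1 (n + 1) _ hH 1 le_rfl)
    exact lift_two (n := n + 4) (by omega) hF hH.1 gp.hz e1 (ih (rs2 θ) hH)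

/-- generic dimensions -/
theorem ge_five {n : ℕ} (hn : 5 ≤ n) {θ : F2 n} (hF : Fol θ) (h2 : Module.finrank ℂ (EE θ 2) = 0)
    (g0 : ge θ 3 0 = 0) (g1 : ge θ 3 1 = 0) : ge θ 5 0 = 0 ∧ ge θ 5 1 = 0 ∧ ge θ 5 2 = 0 := by
  obtain ⟨k, rfl⟩ : ∃ k, n = k + 5 := ⟨n - 5, by omega⟩
  have hq : ∀ m, 3 ≤ m → m ≤ k + 2 + 3 → GenM (fun φ : Fin (k + 2 + 3) → Fin m → ℂ =>
      qG (ge θ) m (pb2 φ θ)) := by
    intro m hm3 hm5
    refine (((ge_gen θ m 0).and (ge_gen θ m 1)).and (ge_gen θ m 2)).mono fun φ hφ => ?_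
    intro d hd
    interval_cases d
    · exact hφ.1.1
    · exact hφ.1.2
    · exact hφ.2
  have hinv : ∀ (m : ℕ) (θ' : F2 m) (g g' : Fin m → Fin m → ℂ), Fol θ' → Inv g g' →
      qG (ge θ) m θ' → qG (ge θ) m (pb2 g θ') := by
    intro m θ' g g' _ hg h d hd
    rw [finrank_EE_pb2 θ' d hg]
    exact h d hd
  obtain ⟨g, g', hg, hfl⟩ := exists_flag hinv (k + 2) θ hF hq
  -- the section of dimension 5
  have key : ∀ (j : ℕ) (θ' : F2 (j + 5)), Flag (qG (ge θ)) (j + 2) θ' →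
      ge θ 5 0 = 0 ∧ ge θ 5 1 = 0 := by
    intro j
    induction j with
    | zero =>
      intro θ' h
      have hs := flag_small g0 g1 2 θ' h
      have hq := flag_q 2 θ' h
      exact ⟨(hq 0 (by omega)).symm.trans (hs 0 (by omega)),
        (hq 1 (by omega)).symm.trans (hs 1 le_rfl)⟩
    | succ j ih =>
      intro θ' h
      exact ih (rs2 θ') h.2.2.2
  obtain ⟨k0, k1⟩ := key k _ hfl
  refine ⟨k0, k1, ?_⟩
  by_contra h5
  have htop : Module.finrank ℂ (EE (pb2 g θ) 2) = 0 := by rw [finrank_EE_pb2 θ 2 hg, h2]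
  rcases Nat.lt_or_ge (ge θ 3 2) 3 with h3 | h3
  · have pos : ∀ (j : ℕ) (θ' : F2 (j + 5)), Flag (qG (ge θ)) (j + 2) θ' →
        Module.finrank ℂ (EE θ' 2) ≠ 0 := by
      intro j
      induction j with
      | zero =>
        intro θ' h
        rw [flag_q 2 θ' h 2 le_rfl]
        exact h5
      | succ j ih =>
        intro θ' h
        exact flag_pos (flag_lift g0 g1 (by omega) h5 (j + 1) θ' h 2 le_rfl)
          (ih (rs2 θ') h.2.2.2)
    exact pos k _ hfl htop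
  · have := flag_two g0 g1 h3 (k + 1) _ hfl
    exact absurd (this.trans_eq htop) (by norm_num)

/-- 1-forms of degree 3 annihilated by `θ` are not lost on general subspaces of dimension `m` -/
def IYinG : Prop := ∀ (n m : ℕ), 3 ≤ m → m ≤ n → ∀ θ : F2 n, Fol θ → ge θ m 0 = 0 →
  ge θ m 1 = 0 → ge θ m 2 = 0 → GenM (fun φ : Fin n → Fin m → ℂ => ∀ ξ ∈ EE θ 3, pb φ ξ = 0 → ξ = 0)

theorem IYN_of (hgl : IYgl) (hin : IYinG) : IYN := by
  intro n hn θ hY
  obtain ⟨g0, g1⟩ := hgl n (by omega) θ hY.fol hY.nc hY.e0 hY.e1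
  obtain ⟨a0, a1, a2⟩ := ge_five (by omega) hY.fol (by rw [hY.e2, finrank_bot]) g0 g1
  refine ((((((ge_gen θ 5 0).and (ge_gen θ 5 1)).and (ge_gen θ 5 2)).and
    (Fol_gen (m := 5) (by norm_num) (by omega) hY.fol)).and (GenM.inj (n := n) (m := 5) (by omega))).and
      (hin n 5 (by norm_num) (by omega) θ hY.fol a0 a1 a2)).mono fun φ hφ => ?_
  obtain ⟨⟨⟨⟨⟨c0, c1⟩, c2⟩, cF⟩, cinj⟩, cin⟩ := hφ
  refine ⟨cF, ?_, ?_, ?_, ?_⟩
  · rintro ⟨v, hv, hc⟩
    have h1 : pb φ (av θ (lmap φ v)) = 0 := by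
      rw [← av_pb2]
      funext j
      exact hc j
    have h2 := cin _ (av_mem_EE hY.fol.dec hY.fol.hom _) h1
    apply hY.nc
    refine ⟨lmap φ v, fun h3 => hv (cinj ?_), fun j => congrFun h2 j⟩
    rw [h3]
    funext i
    simp [lmap]
  · have := finite_EE (pb2 φ θ) 0
    exact Submodule.finrank_eq_zero.mp (c0.trans a0)
  · have := finite_EE (pb2 φ θ) 1
    exact Submodule.finrank_eq_zero.mp (c1.trans a1)
  · have := finite_EE (pb2 φ θ) 2
    exact Submodule.finrank_eq_zero.mp (c2.trans a2)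

end Pool.Agent.Helper57.SC
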