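import Pool.Agent.Helper57.SC.IY5
import Pool.Agent.Helper57.SC.IYN
import Pool.Agent.Helper53.TK.In

/-! SC-17 (project FOL, case Y): assembly: `IY` from the gluing statement, `z = 3`, `z = 4` and LEMMA X. -/

set_option autoImplicit false

namespace Pool.Agent.Helper57.SC

open Pool.Agent.Helper71.FC

theorem IYN_of' (hgl : IYgl) : IYN := IYN_of hgl Pool.Agent.Helper53.TK.IYinG

/-- `IY` modulo `IYgl`, `IY3`, `IY4` and LEMMA X -/
theorem IY_all (hgl : IYgl) (h3 : IY3) (h4 : IY4) (hX : LemmaX) : IY :=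
  Pool.Agent.Helper53.TK.IY_of' hgl h3 h4 (IY5_of hX) IY6_of (IYN_of' hgl)

end Pool.Agent.Helper57.SC
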