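import Pool.Agent.Helper57.SC.LemS
import Pool.Agent.Helper57.SC.Ann

/-! SC-8 (project FOL, case Y, z = 5): the plane type `e_2(P) = 2` (`z = 5`) and what is needed of it.
`XE θ k`: the products `X i * ξ`, `ξ ∈ EE θ k`, inside the 1-forms of degree `k + 1`.

* `XE_le`: products of elements of `EE θ k` with linear forms are in `EE θ (k + 1)`.
* `exists_av`: for `v, w ∈ ℂ^3`: `w11 (av θ v) (av θ w) = θ(v, w) θ` up to sign (`Dec θ` is automatic in three variables; compute, or use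
  `i_v θ ∧ i_w θ = θ(v,w) θ` for decomposable `θ`).  If all `av θ v` were in `XE θ 2` then `w11 (av θ v) (av θ w)` would be `m * f * θ` (bilinearity and `Pl5.wedge`), so
  `θ(v, w) = ± m f` for all `v, w` (`θ ≠ 0`, the polynomial ring is a domain); `m` divides all coefficients of `θ`, against `Fol.prim` (`m` is a non zero linear form,
  not a unit). -/

set_option autoImplicit false

namespace Pool.Agent.Helper57.SC

open MvPolynomial
open scoped BigOperators
open Pool.Agent.Helper71.FL (w12 pf ct Dec Closed dd res)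
open Pool.Agent.Helper71.FC
open Pool.Agent.Helper93 (lsub lmap OF pb)

variable {n : ℕ}

/-- the products of the elements of `EE θ k` with linear forms -/
noncomputable def XE (θ : F2 n) (k : ℕ) : Submodule ℂ (F1 n) :=
  Submodule.span ℂ {η | ∃ (i : Fin n) (ξ : F1 n), ξ ∈ EE θ k ∧ ∀ j, η j = X i * ξ j}

theorem XE_le (θ : F2 n) (k : ℕ) : XE θ k ≤ EE θ (k + 1) := by
  unfold XE
  rw [Submodule.span_le]
  rintro η ⟨i, ξ, hξ, hη⟩
  have h0 : η = fun j => X i * ξ j := funext hη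
  subst h0
  refine ⟨fun j => ?_, fun a b c => ?_⟩
  · have h1 := (isHomogeneous_X ℂ i).mul (hξ.1 j)
    rwa [add_comm 1 k] at h1
  · rw [Pool.Agent.Helper71.FL.w12_smul, hξ.2, mul_zero]

/-- plane type with `z = 5`: `E` has generators of degrees 2, 2, 3 and one relation of degree 4 with coefficients
two quadrics and a linear form -/
structure Pl5 (θ : F2 3) : Prop where
  e0 : Module.finrank ℂ (EE θ 0) = 0
  e1 : Module.finrank ℂ (EE θ 1) = 0
  e2 : Module.finrank ℂ (EE θ 2) = 2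
  e3 : Module.finrank ℂ (EE θ 3) = 7
  gen3 : ∃ τ ∈ EE θ 3, EE θ 3 ≤ XE θ 2 ⊔ Submodule.span ℂ {τ}
  gen : ∀ k, 3 ≤ k → EE θ (k + 1) ≤ XE θ k
  wedge : ∃ m : Pn 3, m.IsHomogeneous 1 ∧ m ≠ 0 ∧ ∀ σ ∈ EE θ 2, ∀ σ' ∈ EE θ 2, ∃ c : ℂ,
    ∀ i j, w11 σ σ' i j = C c * m * θ i j
  m0 : mM θ 0 = 0
  m1 : mM θ 1 = 0
  m2 : mM θ 2 ≤ 1
  m3 : mM θ 3 ≤ 2
  m4 : mM θ 4 ≤ 1
  m5 : ∀ d, 5 ≤ d → mM θ d = 0

private theorem pl_w11_add {α β γ : F1 n} (i j : Fin n) :
    w11 (α + β) γ i j = w11 α γ i j + w11 β γ i j := by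
  unfold w11
  simp only [Pi.add_apply]
  ring

private theorem pl_w11_smul {α γ : F1 n} (c : ℂ) (i j : Fin n) :
    w11 (c • α) γ i j = C c * w11 α γ i j := by
  unfold w11
  simp only [Pi.smul_apply, smul_eq_C_mul]
  ring

private theorem pl_w11_anti {α γ : F1 n} (i j : Fin n) : w11 α γ i j = - w11 γ α i j := by
  unfold w11
  ring

/-- products of two members of `XE θ 2` -/
private theorem pl_wedge {θ : F2 3} {m : Pn 3}
    (h : ∀ σ ∈ EE θ 2, ∀ σ' ∈ EE θ 2, ∃ c : ℂ, ∀ i j, w11 σ σ' i j = C c * m * θ i j)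
    {x y : F1 3} (hx : x ∈ XE θ 2) (hy : y ∈ XE θ 2) :
    ∃ f : Pn 3, ∀ i j, w11 x y i j = m * f * θ i j := by
  have h1 : ∀ (a : Fin 3) (σ : F1 3), σ ∈ EE θ 2 → ∀ y ∈ XE θ 2,
      ∃ f : Pn 3, ∀ i j, w11 y (fun l => X a * σ l) i j = m * f * θ i j := by
    intro a σ hσ y hy
    unfold XE at hy
    induction hy using Submodule.span_induction with
    | mem η hη =>
      obtain ⟨b, σ', hσ', h2⟩ := hη
      obtain ⟨c, hc⟩ := h σ' hσ' σ hσ
      refine ⟨C c * (X a * X b), fun i j => ?_⟩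
      have h3 := hc i j
      unfold w11 at h3 ⊢
      rw [h2, h2]
      linear_combination (X a * X b : Pn 3) * h3
    | zero =>
      refine ⟨0, fun i j => ?_⟩
      unfold w11
      simp
    | add u v _ _ hu hv =>
      obtain ⟨f, hf⟩ := hu
      obtain ⟨f', hf'⟩ := hv
      refine ⟨f + f', fun i j => ?_⟩
      rw [pl_w11_add, hf, hf']
      ring
    | smul c u _ hu =>
      obtain ⟨f, hf⟩ := hu
      refine ⟨C c * f, fun i j => ?_⟩
      rw [pl_w11_smul, hf]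
      ring
  unfold XE at hx
  induction hx using Submodule.span_induction with
  | mem η hη =>
    obtain ⟨b, σ', hσ', h2⟩ := hη
    obtain ⟨f, hf⟩ := h1 b σ' hσ' y hy
    refine ⟨-f, fun i j => ?_⟩
    have h3 : η = fun l => X b * σ' l := funext h2
    rw [h3, pl_w11_anti, hf]
    ring
  | zero =>
    refine ⟨0, fun i j => ?_⟩
    unfold w11
    simp
  | add u v _ _ hu hv =>
    obtain ⟨f, hf⟩ := hu
    obtain ⟨f', hf'⟩ := hv
    refine ⟨f + f', fun i j => ?_⟩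
    rw [pl_w11_add, hf, hf']
    ring
  | smul c u _ hu =>
    obtain ⟨f, hf⟩ := hu
    refine ⟨C c * f, fun i j => ?_⟩
    rw [pl_w11_smul, hf]
    ring

theorem exists_av {θ : F2 3} (hF : Fol θ) (hP : Pl5 θ) : ∃ v : Fin 3 → ℂ, av θ v ∉ XE θ 2 := by
  by_contra hcon
  push Not at hcon
  obtain ⟨m, hm, hm0, hw⟩ := hP.wedge
  have hav : ∀ a j : Fin 3, av θ (Pi.single a 1) j = θ a j := by
    intro a j
    show ∑ i, C ((Pi.single a (1 : ℂ) : Fin 3 → ℂ) i) * θ i j = θ a j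
    rw [Finset.sum_eq_single a]
    · rw [Pi.single_eq_same, C_1, one_mul]
    · intro b _ hb
      rw [Pi.single_eq_of_ne hb, C_0, zero_mul]
    · intro h; exact absurd (Finset.mem_univ _) h
  have hnz : ∃ i j, θ i j ≠ 0 := by
    by_contra h0
    push Not at h0
    exact not_isUnit_zero (hF.prim 0 (fun i j => by rw [h0]))
  obtain ⟨i, j, hij⟩ := hnz
  have hdvd : ∀ a b, m ∣ θ a b := by
    intro a b
    obtain ⟨f, hf⟩ := pl_wedge hw (hcon (Pi.single a 1)) (hcon (Pi.single b 1))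
    have h1 := hf i j
    have h2 := hF.dec.2.2 a b i j
    unfold w11 at h1
    rw [hav, hav, hav, hav] at h1
    unfold pf at h2
    refine ⟨f, mul_right_cancel₀ hij ?_⟩
    linear_combination h1 + h2
  have hu := hF.prim m hdvd
  have h3 : m.totalDegree = 1 := hm.totalDegree hm0
  obtain ⟨m', hm'⟩ := hu.exists_right_inv
  have hm'0 : m' ≠ 0 := by
    rintro rfl
    rw [mul_zero] at hm'
    exact zero_ne_one hm'
  have h4 := totalDegree_mul_of_isDomain hm0 hm'0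
  rw [hm', totalDegree_one, h3] at h4
  omega

/-! ### coordinate changes -/

private noncomputable def pl_pb3 {m : ℕ} (φ : Fin n → Fin m → ℂ) (b : F3 n) : F3 m :=
  fun i j l => ∑ a, ∑ c, ∑ e, C (φ a i * φ c j * φ e l) * lsub φ (b a c e)

private theorem pl_pb3_eq {m : ℕ} (φ : Fin n → Fin m → ℂ) (b : F3 n) (i j l : Fin m) :
    pl_pb3 φ b i j l = ∑ a, C (φ a i) * pb2 φ (b a) j l := by
  unfold pl_pb3 pb2
  refine Finset.sum_congr rfl fun a _ => ?_
  rw [Finset.mul_sum]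
  refine Finset.sum_congr rfl fun c _ => ?_
  rw [Finset.mul_sum]
  refine Finset.sum_congr rfl fun e _ => ?_
  rw [← mul_assoc, ← C_mul, mul_assoc]

private theorem pl_lsub_C {m : ℕ} (φ : Fin n → Fin m → ℂ) (c : ℂ) : lsub φ (C c) = C c := by
  unfold lsub
  rw [aeval_C]
  rfl

private theorem pl_pb2_sum {m : ℕ} (φ : Fin n → Fin m → ℂ) {α : Type} (s : Finset α)
    (t : α → F2 n) (c : α → ℂ) (i j : Fin m) :
    pb2 φ (fun k l => ∑ a ∈ s, C (c a) * t a k l) i j = ∑ a ∈ s, C (c a) * pb2 φ (t a) i j := by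
  unfold pb2
  simp only [map_sum, map_mul, pl_lsub_C, Finset.mul_sum]
  conv_rhs => rw [Finset.sum_comm]
  refine Finset.sum_congr rfl fun k _ => ?_
  conv_rhs => rw [Finset.sum_comm]
  refine Finset.sum_congr rfl fun l _ => Finset.sum_congr rfl fun a _ => ?_
  ring

private theorem pl_pb3_mm {m k : ℕ} (φ : Fin n → Fin m → ℂ) (ψ : Fin m → Fin k → ℂ) (b : F3 n) :
    pl_pb3 ψ (pl_pb3 φ b) = pl_pb3 (mm φ ψ) b := by
  funext i j l
  have h1 : ∀ a, pb2 ψ (pl_pb3 φ b a) j l = ∑ a', C (φ a' a) * pb2 (mm φ ψ) (b a') j l := by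
    intro a
    have h2 : pl_pb3 φ b a = fun c e => ∑ a', C (φ a' a) * pb2 φ (b a') c e := by
      funext c e
      exact pl_pb3_eq φ b a c e
    rw [h2, pl_pb2_sum ψ Finset.univ (fun a' => pb2 φ (b a')) (fun a' => φ a' a)]
    refine Finset.sum_congr rfl fun a' _ => ?_
    rw [pb2_mm]
  rw [pl_pb3_eq, pl_pb3_eq]
  simp only [h1, Finset.mul_sum]
  rw [Finset.sum_comm]
  refine Finset.sum_congr rfl fun a' _ => ?_
  unfold mm
  rw [map_sum, Finset.sum_mul]
  refine Finset.sum_congr rfl fun a _ => ?_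
  rw [C_mul]
  ring

private theorem pl_pb3_idm (b : F3 n) : pl_pb3 (idm n) b = b := by
  funext i j l
  rw [pl_pb3_eq]
  simp only [pb2_idm]
  rw [Finset.sum_eq_single i]
  · simp [idm]
  · intro a _ ha
    simp [idm, ha]
  · intro h; exact absurd (Finset.mem_univ _) h

private theorem pl_pb3_mul {m : ℕ} (φ : Fin n → Fin m → ℂ) (f : Pn n) (b : F3 n) :
    pl_pb3 φ (fun i j k => f * b i j k) = fun i j k => lsub φ f * pl_pb3 φ b i j k := by
  funext i j k
  unfold pl_pb3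
  simp only [map_mul, Finset.mul_sum]
  refine Finset.sum_congr rfl fun a _ => Finset.sum_congr rfl fun c _ =>
    Finset.sum_congr rfl fun e _ => ?_
  ring

private noncomputable def pl_pb3L {m : ℕ} (φ : Fin n → Fin m → ℂ) : F3 n →ₗ[ℂ] F3 m where
  toFun := pl_pb3 φ
  map_add' := by
    intro a b
    funext i j k
    show pl_pb3 φ (a + b) i j k = pl_pb3 φ a i j k + pl_pb3 φ b i j k
    unfold pl_pb3
    simp only [Pi.add_apply, map_add, mul_add, Finset.sum_add_distrib]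
  map_smul' := by
    intro c a
    have h : (c • a : F3 n) = fun i j k => C c * a i j k := by
      funext i j k
      show c • a i j k = _
      rw [smul_eq_C_mul]
    rw [h, pl_pb3_mul]
    funext i j k
    show lsub φ (C c) * pl_pb3 φ a i j k = c • pl_pb3 φ a i j k
    rw [pl_lsub_C, smul_eq_C_mul]

private theorem pl_back {θ : F2 n} {g g' : Fin n → Fin n → ℂ} (hg : Inv g g') :
    pb2 g' (pb2 g θ) = θ := by
  rw [pb2_mm, hg.1, pb2_idm]

private theorem pl_isBsat {θ : F2 n} {b : F3 n} (hb : IsBsat θ b) {g g' : Fin n → Fin n → ℂ}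
    (hg : Inv g g') : IsBsat (pb2 g θ) (pl_pb3 g b) := by
  obtain ⟨K, hK⟩ := hb
  refine ⟨K, fun f hf => ?_⟩
  have h1 : lsub g (lsub g' f) = f := by
    rw [lsub_mm, hg.2, lsub_idm]
  have h2 : IsB (pb2 g θ) (pl_pb3 g (fun i j k => lsub g' f * b i j k)) :=
    IsB_pb (hK (lsub g' f) (lsub_hom hf)) g
  rw [pl_pb3_mul, h1] at h2
  exact h2

private theorem pl_pb3_hom {m : ℕ} {φ : Fin n → Fin m → ℂ} {b : F3 n} {d : ℕ}
    (h : ∀ i j k, (b i j k).IsHomogeneous d) (i j k : Fin m) :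
    (pl_pb3 φ b i j k).IsHomogeneous d := by
  unfold pl_pb3
  refine IsHomogeneous.sum _ _ _ fun a _ => IsHomogeneous.sum _ _ _ fun c _ =>
    IsHomogeneous.sum _ _ _ fun e _ => ?_
  have := (isHomogeneous_C (Fin m) (φ a i * φ c j * φ e k)).mul (lsub_hom (φ := φ) (h a c e))
  rwa [zero_add] at this

private theorem pl_inj {g g' : Fin n → Fin n → ℂ} (hg : Inv g g') :
    Function.Injective (pl_pb3L g : F3 n →ₗ[ℂ] F3 n) := by
  intro a b hab
  have h1 : pl_pb3 g' (pl_pb3 g a) = pl_pb3 g' (pl_pb3 g b) := congrArg (pl_pb3 g') hab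
  rwa [pl_pb3_mm, pl_pb3_mm, hg.1, pl_pb3_idm, pl_pb3_idm] at h1

/-- `dim M[d]` is invariant under coordinate changes -/
private theorem pl_mM (θ : F2 n) (d : ℕ) {g g' : Fin n → Fin n → ℂ} (hg : Inv g g') :
    mM (pb2 g θ) d = mM θ d := by
  have hr : ∀ b : F3 n, pl_pb3 g (pl_pb3 g' b) = b := by
    intro b
    rw [pl_pb3_mm, hg.2, pl_pb3_idm]
  have h1 : BS (pb2 g θ) d = (BS θ d).map (pl_pb3L g) := by
    apply le_antisymm
    · intro b hb
      refine ⟨pl_pb3 g' b, ⟨pl_pb3_hom hb.1, ?_⟩, hr b⟩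
      have h2 := pl_isBsat hb.2 hg.symm
      rwa [pl_back hg] at h2
    · rintro _ ⟨b, hb, rfl⟩
      exact ⟨pl_pb3_hom hb.1, pl_isBsat hb.2 hg⟩
  have h2 : BB (pb2 g θ) d = (BB θ d).map (pl_pb3L g) := by
    apply le_antisymm
    · intro b hb
      refine ⟨pl_pb3 g' b, ⟨pl_pb3_hom hb.1, ?_⟩, hr b⟩
      have h2 : IsB (pb2 g' (pb2 g θ)) (pl_pb3 g' b) := IsB_pb hb.2 g'
      rwa [pl_back hg] at h2
    · rintro _ ⟨b, hb, rfl⟩
      exact ⟨pl_pb3_hom hb.1, IsB_pb hb.2 g⟩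
  unfold mM
  rw [h1, h2, (Submodule.equivMapOfInjective _ (pl_inj hg) (BS θ d)).finrank_eq.symm,
    (Submodule.equivMapOfInjective _ (pl_inj hg) (BB θ d)).finrank_eq.symm]

private noncomputable def pl_pbL (g : Fin n → Fin n → ℂ) : F1 n →ₗ[ℂ] F1 n where
  toFun := pb g
  map_add' := fun a b => pb_add g a b
  map_smul' := fun c a => by
    have h1 := pb_smul g (C c) a
    funext i
    have h2 := congrFun h1 i
    have h3 : (fun j => C c * a j) = (c • a : F1 n) := by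
      funext j
      rw [Pi.smul_apply, smul_eq_C_mul]
    rw [h3, pl_lsub_C] at h2
    show pb g (c • a) i = (c • pb g a) i
    rw [h2, Pi.smul_apply, smul_eq_C_mul]

private theorem pl_XE {θ : F2 n} {k : ℕ} {g : Fin n → Fin n → ℂ} {ξ : F1 n} (h : ξ ∈ XE θ k) :
    pl_pbL g ξ ∈ XE (pb2 g θ) k := by
  unfold XE at h
  induction h using Submodule.span_induction with
  | mem η hη =>
    obtain ⟨i, σ, hσ, h2⟩ := hη
    have h3 : pl_pbL g η = ∑ l, g i l • (fun j => X l * pb g σ j) := by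
      have h4 : η = fun j => X i * σ j := funext h2
      have h5 : lsub g (X i) = ∑ l, C (g i l) * X l := by
        unfold lsub
        rw [aeval_X]
      show pb g η = _
      rw [h4, pb_smul, h5]
      funext j
      rw [Finset.sum_apply, Finset.sum_mul]
      refine Finset.sum_congr rfl fun l _ => ?_
      rw [Pi.smul_apply, smul_eq_C_mul, mul_assoc]
    rw [h3]
    refine Submodule.sum_mem _ fun l _ => Submodule.smul_mem _ _ (Submodule.subset_span ?_)
    exact ⟨l, pb g σ, EE_pb hσ g, fun j => rfl⟩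
  | zero => rw [map_zero]; exact Submodule.zero_mem _
  | add u v _ _ hu hv => rw [map_add]; exact Submodule.add_mem _ hu hv
  | smul c u _ hu => rw [map_smul]; exact Submodule.smul_mem _ _ hu

/-- the type is invariant under coordinate changes -/
theorem Pl5_pb2 {θ : F2 3} (hF : Fol θ) (hP : Pl5 θ) {g g' : Fin 3 → Fin 3 → ℂ} (hg : Inv g g') :
    Pl5 (pb2 g θ) := by
  have hback : ∀ {k : ℕ} {ξ : F1 3}, ξ ∈ EE (pb2 g θ) k → pb g' ξ ∈ EE θ k := by
    intro k ξ hξ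
    have h1 := EE_pb hξ g'
    rwa [pl_back hg] at h1
  have hgg : ∀ ξ : F1 3, pl_pbL g (pb g' ξ) = ξ := by
    intro ξ
    show pb g (pb g' ξ) = ξ
    rw [pb_mm, hg.2, pb_idm]
  obtain ⟨τ, hτ, h3⟩ := hP.gen3
  obtain ⟨m, hm, hm0, hw⟩ := hP.wedge
  refine ⟨by rw [finrank_EE_pb2 θ 0 hg, hP.e0], by rw [finrank_EE_pb2 θ 1 hg, hP.e1],
    by rw [finrank_EE_pb2 θ 2 hg, hP.e2], by rw [finrank_EE_pb2 θ 3 hg, hP.e3],
    ⟨pb g τ, EE_pb hτ g, fun ξ hξ => ?_⟩, fun k hk ξ hξ => ?_,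
    ⟨lsub g m, lsub_hom hm, fun h0 => hm0 ?_, fun σ hσ σ' hσ' => ?_⟩,
    by rw [pl_mM θ 0 hg, hP.m0], by rw [pl_mM θ 1 hg, hP.m1],
    by rw [pl_mM θ 2 hg]; exact hP.m2, by rw [pl_mM θ 3 hg]; exact hP.m3,
    by rw [pl_mM θ 4 hg]; exact hP.m4, fun d hd => by rw [pl_mM θ d hg]; exact hP.m5 d hd⟩
  · obtain ⟨x, hx, y, hy, hxy⟩ := Submodule.mem_sup.1 (h3 (hback hξ))
    obtain ⟨c, rfl⟩ := Submodule.mem_span_singleton.1 hy
    rw [← hgg ξ, ← hxy, map_add, map_smul]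
    exact Submodule.add_mem_sup (pl_XE hx)
      (Submodule.smul_mem _ _ (Submodule.mem_span_singleton_self _))
  · rw [← hgg ξ]
    exact pl_XE (hP.gen k hk (hback hξ))
  · have h4 : lsub g' (lsub g m) = m := by
      rw [lsub_mm, hg.1, lsub_idm]
    rw [← h4, h0, map_zero]
  · obtain ⟨c, hc⟩ := hw _ (hback hσ) _ (hback hσ')
    refine ⟨c, fun i j => ?_⟩
    have h5 : w11 (pb g (pb g' σ)) (pb g (pb g' σ')) = pb2 g (w11 (pb g' σ) (pb g' σ')) :=
      (pb2_w11 g _ _).symm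
    have h6 : pb g (pb g' σ) = σ := hgg σ
    have h7 : pb g (pb g' σ') = σ' := hgg σ'
    rw [h6, h7] at h5
    have h8 : w11 (pb g' σ) (pb g' σ') = fun i j => C c * m * θ i j := by
      funext i j
      exact hc i j
    rw [h5, h8, pb2_smul, map_mul, pl_lsub_C]

end Pool.Agent.Helper57.SC
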