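import Pool.Agent.Helper57.SC.Socle
import Pool.Agent.Helper71.FC.SatH
import Pool.Agent.Helper71.FC.Rest

/-! SC-3 (project FOL, case Y): the graded space `M = B^sat/B` inside `Q = (3-forms)/B`, the action of the linear forms, and the maximal rank
property of `x_0` (`mr`).  The statements with `BS`, `IsB` are translations of `Socle.lean` (no quotients).

`MQ θ d` is the image of `BS θ d` in `Qm θ`; `m ∈ MQ θ d ↔ ∃ b ∈ BS θ d, m = [b]`; `[b] = 0 ↔ IsB θ b`; `actQ θ a [b] = [lf a * b]`,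
`(actQ θ e0)^k [b] = [X 0 ^ k * b]`.
* `mul_mem_BS`: homogeneous of degree `d + 1`; saturation is stable under multiplication (`IsBsat.smul`).
* `finrank_MQ`: `MQ θ d ≃ BS θ d / BB θ d` (`b ∈ BS θ d` has `IsB θ b` iff `b ∈ BB θ d`).
* `mr_pb2`: `b ↦` pull back of the 3-form `b` by `g` (`IsB_pb`, `Inv`) is an isomorphism `Qm θ ≃ Qm (pb2 g θ)` that maps `MQ` onto `MQ` and carries
  `lf a` to `lsub g (lf a)`; `lsub g (lf (g' 0)) = X 0` because `Σ_k g' 0 k g k l = δ_0l`; `lsub g (lf a)` runs through all linear forms.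
* `mr_gen`: by `BS_large` only finitely many pairs `(k, d)` matter (if `MQ θ d = 0` or `MQ θ (d + k) = 0` both sides are `0`); for each of them choose bases
  of `MQ θ d`, `MQ θ (d + k)`: the matrix of `(actQ θ a)^k` has entries which are polynomials in `a`; `gen_maxrank`; take the product of the `F`s.
* `mr_genM`: `mr_pb2`, and `g' 0 = (det g)^(-1) *` (row 0 of the adjugate of `g`): `F(det g * g' 0) ≠ 0` (take `F` homogeneous, or note that `MaxRk` is
  invariant under scaling of `z`), the composite of `F` with the adjugate row is a non zero polynomial in the entries of `g` (compare `hz_genM` in `FC/SatH`). -/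

set_option autoImplicit false

namespace Pool.Agent.Helper57.SC

open MvPolynomial
open scoped BigOperators
open Pool.Agent.Helper71.FL (w12 pf ct Dec Closed dd)
open Pool.Agent.Helper71.FC

variable {n : ℕ}

/-- the multiples of `θ` in the space of all 3-forms -/
def Bsub (θ : F2 n) : Submodule ℂ (F3 n) where
  carrier := {b | IsB θ b}
  add_mem' := by
    intro a b h1 h2
    exact h1.add h2
  zero_mem' := by
    refine ⟨fun _ => 0, fun i j k => ?_⟩
    simp [w12]
  smul_mem' := by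
    intro c a h
    obtain ⟨e, he⟩ := h.smul (C c)
    refine ⟨e, fun i j k => ?_⟩
    rw [← he]
    show c • a i j k = C c * a i j k
    rw [smul_eq_C_mul]

theorem mem_Bsub {θ : F2 n} {b : F3 n} : b ∈ Bsub θ ↔ IsB θ b := Iff.rfl

/-- 3-forms modulo multiples of `θ` -/
abbrev Qm (θ : F2 n) : Type := F3 n ⧸ Bsub θ

/-- multiplication of 3-forms by a polynomial -/
noncomputable def mul3 (f : Pn n) : F3 n →ₗ[ℂ] F3 n where
  toFun b := fun i j k => f * b i j k
  map_add' := by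
    intro a b
    funext i j k
    exact mul_add _ _ _
  map_smul' := by
    intro c a
    funext i j k
    show f * (c • a i j k) = c • (f * a i j k)
    rw [mul_smul_comm]

/-- multiplication by a polynomial on the quotient -/
noncomputable def mulQ (θ : F2 n) (f : Pn n) : Module.End ℂ (Qm θ) :=
  (Bsub θ).mapQ (Bsub θ) (mul3 f) (fun _ hb => IsB.smul hb f)

theorem mulQ_mk (θ : F2 n) (f : Pn n) (b : F3 n) :
    mulQ θ f ((Bsub θ).mkQ b) = (Bsub θ).mkQ (fun i j k => f * b i j k) := rfl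

theorem mkQ_eq_zero {θ : F2 n} {b : F3 n} : (Bsub θ).mkQ b = 0 ↔ IsB θ b := by
  rw [Submodule.mkQ_apply, Submodule.Quotient.mk_eq_zero]
  exact mem_Bsub

/-- the action of linear forms -/
noncomputable def actQ (θ : F2 n) : (Fin n → ℂ) →ₗ[ℂ] Module.End ℂ (Qm θ) where
  toFun a := mulQ θ (lf a)
  map_add' := by
    intro a a'
    apply LinearMap.ext
    intro q
    obtain ⟨b, rfl⟩ := (Bsub θ).mkQ_surjective q
    rw [LinearMap.add_apply, mulQ_mk, mulQ_mk, mulQ_mk, ← map_add]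
    refine congrArg (Bsub θ).mkQ ?_
    funext i j k
    show lf (a + a') * b i j k = lf a * b i j k + lf a' * b i j k
    unfold lf
    rw [← add_mul, ← Finset.sum_add_distrib]
    refine congrArg (· * b i j k) ?_
    apply Finset.sum_congr rfl
    intro l _
    rw [Pi.add_apply, C_add]
    ring
  map_smul' := by
    intro c a
    apply LinearMap.ext
    intro q
    obtain ⟨b, rfl⟩ := (Bsub θ).mkQ_surjective q
    rw [RingHom.id_apply, LinearMap.smul_apply, mulQ_mk, mulQ_mk, ← map_smul]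
    refine congrArg (Bsub θ).mkQ ?_
    funext i j k
    show lf (c • a) * b i j k = c • (lf a * b i j k)
    unfold lf
    rw [smul_eq_C_mul, ← mul_assoc, Finset.mul_sum]
    refine congrArg (· * b i j k) ?_
    apply Finset.sum_congr rfl
    intro l _
    rw [Pi.smul_apply, smul_eq_mul, C_mul]
    ring

theorem actQ_mk (θ : F2 n) (a : Fin n → ℂ) (b : F3 n) :
    actQ θ a ((Bsub θ).mkQ b) = (Bsub θ).mkQ (fun i j k => lf a * b i j k) := rfl

/-- `M[d]` as a subspace of the quotient -/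
noncomputable def MQ (θ : F2 n) (d : ℕ) : Submodule ℂ (Qm θ) := (BS θ d).map (Bsub θ).mkQ

theorem mem_MQ {θ : F2 n} {d : ℕ} {q : Qm θ} : q ∈ MQ θ d ↔ ∃ b ∈ BS θ d, (Bsub θ).mkQ b = q :=
  Iff.rfl

/-- coefficient vector of `X 0` -/
def e0 (n : ℕ) : Fin (n + 1) → ℂ := fun i => if i = 0 then 1 else 0

theorem lf_e0 (n : ℕ) : (lf (e0 n) : Pn (n + 1)) = X 0 := by
  unfold lf e0
  rw [Finset.sum_eq_single 0]
  · simp
  · intro b _ hb
    simp [hb]
  · intro h
    exact absurd (Finset.mem_univ _) h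

private theorem qm_mkQ_eq {θ : F2 n} {b b' : F3 n} :
    (Bsub θ).mkQ b = (Bsub θ).mkQ b' ↔ IsB θ (fun i j k => b i j k - b' i j k) := by
  rw [← sub_eq_zero, ← map_sub, mkQ_eq_zero]
  exact Iff.rfl

theorem actQ_e0_pow (θ : F2 (n + 1)) (k : ℕ) (b : F3 (n + 1)) :
    ((actQ θ (e0 n)) ^ k) ((Bsub θ).mkQ b) = (Bsub θ).mkQ (fun i j l => X 0 ^ k * b i j l) := by
  induction k with
  | zero =>
    rw [pow_zero]
    show (Bsub θ).mkQ b = _
    refine congrArg (Bsub θ).mkQ ?_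
    funext i j l
    rw [pow_zero, one_mul]
  | succ k ih =>
    rw [pow_succ', Module.End.mul_apply, ih, actQ_mk, lf_e0]
    refine congrArg (Bsub θ).mkQ ?_
    funext i j l
    rw [← mul_assoc, ← pow_succ']

private theorem qm_lf_hom (a : Fin n → ℂ) : (lf a : Pn n).IsHomogeneous 1 := by
  unfold lf
  refine IsHomogeneous.sum _ _ _ fun i _ => ?_
  have := (isHomogeneous_C (Fin n) (a i)).mul (isHomogeneous_X ℂ i)
  rwa [zero_add] at this

theorem mul_mem_BS {θ : F2 n} {d : ℕ} {b : F3 n} (hb : b ∈ BS θ d) (a : Fin n → ℂ) :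
    (fun i j k => lf a * b i j k) ∈ BS θ (d + 1) := by
  refine ⟨fun i j k => ?_, hb.2.smul (lf a)⟩
  have := (qm_lf_hom a).mul (hb.1 i j k)
  rwa [add_comm 1 d] at this

theorem grAct (θ : F2 n) : GrAct (actQ θ) (MQ θ) := by
  refine ⟨fun d => ?_, fun w w' q => ?_, fun w d m hm => ?_⟩
  · have := finite_BS θ d
    unfold MQ
    infer_instance
  · obtain ⟨b, rfl⟩ := (Bsub θ).mkQ_surjective q
    rw [actQ_mk, actQ_mk, actQ_mk, actQ_mk]
    refine congrArg (Bsub θ).mkQ ?_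
    funext i j k
    ring
  · obtain ⟨b, hb, rfl⟩ := hm
    exact ⟨_, mul_mem_BS hb w, rfl⟩

private theorem qm_fr_map {V W : Type} [AddCommGroup V] [Module ℂ V] [AddCommGroup W] [Module ℂ W]
    (f : V →ₗ[ℂ] W) (p : Submodule ℂ V) [FiniteDimensional ℂ p] :
    Module.finrank ℂ (p.map f) + Module.finrank ℂ (p ⊓ LinearMap.ker f : Submodule ℂ V) =
      Module.finrank ℂ p := by
  have h1 := LinearMap.finrank_range_add_finrank_ker (f.domRestrict p)
  rw [LinearMap.range_domRestrict, LinearMap.ker_domRestrict] at h1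
  have h2 : Module.finrank ℂ ((LinearMap.ker f).comap p.subtype) =
      Module.finrank ℂ (p ⊓ LinearMap.ker f : Submodule ℂ V) := by
    rw [← Submodule.map_comap_subtype, Submodule.finrank_map_subtype_eq]
  rw [← h2]
  exact h1

theorem finrank_MQ (θ : F2 n) (d : ℕ) : Module.finrank ℂ (MQ θ d) = mM θ d := by
  have := finite_BS θ d
  have h1 := qm_fr_map (Bsub θ).mkQ (BS θ d)
  have h2 : BS θ d ⊓ LinearMap.ker (Bsub θ).mkQ = BB θ d := by
    rw [Submodule.ker_mkQ]
    ext b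
    exact ⟨fun h => ⟨h.1.1, h.2⟩, fun h => ⟨BB_le_BS θ d h, h.2⟩⟩
  rw [h2] at h1
  exact Nat.eq_sub_of_add_eq h1

/-- `x_0` and all its powers have maximal rank on `M` -/
def mr (θ : F2 (n + 1)) : Prop := MaxRk (actQ θ) (MQ θ) (e0 n)

/-! ### coordinate changes -/

open Pool.Agent.Helper93 (lsub)

private noncomputable def qm_pb3 {m : ℕ} (φ : Fin n → Fin m → ℂ) (b : F3 n) : F3 m :=
  fun i j l => ∑ a, ∑ c, ∑ e, C (φ a i * φ c j * φ e l) * lsub φ (b a c e)

private theorem qm_pb3_eq {m : ℕ} (φ : Fin n → Fin m → ℂ) (b : F3 n) (i j l : Fin m) :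
    qm_pb3 φ b i j l = ∑ a, C (φ a i) * pb2 φ (b a) j l := by
  unfold qm_pb3 pb2
  refine Finset.sum_congr rfl fun a _ => ?_
  rw [Finset.mul_sum]
  refine Finset.sum_congr rfl fun c _ => ?_
  rw [Finset.mul_sum]
  refine Finset.sum_congr rfl fun e _ => ?_
  rw [← mul_assoc, ← C_mul, mul_assoc]

private theorem qm_lsub_C {m : ℕ} (φ : Fin n → Fin m → ℂ) (c : ℂ) : lsub φ (C c) = C c := by
  unfold lsub
  rw [aeval_C]
  rfl

private theorem qm_pb2_sum {m : ℕ} (φ : Fin n → Fin m → ℂ) {α : Type} (s : Finset α)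
    (t : α → F2 n) (c : α → ℂ) (i j : Fin m) :
    pb2 φ (fun k l => ∑ a ∈ s, C (c a) * t a k l) i j = ∑ a ∈ s, C (c a) * pb2 φ (t a) i j := by
  unfold pb2
  simp only [map_sum, map_mul, qm_lsub_C, Finset.mul_sum]
  conv_rhs => rw [Finset.sum_comm]
  refine Finset.sum_congr rfl fun k _ => ?_
  conv_rhs => rw [Finset.sum_comm]
  refine Finset.sum_congr rfl fun l _ => Finset.sum_congr rfl fun a _ => ?_
  ring

private theorem qm_pb3_mm {m k : ℕ} (φ : Fin n → Fin m → ℂ) (ψ : Fin m → Fin k → ℂ) (b : F3 n) :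
    qm_pb3 ψ (qm_pb3 φ b) = qm_pb3 (mm φ ψ) b := by
  funext i j l
  have h1 : ∀ a, pb2 ψ (qm_pb3 φ b a) j l = ∑ a', C (φ a' a) * pb2 (mm φ ψ) (b a') j l := by
    intro a
    have h2 : qm_pb3 φ b a = fun c e => ∑ a', C (φ a' a) * pb2 φ (b a') c e := by
      funext c e
      exact qm_pb3_eq φ b a c e
    rw [h2, qm_pb2_sum ψ Finset.univ (fun a' => pb2 φ (b a')) (fun a' => φ a' a)]
    refine Finset.sum_congr rfl fun a' _ => ?_
    rw [pb2_mm]
  rw [qm_pb3_eq, qm_pb3_eq]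
  simp only [h1, Finset.mul_sum]
  rw [Finset.sum_comm]
  refine Finset.sum_congr rfl fun a' _ => ?_
  unfold mm
  rw [map_sum, Finset.sum_mul]
  refine Finset.sum_congr rfl fun a _ => ?_
  rw [C_mul]
  ring

private theorem qm_pb3_idm (b : F3 n) : qm_pb3 (idm n) b = b := by
  funext i j l
  rw [qm_pb3_eq]
  simp only [pb2_idm]
  rw [Finset.sum_eq_single i]
  · simp [idm]
  · intro a _ ha
    simp [idm, ha]
  · intro h; exact absurd (Finset.mem_univ _) h

private theorem qm_pb3_mul {m : ℕ} (φ : Fin n → Fin m → ℂ) (f : Pn n) (b : F3 n) :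
    qm_pb3 φ (fun i j k => f * b i j k) = fun i j k => lsub φ f * qm_pb3 φ b i j k := by
  funext i j k
  unfold qm_pb3
  simp only [map_mul, Finset.mul_sum]
  refine Finset.sum_congr rfl fun a _ => Finset.sum_congr rfl fun c _ =>
    Finset.sum_congr rfl fun e _ => ?_
  ring

private noncomputable def qm_pb3L {m : ℕ} (φ : Fin n → Fin m → ℂ) : F3 n →ₗ[ℂ] F3 m where
  toFun := qm_pb3 φ
  map_add' := by
    intro a b
    funext i j k
    show qm_pb3 φ (a + b) i j k = qm_pb3 φ a i j k + qm_pb3 φ b i j k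
    unfold qm_pb3
    simp only [Pi.add_apply, map_add, mul_add, Finset.sum_add_distrib]
  map_smul' := by
    intro c a
    have h : (c • a : F3 n) = fun i j k => C c * a i j k := by
      funext i j k
      show c • a i j k = _
      rw [smul_eq_C_mul]
    rw [h, qm_pb3_mul]
    funext i j k
    show lsub φ (C c) * qm_pb3 φ a i j k = c • qm_pb3 φ a i j k
    rw [qm_lsub_C, smul_eq_C_mul]

private theorem qm_isB {m : ℕ} {θ : F2 n} {b : F3 n} (h : IsB θ b) (φ : Fin n → Fin m → ℂ) :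
    IsB (pb2 φ θ) (qm_pb3 φ b) := IsB_pb h φ

private theorem qm_isBsat {θ : F2 n} {b : F3 n} (hb : IsBsat θ b) {g g' : Fin n → Fin n → ℂ}
    (hg : Inv g g') : IsBsat (pb2 g θ) (qm_pb3 g b) := by
  obtain ⟨K, hK⟩ := hb
  refine ⟨K, fun f hf => ?_⟩
  have h1 : lsub g (lsub g' f) = f := by
    rw [lsub_mm, hg.2, lsub_idm]
  have h2 := qm_isB (hK (lsub g' f) (lsub_hom hf)) g
  rw [qm_pb3_mul, h1] at h2
  exact h2

private theorem qm_pb3_hom {m : ℕ} {φ : Fin n → Fin m → ℂ} {b : F3 n} {d : ℕ}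
    (h : ∀ i j k, (b i j k).IsHomogeneous d) (i j k : Fin m) :
    (qm_pb3 φ b i j k).IsHomogeneous d := by
  unfold qm_pb3
  refine IsHomogeneous.sum _ _ _ fun a _ => IsHomogeneous.sum _ _ _ fun c _ =>
    IsHomogeneous.sum _ _ _ fun e _ => ?_
  have := (isHomogeneous_C (Fin m) (φ a i * φ c j * φ e k)).mul (lsub_hom (φ := φ) (h a c e))
  rwa [zero_add] at this

private theorem qm_back {θ : F2 n} {g g' : Fin n → Fin n → ℂ} (hg : Inv g g') :
    pb2 g' (pb2 g θ) = θ := by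
  rw [pb2_mm, hg.1, pb2_idm]

private theorem qm_isB_iff {θ : F2 n} {b : F3 n} {g g' : Fin n → Fin n → ℂ} (hg : Inv g g') :
    IsB (pb2 g θ) (qm_pb3 g b) ↔ IsB θ b := by
  refine ⟨fun h => ?_, fun h => qm_isB h g⟩
  have h1 := qm_isB h g'
  rwa [qm_back hg, qm_pb3_mm, hg.1, qm_pb3_idm] at h1

/-- the isomorphism of the quotients given by a change of coordinates -/
private noncomputable def qm_Phi (θ : F2 n) (g : Fin n → Fin n → ℂ) : Qm θ →ₗ[ℂ] Qm (pb2 g θ) :=
  (Bsub θ).mapQ (Bsub (pb2 g θ)) (qm_pb3L g) (fun _ hb => qm_isB hb g)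

private theorem qm_Phi_mk (θ : F2 n) (g : Fin n → Fin n → ℂ) (b : F3 n) :
    qm_Phi θ g ((Bsub θ).mkQ b) = (Bsub (pb2 g θ)).mkQ (qm_pb3 g b) := rfl

private theorem qm_Phi_inj (θ : F2 n) {g g' : Fin n → Fin n → ℂ} (hg : Inv g g') :
    Function.Injective (qm_Phi θ g) := by
  rw [injective_iff_map_eq_zero]
  intro q hq
  obtain ⟨b, rfl⟩ := (Bsub θ).mkQ_surjective q
  rw [qm_Phi_mk, mkQ_eq_zero, qm_isB_iff hg] at hq
  exact mkQ_eq_zero.2 hq

private theorem qm_lsub_lf (g : Fin n → Fin n → ℂ) (a : Fin n → ℂ) :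
    lsub g (lf a) = lf (fun l => ∑ k, a k * g k l) := by
  unfold lf lsub
  simp only [map_sum, map_mul, aeval_C, aeval_X, algebraMap_eq, Finset.mul_sum, Finset.sum_mul]
  rw [Finset.sum_comm]
  refine Finset.sum_congr rfl fun l _ => Finset.sum_congr rfl fun k _ => ?_
  ring

private theorem qm_Phi_act (θ : F2 n) (g : Fin n → Fin n → ℂ) (a : Fin n → ℂ) (q : Qm θ) :
    qm_Phi θ g (actQ θ a q) = actQ (pb2 g θ) (fun l => ∑ k, a k * g k l) (qm_Phi θ g q) := by
  obtain ⟨b, rfl⟩ := (Bsub θ).mkQ_surjective q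
  rw [actQ_mk, qm_Phi_mk, qm_Phi_mk, actQ_mk, qm_pb3_mul, qm_lsub_lf]

private theorem qm_Phi_pow (θ : F2 n) (g : Fin n → Fin n → ℂ) (a : Fin n → ℂ) (k : ℕ) (q : Qm θ) :
    qm_Phi θ g (((actQ θ a) ^ k) q) =
      ((actQ (pb2 g θ) (fun l => ∑ k, a k * g k l)) ^ k) (qm_Phi θ g q) := by
  induction k with
  | zero => rfl
  | succ k ih =>
    rw [pow_succ', Module.End.mul_apply, qm_Phi_act, ih, pow_succ', Module.End.mul_apply]

private theorem qm_Phi_MQ (θ : F2 n) {g g' : Fin n → Fin n → ℂ} (hg : Inv g g') (d : ℕ) :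
    (MQ θ d).map (qm_Phi θ g) = MQ (pb2 g θ) d := by
  apply le_antisymm
  · rintro _ ⟨_, ⟨b, hb, rfl⟩, rfl⟩
    exact ⟨qm_pb3 g b, ⟨qm_pb3_hom hb.1, qm_isBsat hb.2 hg⟩, rfl⟩
  · rintro _ ⟨b, hb, rfl⟩
    refine ⟨(Bsub θ).mkQ (qm_pb3 g' b), ⟨qm_pb3 g' b, ⟨qm_pb3_hom hb.1, ?_⟩, rfl⟩, ?_⟩
    · have := qm_isBsat hb.2 hg.symm
      rwa [qm_back hg] at this
    · rw [qm_Phi_mk, qm_pb3_mm, hg.2, qm_pb3_idm]

private theorem qm_finrank_transport (θ : F2 n) {g g' : Fin n → Fin n → ℂ} (hg : Inv g g')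
    (k d : ℕ) (a : Fin n → ℂ) :
    Module.finrank ℂ ((MQ (pb2 g θ) d).map
      ((actQ (pb2 g θ) (fun l => ∑ k, a k * g k l)) ^ k)) =
    Module.finrank ℂ ((MQ θ d).map ((actQ θ a) ^ k)) := by
  rw [← qm_Phi_MQ θ hg d, ← Submodule.map_comp]
  have h1 : ((actQ (pb2 g θ) (fun l => ∑ k, a k * g k l)) ^ k) ∘ₗ (qm_Phi θ g) =
      (qm_Phi θ g) ∘ₗ ((actQ θ a) ^ k) := by
    apply LinearMap.ext
    intro q
    exact (qm_Phi_pow θ g a k q).symm
  rw [h1, Submodule.map_comp]
  exact (Submodule.equivMapOfInjective _ (qm_Phi_inj θ hg) _).finrank_eq.symm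

theorem mr_pb2 {θ : F2 (n + 1)} {g g' : Fin (n + 1) → Fin (n + 1) → ℂ} (hg : Inv g g') :
    mr (pb2 g θ) ↔ MaxRk (actQ θ) (MQ θ) (g' 0) := by
  have h0 : (fun l => ∑ k, g' 0 k * g k l) = e0 n := by
    funext l
    have h1 := congrFun (congrFun hg.2 0) l
    unfold mm idm at h1
    rw [h1]
    unfold e0
    simp only [eq_comm]
  constructor
  · intro h k d w
    have h1 := h k d (fun l => ∑ k, w k * g k l)
    rw [qm_finrank_transport θ hg, ← h0, qm_finrank_transport θ hg] at h1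
    exact h1
  · intro h k d w
    have h1 := h k d (fun l => ∑ k, w k * g' k l)
    rw [← qm_finrank_transport θ hg, ← qm_finrank_transport θ hg k d (g' 0), h0] at h1
    have h2 : (fun l => ∑ k, (∑ j, w j * g' j k) * g k l) = w := by
      funext l
      have h3 : ∀ j, ∑ k, g' j k * g k l = if j = l then 1 else 0 := by
        intro j
        have h4 := congrFun (congrFun hg.2 j) l
        unfold mm idm at h4
        exact h4
      simp only [Finset.sum_mul]
      rw [Finset.sum_comm]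
      have h5 : ∀ j, ∑ k, w j * g' j k * g k l = w j * (if j = l then 1 else 0) := by
        intro j
        rw [← h3 j, Finset.mul_sum]
        exact Finset.sum_congr rfl fun k _ => by ring
      simp only [h5]
      simp
    rw [h2] at h1
    exact h1

private theorem qm_pow_mem (θ : F2 n) (a : Fin n → ℂ) (k d : ℕ) {m : Qm θ} (hm : m ∈ MQ θ d) :
    ((actQ θ a) ^ k) m ∈ MQ θ (d + k) := by
  induction k with
  | zero => exact hm
  | succ k ih =>
    rw [pow_succ', Module.End.mul_apply]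
    exact (grAct θ).deg a (d + k) _ ih

/-- the values of a power of a linear form are polynomial in the coefficients -/
private theorem qm_poly (θ : F2 n) (k : ℕ) (u : Qm θ) :
    ∃ (N : ℕ) (P : Fin N → Pn n) (v : Fin N → Qm θ), ∀ a : Fin n → ℂ,
      ((actQ θ a) ^ k) u = ∑ s, (eval a (P s)) • v s := by
  induction k with
  | zero =>
    refine ⟨1, fun _ => 1, fun _ => u, fun a => ?_⟩
    simp
  | succ k ih =>
    obtain ⟨N, P, v, h⟩ := ih
    have hb : ∀ a : Fin n → ℂ, ∀ q, actQ θ a q = ∑ i, a i • actQ θ (Pi.single i 1) q := by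
      intro a q
      have h1 : a = ∑ i, a i • (Pi.single i (1 : ℂ) : Fin n → ℂ) := by
        funext j
        rw [Finset.sum_apply, Finset.sum_eq_single j]
        · simp
        · intro i _ hi
          simp [Pi.single_eq_of_ne hi.symm]
        · intro h; exact absurd (Finset.mem_univ _) h
      conv_lhs => rw [h1]
      rw [map_sum, LinearMap.sum_apply]
      refine Finset.sum_congr rfl fun i _ => ?_
      rw [map_smul, LinearMap.smul_apply]
    let e := (finProdFinEquiv : Fin N × Fin n ≃ Fin (N * n)).symm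
    refine ⟨N * n, fun s => X (e s).2 * P (e s).1,
      fun s => actQ θ (Pi.single (e s).2 1) (v (e s).1), fun a => ?_⟩
    rw [pow_succ', Module.End.mul_apply, h, map_sum,
      ← Equiv.sum_comp (finProdFinEquiv : Fin N × Fin n ≃ Fin (N * n)), Fintype.sum_prod_type]
    refine Finset.sum_congr rfl fun s _ => ?_
    rw [map_smul, hb, Finset.smul_sum]
    refine Finset.sum_congr rfl fun i _ => ?_
    simp only [e, Equiv.symm_apply_apply, map_mul, eval_X]
    rw [smul_smul, mul_comm]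

private theorem qm_gen_one (θ : F2 n) (k d : ℕ) :
    ∃ F : Pn n, F ≠ 0 ∧ ∀ a : Fin n → ℂ, eval a F ≠ 0 → ∀ w : Fin n → ℂ,
      Module.finrank ℂ ((MQ θ d).map ((actQ θ w) ^ k)) ≤
        Module.finrank ℂ ((MQ θ d).map ((actQ θ a) ^ k)) := by
  classical
  have i1 := (grAct θ).fin d
  have i2 := (grAct θ).fin (d + k)
  let bq := Module.finBasis ℂ (MQ θ d)
  let bp := Module.finBasis ℂ (MQ θ (d + k))
  obtain ⟨c, hc⟩ := LinearMap.exists_extend
    (bp.equivFun : MQ θ (d + k) →ₗ[ℂ] (Fin (Module.finrank ℂ (MQ θ (d + k))) → ℂ))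
  have hc' : ∀ m : MQ θ (d + k), c m.1 = bp.equivFun m := fun m => by
    rw [← LinearEquiv.coe_coe, ← hc]
    rfl
  choose N P v hP using fun j => qm_poly θ k (bq j : Qm θ)
  let A : Matrix (Fin (Module.finrank ℂ (MQ θ (d + k)))) (Fin (Module.finrank ℂ (MQ θ d))) (Pn n) :=
    fun i j => ∑ s, C (c (v j s) i) * P j s
  obtain ⟨F, hF0, hF⟩ := gen_maxrank A
  have hrank : ∀ a : Fin n → ℂ, (A.map (eval a)).rank =
      Module.finrank ℂ ((MQ θ d).map ((actQ θ a) ^ k)) := by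
    intro a
    let L : MQ θ d →ₗ[ℂ] (Fin (Module.finrank ℂ (MQ θ (d + k))) → ℂ) :=
      c ∘ₗ ((actQ θ a) ^ k) ∘ₗ (MQ θ d).subtype
    have h1 : A.map (eval a) = LinearMap.toMatrix bq (Pi.basisFun ℂ _) L := by
      ext i j
      rw [LinearMap.toMatrix_apply, Pi.basisFun_repr]
      show eval a (∑ s, C (c (v j s) i) * P j s) = c (((actQ θ a) ^ k) (bq j : Qm θ)) i
      rw [hP j a, map_sum, map_sum, Finset.sum_apply]
      refine Finset.sum_congr rfl fun s _ => ?_
      rw [map_mul, eval_C, map_smul, Pi.smul_apply, smul_eq_mul, mul_comm]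
    rw [h1, Matrix.rank_eq_finrank_range_toLin _ (Pi.basisFun ℂ _) bq, Matrix.toLin_toMatrix]
    have h2 : LinearMap.range L = ((MQ θ d).map ((actQ θ a) ^ k)).map c := by
      ext y
      constructor
      · rintro ⟨x, rfl⟩
        exact ⟨_, ⟨x.1, x.2, rfl⟩, rfl⟩
      · rintro ⟨_, ⟨x, hx, rfl⟩, rfl⟩
        exact ⟨⟨x, hx⟩, rfl⟩
    rw [h2]
    have i3 : FiniteDimensional ℂ ((MQ θ d).map ((actQ θ a) ^ k)) := inferInstance
    have h3 := qm_fr_map c ((MQ θ d).map ((actQ θ a) ^ k))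
    have h4 : (MQ θ d).map ((actQ θ a) ^ k) ⊓ LinearMap.ker c = ⊥ := by
      rw [eq_bot_iff]
      rintro _ ⟨⟨x, hx, rfl⟩, hy⟩
      have h5 := hc' ⟨((actQ θ a) ^ k) x, qm_pow_mem θ a k d hx⟩
      have h6 : c (((actQ θ a) ^ k) x) = 0 := hy
      rw [h6] at h5
      have h7 := (LinearEquiv.map_eq_zero_iff bp.equivFun).1 h5.symm
      exact congrArg Subtype.val h7
    rw [h4, finrank_bot] at h3
    exact h3
  refine ⟨F, hF0, fun a ha w => ?_⟩
  rw [← hrank, ← hrank]
  exact hF a ha w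

theorem mr_gen {θ : F2 n} (hθ : ∀ i j, (θ i j).IsHomogeneous 3) :
    ∃ F : Pn n, F ≠ 0 ∧ ∀ a : Fin n → ℂ, eval a F ≠ 0 → MaxRk (actQ θ) (MQ θ) a := by
  classical
  obtain ⟨D, hD⟩ := BS_large hθ
  have hbot : ∀ d, D ≤ d → MQ θ d = ⊥ := by
    intro d hd
    rw [eq_bot_iff]
    rintro _ ⟨b, hb, rfl⟩
    exact mkQ_eq_zero.2 (hD d hd b hb)
  choose F hF0 hF using qm_gen_one θ
  refine ⟨∏ p ∈ Finset.range D ×ˢ Finset.range D, F p.1 p.2,
    Finset.prod_ne_zero_iff.2 fun p _ => hF0 _ _, fun a ha k d w => ?_⟩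
  by_cases hkd : d + k < D
  · refine hF k d a ?_ w
    intro h0
    apply ha
    rw [map_prod]
    exact Finset.prod_eq_zero (i := (k, d)) (Finset.mem_product.2
      ⟨Finset.mem_range.2 (by omega), Finset.mem_range.2 (by omega)⟩) h0
  · have h1 : (MQ θ d).map ((actQ θ w) ^ k) = ⊥ := by
      rw [eq_bot_iff]
      rintro _ ⟨x, hx, rfl⟩
      have h2 := qm_pow_mem θ w k d hx
      rwa [hbot (d + k) (by omega)] at h2
    rw [h1, finrank_bot]
    exact Nat.zero_le _

private theorem qm_maxRk_smul {θ : F2 n} {c : ℂ} (hc : c ≠ 0) {a : Fin n → ℂ}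
    (h : MaxRk (actQ θ) (MQ θ) (c • a)) : MaxRk (actQ θ) (MQ θ) a := by
  intro k d w
  have h1 := h k d w
  have h2 : (MQ θ d).map ((actQ θ (c • a)) ^ k) = (MQ θ d).map ((actQ θ a) ^ k) := by
    rw [map_smul, smul_pow]
    exact Submodule.map_smul _ _ _ (pow_ne_zero k hc)
  rwa [h2] at h1

private theorem qm_eval_smul {F : Pn n} {d : ℕ} (hF : F.IsHomogeneous d) (c : ℂ) (a : Fin n → ℂ) :
    eval (c • a) F = c ^ d * eval a F := by
  rw [eval_eq, eval_eq, Finset.mul_sum]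
  refine Finset.sum_congr rfl fun s hs => ?_
  have h1 : ∑ i ∈ s.support, s i = d := by
    have h2 : s.degree = d := by
      have := hF (mem_support_iff.1 hs)
      rw [Finsupp.degree_eq_weight_one]
      exact this
    exact h2
  simp only [Pi.smul_apply, smul_eq_mul, mul_pow]
  rw [Finset.prod_mul_distrib, Finset.prod_pow_eq_pow_sum, h1]
  ring

private theorem qm_gen_hom {θ : F2 n} (hθ : ∀ i j, (θ i j).IsHomogeneous 3) :
    ∃ F : Pn n, F ≠ 0 ∧
      (∃ d : ℕ, ∀ (c : ℂ) (a : Fin n → ℂ), eval (c • a) F = c ^ d * eval a F) ∧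
      ∀ a : Fin n → ℂ, eval a F ≠ 0 → MaxRk (actQ θ) (MQ θ) a := by
  obtain ⟨F, hF0, hF⟩ := mr_gen hθ
  obtain ⟨d, hd⟩ : ∃ d, homogeneousComponent d F ≠ 0 := by
    by_contra hcon
    push Not at hcon
    apply hF0
    rw [← sum_homogeneousComponent F]
    exact Finset.sum_eq_zero fun i _ => hcon i
  refine ⟨homogeneousComponent d F, hd, ⟨d, fun c a =>
    qm_eval_smul (homogeneousComponent_isHomogeneous d F) c a⟩, fun a ha => ?_⟩
  let p : Polynomial ℂ := ∑ i ∈ Finset.range (F.totalDegree + 1),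
    Polynomial.monomial i (eval a (homogeneousComponent i F))
  have hp : ∀ t : ℂ, p.eval t = eval (t • a) F := by
    intro t
    conv_rhs => rw [← sum_homogeneousComponent F]
    rw [map_sum, Polynomial.eval_finset_sum]
    refine Finset.sum_congr rfl fun i _ => ?_
    rw [Polynomial.eval_monomial, qm_eval_smul (homogeneousComponent_isHomogeneous i F), mul_comm]
  have hdle : d ∈ Finset.range (F.totalDegree + 1) := by
    rw [Finset.mem_range]
    by_contra hcon
    exact hd (homogeneousComponent_eq_zero _ _ (by omega))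
  have hp0 : p ≠ 0 := by
    intro h0
    apply ha
    have h1 := congrArg (fun q => Polynomial.coeff q d) h0
    simp only [p, Polynomial.finset_sum_coeff, Polynomial.coeff_monomial, Polynomial.coeff_zero,
      Finset.sum_ite_eq', if_pos hdle] at h1
    exact h1
  obtain ⟨t, ht⟩ : ∃ t : ℂ, (p * Polynomial.X).eval t ≠ 0 := by
    by_contra hcon
    push Not at hcon
    have h1 : p * Polynomial.X = 0 := Polynomial.funext fun t => by
      rw [hcon t, Polynomial.eval_zero]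
    exact mul_ne_zero hp0 Polynomial.X_ne_zero h1
  rw [Polynomial.eval_mul, Polynomial.eval_X, hp] at ht
  exact qm_maxRk_smul (right_ne_zero_of_mul ht) (hF _ (left_ne_zero_of_mul ht))

theorem mr_genM {θ : F2 (n + 1)} (hθ : ∀ i j, (θ i j).IsHomogeneous 3) :
    GenM (fun g : Fin (n + 1) → Fin (n + 1) → ℂ => mr (pb2 g θ)) := by
  classical
  obtain ⟨F, hF0, ⟨d, hFd⟩, hF⟩ := qm_gen_hom hθ
  have hadj : ∀ g g' : Matrix (Fin (n + 1)) (Fin (n + 1)) ℂ, g * g' = 1 →
      g.adjugate = g.det • g' := by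
    intro g g' h
    calc g.adjugate = g.adjugate * (g * g') := by rw [h, mul_one]
      _ = g.det • g' := by rw [← mul_assoc, Matrix.adjugate_mul, smul_mul_assoc, one_mul]
  let G : Matrix (Fin (n + 1)) (Fin (n + 1)) (MvPolynomial (Fin (n + 1) × Fin (n + 1)) ℂ) :=
    fun i j => X (i, j)
  let F' : MvPolynomial (Fin (n + 1) × Fin (n + 1)) ℂ := aeval (fun j => G.adjugate 0 j) F
  have hev : ∀ g : Fin (n + 1) → Fin (n + 1) → ℂ, eval (fun q => g q.1 q.2) F' =
      eval (fun j => (Matrix.of g).adjugate 0 j) F := by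
    intro g
    have h1 : (eval (fun q : Fin (n + 1) × Fin (n + 1) => g q.1 q.2)).mapMatrix G =
        Matrix.of g := by
      ext i j
      simp [G]
    have h2 : ∀ j, eval (fun q : Fin (n + 1) × Fin (n + 1) => g q.1 q.2) (G.adjugate 0 j) =
        (Matrix.of g).adjugate 0 j := by
      intro j
      rw [← h1, ← RingHom.map_adjugate]
      rfl
    show eval _ (aeval (fun j => G.adjugate 0 j) F) = _
    rw [aeval_def, ← coe_eval₂Hom, ← RingHom.comp_apply]
    have h3 : (eval (fun q : Fin (n + 1) × Fin (n + 1) => g q.1 q.2)).comp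
        (eval₂Hom (algebraMap ℂ (MvPolynomial (Fin (n + 1) × Fin (n + 1)) ℂ))
          (fun j => G.adjugate 0 j)) = eval (fun j => (Matrix.of g).adjugate 0 j) := by
      apply ringHom_ext
      · intro c
        simp
      · intro j
        simp [h2]
    rw [h3]
  have hF'0 : F' ≠ 0 := by
    intro hzero
    obtain ⟨a, ha⟩ : ∃ a : Fin (n + 1) → ℂ, eval a (F * X 0) ≠ 0 := by
      by_contra hcon
      push Not at hcon
      have : F * X 0 = 0 := by
        apply MvPolynomial.funext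
        intro x
        rw [hcon x, map_zero]
      exact mul_ne_zero hF0 (X_ne_zero 0) this
    rw [map_mul, eval_X] at ha
    let h : Matrix (Fin (n + 1)) (Fin (n + 1)) ℂ := fun i j =>
      if i = 0 then a j else if i = j then 1 else 0
    have hdet : h.det = a 0 := by
      have h1 : h.BlockTriangular id := by
        intro i j hij
        have h2 : i ≠ 0 := by
          rintro rfl
          exact absurd hij (Fin.not_lt_zero _)
        have h3 : i ≠ j := ne_of_gt hij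
        show (if i = 0 then a j else if i = j then (1 : ℂ) else 0) = 0
        rw [if_neg h2, if_neg h3]
      rw [Matrix.det_of_upperTriangular h1, Fin.prod_univ_succ]
      simp [h]
    have hunit : IsUnit h.det := by
      rw [hdet]
      exact (right_ne_zero_of_mul ha).isUnit
    have hgh : h⁻¹ * h = 1 := Matrix.nonsing_inv_mul h hunit
    have h5 := hev (h⁻¹ : Matrix (Fin (n + 1)) (Fin (n + 1)) ℂ)
    rw [hzero, map_zero] at h5
    have h6 : (fun j => (Matrix.of (h⁻¹ : Matrix (Fin (n + 1)) (Fin (n + 1)) ℂ)).adjugate 0 j) =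
        (h⁻¹).det • a := by
      funext j
      have h7 : (h⁻¹).adjugate = (h⁻¹).det • h := hadj _ _ hgh
      show (h⁻¹).adjugate 0 j = _
      rw [h7]
      show (h⁻¹).det * h 0 j = (h⁻¹).det * a j
      simp [h]
    rw [h6, hFd] at h5
    have h8 : (h⁻¹).det ≠ 0 := by
      intro h9
      have := congrArg Matrix.det hgh
      rw [Matrix.det_mul, h9, zero_mul, Matrix.det_one] at this
      exact zero_ne_one this
    exact mul_ne_zero (pow_ne_zero _ h8) (left_ne_zero_of_mul ha) h5.symm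
  have hG : GenM (fun g : Fin (n + 1) → Fin (n + 1) → ℂ =>
      eval (fun j => (Matrix.of g).adjugate 0 j) F ≠ 0) :=
    ⟨F', hF'0, fun g hg => by rwa [hev] at hg⟩
  refine (hG.and (GenM.inv (n + 1))).mono ?_
  rintro g ⟨h1, g', hg⟩
  have h2 : Matrix.of g * Matrix.of g' = 1 := by
    ext i j
    have := congrFun (congrFun hg.1 i) j
    rw [Matrix.mul_apply, Matrix.one_apply]
    exact this
  have h3 : (fun j => (Matrix.of g).adjugate 0 j) = (Matrix.of g).det • g' 0 := by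
    funext j
    rw [hadj _ _ h2]
    rfl
  rw [h3] at h1
  have h4 : (Matrix.of g).det ≠ 0 := by
    intro h9
    have := congrArg Matrix.det h2
    rw [Matrix.det_mul, h9, zero_mul, Matrix.det_one] at this
    exact zero_ne_one this
  exact (mr_pb2 hg).2 (qm_maxRk_smul h4 (hF _ h1))

/-- consequence of the rank lemma, without quotients -/
theorem mr_cons {θ : F2 (n + 1)} (h : mr θ) {k d : ℕ} {b : F3 (n + 1)} (hb : b ∈ BS θ d)
    (h0 : IsB θ (fun i j l => X 0 ^ (k + 1) * b i j l)) (a : Fin (n + 1) → ℂ) :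
    ∃ b' ∈ BS θ d, IsB θ (fun i j l =>
      C ((k : ℂ) + 1) * (X 0 ^ k * (lf a * b i j l)) - X 0 ^ (k + 1) * b' i j l) := by
  have h1 : ((actQ θ (e0 n)) ^ (k + 1)) ((Bsub θ).mkQ b) = 0 := by
    rw [actQ_e0_pow, mkQ_eq_zero]
    exact h0
  obtain ⟨_, ⟨b', hb', rfl⟩, h2⟩ := rank_cons (grAct θ) h k d ⟨b, hb, rfl⟩ h1 a
  refine ⟨b', hb', ?_⟩
  rw [actQ_mk, actQ_e0_pow, actQ_e0_pow, ← map_smul, qm_mkQ_eq] at h2
  have h3 : (fun i j l => (((k : ℂ) + 1) • (fun i j l => X 0 ^ k * (lf a * b i j l)) : F3 (n + 1)) i j l -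
      X 0 ^ (k + 1) * b' i j l) = fun i j l =>
      C ((k : ℂ) + 1) * (X 0 ^ k * (lf a * b i j l)) - X 0 ^ (k + 1) * b' i j l := by
    funext i j l
    show ((k : ℂ) + 1) • (X 0 ^ k * (lf a * b i j l)) - X 0 ^ (k + 1) * b' i j l = _
    rw [smul_eq_C_mul]
  rwa [h3] at h2

theorem mr_polar3 {θ : F2 (n + 1)} (h : mr θ) {d : ℕ}
    (h0 : ∀ b ∈ BS θ d, IsB θ (fun i j l => X 0 ^ 3 * b i j l)) {b : F3 (n + 1)} (hb : b ∈ BS θ d)
    (a a' a'' : Fin (n + 1) → ℂ) :
    IsB θ (fun i j l => lf a * (lf a' * (lf a'' * b i j l))) := by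
  have h1 : ∀ m ∈ MQ θ d, ((actQ θ (e0 n)) ^ 3) m = 0 := by
    rintro _ ⟨b1, hb1, rfl⟩
    rw [actQ_e0_pow, mkQ_eq_zero]
    exact h0 b1 hb1
  have h2 := polar3 (grAct θ) h h1 (m := (Bsub θ).mkQ b) ⟨b, hb, rfl⟩ a a' a''
  rw [actQ_mk, actQ_mk, actQ_mk, mkQ_eq_zero] at h2
  exact h2

/-- the socle lemma, without quotients -/
theorem socleBS {θ : F2 (n + 1)} (h : mr θ) (D : ℕ)
    (hs0 : ∀ b ∈ BS θ 0, (∀ a : Fin (n + 1) → ℂ, ∃ b' ∈ BS θ 0,
      IsB θ (fun i j l => lf a * b i j l - X 0 * b' i j l)) → IsB θ b)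
    (hs : ∀ d < D, ∀ b ∈ BS θ (d + 1), (∀ a : Fin (n + 1) → ℂ, ∃ b' ∈ BS θ (d + 1),
      IsB θ (fun i j l => lf a * b i j l - X 0 * b' i j l)) →
      ∃ b' ∈ BS θ d, IsB θ (fun i j l => b i j l - X 0 * b' i j l)) :
    ∀ d ≤ D, ∀ b ∈ BS θ d, IsB θ (fun i j l => X 0 * b i j l) → IsB θ b := by
  have he : ∀ b : F3 (n + 1), actQ θ (e0 n) ((Bsub θ).mkQ b) =
      (Bsub θ).mkQ (fun i j l => X 0 * b i j l) := by
    intro b
    rw [actQ_mk, lf_e0]
  intro d hd b hb h0
  refine mkQ_eq_zero.1 (socle_all (grAct θ) h D ?_ ?_ d hd _ ⟨b, hb, rfl⟩ ?_)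
  · rintro _ ⟨b1, hb1, rfl⟩ h1
    refine mkQ_eq_zero.2 (hs0 b1 hb1 fun a => ?_)
    obtain ⟨_, ⟨b2, hb2, rfl⟩, h2⟩ := h1 a
    rw [actQ_mk, he, qm_mkQ_eq] at h2
    exact ⟨b2, hb2, h2⟩
  · rintro d' hd' _ ⟨b1, hb1, rfl⟩ h1
    obtain ⟨b3, hb3, h3⟩ := hs d' hd' b1 hb1 fun a => by
      obtain ⟨_, ⟨b2, hb2, rfl⟩, h2⟩ := h1 a
      rw [actQ_mk, he, qm_mkQ_eq] at h2
      exact ⟨b2, hb2, h2⟩
    refine ⟨(Bsub θ).mkQ b3, ⟨b3, hb3, rfl⟩, ?_⟩
    rw [he, qm_mkQ_eq]
    exact h3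
  · rw [he, mkQ_eq_zero]
    exact h0

end Pool.Agent.Helper57.SC
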