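import Mathlib

/-! SC-1 (project FOL, MP_45a28a, block II, case Y): RANK LEMMA and generic maximal rank.  Pure linear algebra.

`rank_lemma`.  Let `r = rank (A 0)` and suppose `A 0 b = 0` but `A 1 b` is not in the range of `A 0`.  Choose
`u_1, .., u_r` with `A 0 u_i` a basis of the range of `A 0`.  The vectors `v_i(t) = Σ_j t^j A j u_i` and
`v(t) = Σ_(j ≥ 1) t^(j-1) A j b` are polynomial in `t`, and for `t = 0` they are linearly independent.  So they are
independent for some `t ≠ 0` (take linear functionals `f_0, .., f_r` with `det (f_i (v_j(0))) ≠ 0`; the determinant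
`det (f_i (v_j(t)))` is a polynomial in `t`, non zero at `0`, so it has finitely many zeros).  For `t ≠ 0` all of them
lie in the range of `Σ_j t^j A j` (`v(t) = t^(-1) Σ_j t^j A j b`), whose dimension is `≤ r`: contradiction.

`gen_maxrank`.  Let `r` be the maximum of `rank (A(y))`, attained at `y0`; some `r × r` minor of `A(y0)` is non zero;
`F` = that minor of `A` (a polynomial); `F(x) ≠ 0` gives `rank A(x) ≥ r`. -/

set_option autoImplicit false

namespace Pool.Agent.Helper57.SC

open scoped BigOperators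

/-- a linear left inverse of a linearly independent finite family -/
private theorem exists_left {κ G : Type} [Fintype κ] [DecidableEq κ] [AddCommGroup G] [Module ℂ G]
    (w : κ → G) (hw : LinearIndependent ℂ w) :
    ∃ L : G →ₗ[ℂ] (κ → ℂ), ∀ o, L (w o) = Pi.single o 1 := by
  have hker : LinearMap.ker (Fintype.linearCombination ℂ w) = ⊥ := by
    rw [LinearMap.ker_eq_bot']
    intro c hc
    rw [Fintype.linearCombination_apply] at hc
    exact funext (Fintype.linearIndependent_iff.1 hw c hc)
  obtain ⟨L, hL⟩ := (Fintype.linearCombination ℂ w).exists_leftInverse_of_injective hker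
  refine ⟨L, fun o => ?_⟩
  have h := LinearMap.congr_fun hL (Pi.single o 1)
  rw [LinearMap.comp_apply, Fintype.linearCombination_apply_single, one_smul] at h
  simpa using h

/-- RANK LEMMA: the rank of a polynomial curve of linear maps never exceeds its value at `t = 0`; then the derivative
at `0` maps the kernel of `A 0` into the range of `A 0`. -/
theorem rank_lemma {F G : Type} [AddCommGroup F] [Module ℂ F] [AddCommGroup G] [Module ℂ G]
    [Module.Finite ℂ F] {k : ℕ} (A : Fin (k + 2) → F →ₗ[ℂ] G)
    (h : ∀ t : ℂ, Module.finrank ℂ (LinearMap.range (∑ i : Fin (k + 2), t ^ (i : ℕ) • A i)) ≤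
      Module.finrank ℂ (LinearMap.range (A 0)))
    (b : F) (hb : A 0 b = 0) : ∃ u : F, A 1 b = A 0 u := by
  classical
  by_contra hc
  push Not at hc
  set r := Module.finrank ℂ (LinearMap.range (A 0)) with hr
  let bs : Module.Basis (Fin r) ℂ (LinearMap.range (A 0)) := Module.finBasis ℂ _
  have hu : ∀ i : Fin r, ∃ u : F, A 0 u = (bs i : G) := fun i => (bs i).2
  choose u hu using hu
  let v : ℂ → Option (Fin r) → G := fun t o => match o with
    | none => ∑ j : Fin (k + 1), t ^ (j : ℕ) • A j.succ b
    | some s => ∑ j : Fin (k + 2), t ^ (j : ℕ) • A j (u s)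
  have hv0n : v 0 none = A 1 b := by
    show ∑ j : Fin (k + 1), (0 : ℂ) ^ (j : ℕ) • A j.succ b = A 1 b
    rw [Fin.sum_univ_succ, Finset.sum_eq_zero]
    · simp
    · intro j _
      simp
  have hv0s : ∀ s, v 0 (some s) = bs s := by
    intro s
    show ∑ j : Fin (k + 2), (0 : ℂ) ^ (j : ℕ) • A j (u s) = bs s
    rw [Fin.sum_univ_succ, Finset.sum_eq_zero]
    · simp [hu]
    · intro j _
      simp
  have hind : LinearIndependent ℂ (v 0) := by
    rw [linearIndependent_option]
    have h1 : v 0 ∘ (fun s : Fin r => (s : Option (Fin r))) = fun s => (bs s : G) :=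
      funext fun s => hv0s s
    rw [h1, hv0n]
    refine ⟨?_, ?_⟩
    · exact bs.linearIndependent.map' (LinearMap.range (A 0)).subtype
        (Submodule.ker_subtype _)
    · intro hm
      have h2 : Submodule.span ℂ (Set.range fun s => (bs s : G)) ≤ LinearMap.range (A 0) := by
        rw [Submodule.span_le]
        rintro _ ⟨s, rfl⟩
        exact (bs s).2
      obtain ⟨z, hz⟩ := h2 hm
      exact hc z hz.symm
  obtain ⟨L, hL⟩ := exists_left (v 0) hind
  let Mp : Matrix (Option (Fin r)) (Option (Fin r)) (Polynomial ℂ) :=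
    Matrix.of fun i o => match o with
      | none => ∑ j : Fin (k + 1), Polynomial.X ^ (j : ℕ) * Polynomial.C (L (A j.succ b) i)
      | some s => ∑ j : Fin (k + 2), Polynomial.X ^ (j : ℕ) * Polynomial.C (L (A j (u s)) i)
  have hMp : ∀ t : ℂ, (Polynomial.evalRingHom t).mapMatrix Mp =
      Matrix.of fun i o => L (v t o) i := by
    intro t
    ext i o
    rw [RingHom.mapMatrix_apply, Matrix.map_apply]
    cases o with
    | none =>
      show Polynomial.eval t (∑ j : Fin (k + 1), Polynomial.X ^ (j : ℕ) *
        Polynomial.C (L (A j.succ b) i)) = L (∑ j : Fin (k + 1), t ^ (j : ℕ) • A j.succ b) i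
      rw [Polynomial.eval_finsetSum, map_sum, Finset.sum_apply]
      refine Finset.sum_congr rfl fun j _ => ?_
      simp only [Polynomial.eval_mul, Polynomial.eval_pow, Polynomial.eval_X, Polynomial.eval_C,
        map_smul, Pi.smul_apply, smul_eq_mul]
    | some s =>
      show Polynomial.eval t (∑ j : Fin (k + 2), Polynomial.X ^ (j : ℕ) *
        Polynomial.C (L (A j (u s)) i)) = L (∑ j : Fin (k + 2), t ^ (j : ℕ) • A j (u s)) i
      rw [Polynomial.eval_finsetSum, map_sum, Finset.sum_apply]
      refine Finset.sum_congr rfl fun j _ => ?_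
      simp only [Polynomial.eval_mul, Polynomial.eval_pow, Polynomial.eval_X, Polynomial.eval_C,
        map_smul, Pi.smul_apply, smul_eq_mul]
  have hdet : ∀ t : ℂ, Polynomial.eval t Mp.det = (Matrix.of fun i o => L (v t o) i).det := by
    intro t
    rw [← hMp t, ← RingHom.map_det]
    rfl
  have h0 : Polynomial.eval 0 Mp.det = 1 := by
    rw [hdet 0]
    have h1 : (Matrix.of fun i o => L (v 0 o) i) =
        (1 : Matrix (Option (Fin r)) (Option (Fin r)) ℂ) := by
      ext i o
      rw [Matrix.of_apply, hL, Matrix.one_apply, Pi.single_apply]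
    rw [h1, Matrix.det_one]
  obtain ⟨t, ht⟩ : ∃ t : ℂ, Polynomial.eval t (Mp.det * Polynomial.X) ≠ 0 := by
    by_contra hcon
    push Not at hcon
    have h1 : Mp.det * Polynomial.X = 0 := Polynomial.funext fun t => by
      rw [hcon t, Polynomial.eval_zero]
    rcases mul_eq_zero.1 h1 with h2 | h2
    · rw [h2] at h0; simp at h0
    · exact Polynomial.X_ne_zero h2
  rw [Polynomial.eval_mul, Polynomial.eval_X, hdet t] at ht
  have ht0 : t ≠ 0 := right_ne_zero_of_mul ht
  have hdt : IsUnit (Matrix.of fun i o => L (v t o) i).det :=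
    isUnit_iff_ne_zero.2 (left_ne_zero_of_mul ht)
  set B := ∑ i : Fin (k + 2), t ^ (i : ℕ) • A i with hB
  let z : Option (Fin r) → F := fun o => match o with
    | none => t⁻¹ • b
    | some s => u s
  have hz : ∀ o, v t o = B (z o) := by
    intro o
    cases o with
    | none =>
      show ∑ j : Fin (k + 1), t ^ (j : ℕ) • A j.succ b = B (t⁻¹ • b)
      have hBb : B b = ∑ j : Fin (k + 1), t ^ ((j : ℕ) + 1) • A j.succ b := by
        rw [hB, LinearMap.sum_apply, Fin.sum_univ_succ, LinearMap.smul_apply, hb,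
          smul_zero, zero_add]
        rfl
      rw [map_smul, hBb, Finset.smul_sum]
      refine Finset.sum_congr rfl fun j _ => ?_
      rw [smul_smul, pow_succ]
      congr 1
      field_simp
    | some s =>
      show ∑ j : Fin (k + 2), t ^ (j : ℕ) • A j (u s) = B (u s)
      rw [hB, LinearMap.sum_apply]
      rfl
  have hsurj : LinearMap.range (L ∘ₗ B) = ⊤ := by
    rw [LinearMap.range_eq_top]
    intro y
    refine ⟨∑ o, ((Matrix.of fun i o => L (v t o) i)⁻¹.mulVec y) o • z o, ?_⟩
    have h1 : (Matrix.of fun i o => L (v t o) i).mulVec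
        ((Matrix.of fun i o => L (v t o) i)⁻¹.mulVec y) = y := by
      rw [Matrix.mulVec_mulVec, Matrix.mul_nonsing_inv _ hdt, Matrix.one_mulVec]
    rw [map_sum]
    funext i
    rw [Finset.sum_apply]
    have h2 := congrFun h1 i
    rw [Matrix.mulVec, dotProduct] at h2
    rw [← h2]
    refine Finset.sum_congr rfl fun o _ => ?_
    rw [map_smul, Pi.smul_apply, LinearMap.comp_apply, ← hz o, smul_eq_mul, mul_comm]
    rfl
  have h1 : Module.finrank ℂ (LinearMap.range (L ∘ₗ B)) = r + 1 := by
    rw [hsurj, finrank_top, Module.finrank_fintype_fun_eq_card, Fintype.card_option,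
      Fintype.card_fin]
  have h2 : Module.finrank ℂ (LinearMap.range (L ∘ₗ B)) ≤
      Module.finrank ℂ (LinearMap.range B) := by
    rw [LinearMap.range_comp]
    exact Submodule.finrank_map_le _ _
  have h3 : Module.finrank ℂ (LinearMap.range B) ≤ r := h t
  omega

/-- the rank of a matrix with polynomial entries is maximal outside a hypersurface -/
theorem gen_maxrank {ι p q : Type} [Fintype p] [Fintype q] [DecidableEq p] [DecidableEq q]
    (A : Matrix p q (MvPolynomial ι ℂ)) :
    ∃ F : MvPolynomial ι ℂ, F ≠ 0 ∧ ∀ x : ι → ℂ, MvPolynomial.eval x F ≠ 0 → ∀ y : ι → ℂ,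
      (A.map (MvPolynomial.eval y)).rank ≤ (A.map (MvPolynomial.eval x)).rank := by
  classical
  -- a point where the rank is maximal
  obtain ⟨y0, hy0⟩ : ∃ y0 : ι → ℂ, ∀ y : ι → ℂ,
      (A.map (MvPolynomial.eval y)).rank ≤ (A.map (MvPolynomial.eval y0)).rank := by
    have hbd : BddAbove (Set.range fun y : ι → ℂ => (A.map (MvPolynomial.eval y)).rank) :=
      ⟨Fintype.card q, by
        rintro _ ⟨y, rfl⟩
        exact Matrix.rank_le_card_width _⟩
    have hne : (Set.range fun y : ι → ℂ => (A.map (MvPolynomial.eval y)).rank).Nonempty :=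
      ⟨_, ⟨0, rfl⟩⟩
    obtain ⟨y0, h0⟩ := Nat.sSup_mem hne hbd
    refine ⟨y0, fun y => ?_⟩
    have h1 := le_csSup hbd ⟨y, rfl⟩
    simp only at h0 h1
    rw [h0]
    exact h1
  set M := A.map (MvPolynomial.eval y0) with hM
  let bs : Module.Basis (Fin M.rank) ℂ (LinearMap.range M.mulVecLin) := Module.finBasis ℂ _
  have hu : ∀ i : Fin M.rank, ∃ u : q → ℂ, M.mulVecLin u = (bs i : p → ℂ) := fun i => (bs i).2
  choose u hu using hu
  have hind : LinearIndependent ℂ (fun i => (bs i : p → ℂ)) :=
    bs.linearIndependent.map' (LinearMap.range M.mulVecLin).subtype (Submodule.ker_subtype _)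
  obtain ⟨L, hL⟩ := exists_left _ hind
  let P : Matrix (Fin M.rank) p ℂ := LinearMap.toMatrix' L
  let Q : Matrix q (Fin M.rank) ℂ := Matrix.of fun i j => u j i
  let F : MvPolynomial ι ℂ :=
    (P.map (MvPolynomial.C : ℂ →+* MvPolynomial ι ℂ) * A *
      Q.map (MvPolynomial.C : ℂ →+* MvPolynomial ι ℂ)).det
  have hF : ∀ x : ι → ℂ, MvPolynomial.eval x F = (P * A.map (MvPolynomial.eval x) * Q).det := by
    intro x
    show MvPolynomial.eval x (Matrix.det _) = _
    rw [RingHom.map_det, RingHom.mapMatrix_apply, Matrix.map_mul, Matrix.map_mul,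
      Matrix.map_map, Matrix.map_map]
    congr 2
    · congr 1
      ext i j
      simp
    · ext i j
      simp
  have h1 : P * M * Q = 1 := by
    ext i j
    have h2 : (P * M * Q) i j = (P.mulVec (M.mulVec (u j))) i := by
      rw [Matrix.mulVec_mulVec, Matrix.mul_apply, Matrix.mulVec, dotProduct]
      rfl
    have h3 : M.mulVec (u j) = (bs j : p → ℂ) := hu j
    have h4 : P.mulVec (bs j : p → ℂ) = L (bs j : p → ℂ) := by
      show (LinearMap.toMatrix' L).mulVec _ = _
      rw [LinearMap.toMatrix'_mulVec]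
    rw [h2, h3, h4, hL, Matrix.one_apply, Pi.single_apply]
  refine ⟨F, ?_, ?_⟩
  · intro h0
    have h2 := hF y0
    rw [h0, map_zero, ← hM, h1, Matrix.det_one] at h2
    exact one_ne_zero h2.symm
  · intro x hx y
    refine (hy0 y).trans ?_
    rw [hF x] at hx
    have h2 : (P * A.map (MvPolynomial.eval x) * Q).rank = Fintype.card (Fin M.rank) :=
      Matrix.rank_of_isUnit _ ((Matrix.isUnit_iff_isUnit_det _).2 (isUnit_iff_ne_zero.2 hx))
    rw [Fintype.card_fin] at h2
    rw [← h2]
    exact (Matrix.rank_mul_le_left _ _).trans (Matrix.rank_mul_le_right _ _)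

end Pool.Agent.Helper57.SC
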