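import Pool.Agent.Helper57.SC.Rank

/-! SC-2 (project FOL, case Y): SOCLE LEMMA (helper35, after Huneke-Ulrich), abstract form.
`M 0, M 1, ..` are finite dimensional subspaces of one space `Q`, `W` acts by commuting operators of degree one,
`z ∈ W` has maximal rank (all powers).

* `rank_cons`: RANK LEMMA for the curve `(act z + t act w)^(k+1) : M d → Q`, i.e. `A j = choose (k+1) j (act z)^(k+1-j) (act w)^j`
  restricted to `M d` (binomial theorem, the operators commute); by `MaxRk` its rank is at most the rank of `(act z)^(k+1)`.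
* `polar3`: `MaxRk` with `k = 3` gives `(act w)^3 m = 0` for all `w`; polarise:
  `6 w1 w2 w3 = (w1+w2+w3)^3 - (w1+w2)^3 - (w1+w3)^3 - (w2+w3)^3 + w1^3 + w2^3 + w3^3`.
* `socle`.  Let `T = {m ∈ M D : z m = 0}`.  CLAIM: for all `k ≤ D`, every `b ∈ T` is `b = z^k η` with `η ∈ M (D - k)`.
  `k = 0` is trivial.  Let `b = z^k η`, `η ∈ M (D - k)`, so `z^(k+1) η = 0`.  `rank_cons`: `(k+1) z^k (w η) = z^(k+1) ζ`,
  `ζ ∈ M (D - k)`, for every `w`.
  If `k = 0`: `w η = z ζ`.  If `k ≥ 1`: `z^(k-1) ((k+1) w η - z ζ) ∈ M D` is killed by `z`, so it is in `T`, so by the claim for `k` it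
  is `z^k ω`, `ω ∈ M (D - k)`; hence `z^(k-1) ((k+1) w η - z ζ - z ω) = 0` with the bracket in `M (D - k + 1)`, and `z^(k-1)` is injective there
  (`z` is injective on `M d` for `d < D`): `(k+1) w η = z (ζ + ω)`.  In both cases `w η ∈ z M (D - k)` for all `w`, so by the socle
  hypothesis `η = z η'`, `η' ∈ M (D - k - 1)` if `k < D` (claim for `k + 1`), and `η = 0` if `k = D`, so `b = 0`. -/

set_option autoImplicit false

namespace Pool.Agent.Helper57.SC

open scoped BigOperators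

variable {W Q : Type} [AddCommGroup W] [Module ℂ W] [AddCommGroup Q] [Module ℂ Q]

/-- graded pieces `M d` of `Q` with commuting operators of degree one -/
structure GrAct (act : W →ₗ[ℂ] Module.End ℂ Q) (M : ℕ → Submodule ℂ Q) : Prop where
  fin : ∀ d, Module.Finite ℂ (M d)
  comm : ∀ w w' q, act w (act w' q) = act w' (act w q)
  deg : ∀ w d, ∀ m ∈ M d, act w m ∈ M (d + 1)

/-- `z` has maximal rank, together with all its powers -/
def MaxRk (act : W →ₗ[ℂ] Module.End ℂ Q) (M : ℕ → Submodule ℂ Q) (z : W) : Prop :=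
  ∀ (k d : ℕ) (w : W),
    Module.finrank ℂ ((M d).map ((act w) ^ k)) ≤ Module.finrank ℂ ((M d).map ((act z) ^ k))

variable {act : W →ₗ[ℂ] Module.End ℂ Q} {M : ℕ → Submodule ℂ Q}

private theorem sc_comm (h : GrAct act M) (w w' : W) : Commute (act w) (act w') := by
  refine LinearMap.ext fun q => ?_
  exact h.comm w w' q

private theorem sc_pow (h : GrAct act M) (z w : W) (t : ℂ) (n : ℕ) :
    (act (z + t • w)) ^ n =
      ∑ j ∈ Finset.range (n + 1), (t ^ j * (n.choose j : ℂ)) • ((act z) ^ (n - j) * (act w) ^ j) := by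
  have hc : Commute (t • act w) (act z) := (sc_comm h w z).smul_left t
  rw [map_add, map_smul, add_comm, hc.add_pow]
  refine Finset.sum_congr rfl fun j _ => ?_
  rw [smul_pow, ← nsmul_eq_mul', ← Nat.cast_smul_eq_nsmul ℂ, smul_mul_assoc, smul_smul, mul_comm (t ^ j)]
  rw [((sc_comm h w z).pow_pow j (n - j)).eq]

theorem rank_cons (h : GrAct act M) {z : W} (hz : MaxRk act M z) (k d : ℕ) {m : Q} (hm : m ∈ M d)
    (h0 : ((act z) ^ (k + 1)) m = 0) (w : W) :
    ∃ m' ∈ M d, ((k : ℂ) + 1) • ((act z) ^ k) (act w m) = ((act z) ^ (k + 1)) m' := by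
  have := h.fin d
  let A : Fin (k + 2) → (M d) →ₗ[ℂ] Q := fun j =>
    (((k + 1).choose (j : ℕ) : ℂ) • ((act z) ^ (k + 1 - (j : ℕ)) * (act w) ^ (j : ℕ))).domRestrict (M d)
  have hA : ∀ t : ℂ, ∑ i : Fin (k + 2), t ^ (i : ℕ) • A i =
      ((act (z + t • w)) ^ (k + 1)).domRestrict (M d) := by
    intro t
    rw [sc_pow h z w t (k + 1)]
    refine LinearMap.ext fun x => ?_
    rw [LinearMap.sum_apply, LinearMap.domRestrict_apply, LinearMap.sum_apply,
      ← Fin.sum_univ_eq_sum_range (fun j => ((t ^ j * ((k + 1).choose j : ℂ)) •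
        ((act z) ^ (k + 1 - j) * (act w) ^ j)) (x : Q)) (k + 1 + 1)]
    refine Finset.sum_congr rfl fun i _ => ?_
    rw [mul_smul]
    rfl
  have hA0 : A 0 = ((act z) ^ (k + 1)).domRestrict (M d) := by
    refine LinearMap.ext fun x => ?_
    show ((((k + 1).choose 0 : ℕ) : ℂ) • ((act z) ^ (k + 1 - 0) * (act w) ^ 0)) (x : Q) = _
    rw [Nat.choose_zero_right, Nat.cast_one, one_smul, pow_zero, mul_one, Nat.sub_zero]
    rfl
  have hr : ∀ t : ℂ, Module.finrank ℂ (LinearMap.range (∑ i : Fin (k + 2), t ^ (i : ℕ) • A i)) ≤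
      Module.finrank ℂ (LinearMap.range (A 0)) := by
    intro t
    rw [hA t, hA0, LinearMap.range_domRestrict, LinearMap.range_domRestrict]
    exact hz (k + 1) d (z + t • w)
  obtain ⟨u, hu⟩ := rank_lemma A hr ⟨m, hm⟩ (by rw [hA0]; exact h0)
  refine ⟨u, u.2, ?_⟩
  rw [hA0] at hu
  have h1 : A 1 ⟨m, hm⟩ = ((k : ℂ) + 1) • ((act z) ^ k) (act w m) := by
    show ((((k + 1).choose 1 : ℕ) : ℂ) • ((act z) ^ (k + 1 - 1) * (act w) ^ 1)) m = _
    rw [Nat.choose_one_right, pow_one, Nat.add_sub_cancel, Nat.cast_add, Nat.cast_one]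
    rfl
  rw [← h1]
  exact hu

theorem polar3 (h : GrAct act M) {z : W} (hz : MaxRk act M z) {d : ℕ}
    (h0 : ∀ m ∈ M d, ((act z) ^ 3) m = 0) {m : Q} (hm : m ∈ M d) (w1 w2 w3 : W) :
    act w1 (act w2 (act w3 m)) = 0 := by
  have := h.fin d
  have hH : ∀ w : W, act w (act w (act w m)) = 0 := by
    intro w
    have h1 := hz 3 d w
    have h2 : (M d).map ((act z) ^ 3) = ⊥ := by
      rw [eq_bot_iff]
      rintro _ ⟨x, hx, rfl⟩
      exact (Submodule.mem_bot ℂ).2 (h0 x hx)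
    rw [h2, finrank_bot] at h1
    have h3 : (M d).map ((act w) ^ 3) = ⊥ := by
      have : Module.Finite ℂ ((M d).map ((act w) ^ 3)) := inferInstance
      exact Submodule.finrank_eq_zero.1 (Nat.le_zero.1 h1)
    have h4 : ((act w) ^ 3) m ∈ (M d).map ((act w) ^ 3) := ⟨m, hm, rfl⟩
    rw [h3] at h4
    have h5 := (Submodule.mem_bot ℂ).1 h4
    rw [pow_succ, pow_succ, pow_one] at h5
    exact h5
  have e1 := hH w1
  have e2 := hH w2
  have e3 := hH w3
  have e12 := hH (w1 + w2)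
  have e13 := hH (w1 + w3)
  have e23 := hH (w2 + w3)
  have e123 := hH (w1 + w2 + w3)
  simp only [map_add, LinearMap.add_apply, h.comm w2 w1, h.comm w3 w1, h.comm w3 w2] at e12 e13 e23 e123
  linear_combination (norm := module) (1 / 6 : ℂ) • (e123 - e12 - e13 - e23 + e1 + e2 + e3)

private theorem sc_pow_mem (h : GrAct act M) (z : W) (j : ℕ) : ∀ (d : ℕ) (x : Q), x ∈ M d →
    ((act z) ^ j) x ∈ M (d + j) := by
  induction j with
  | zero => intro d x hx; exact hx
  | succ j ih =>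
    intro d x hx
    rw [pow_succ']
    exact h.deg z (d + j) _ (ih d x hx)

private theorem sc_inj (h : GrAct act M) {z : W} {D : ℕ}
    (hinj : ∀ d < D, ∀ m ∈ M d, act z m = 0 → m = 0) (j : ℕ) : ∀ (d : ℕ), d + j ≤ D → ∀ x ∈ M d,
    ((act z) ^ j) x = 0 → x = 0 := by
  induction j with
  | zero => intro d _ x _ hx0; exact hx0
  | succ j ih =>
    intro d hd x hx hx0
    apply ih d (by omega) x hx
    apply hinj (d + j) (by omega) _ (sc_pow_mem h z j d x hx)
    rw [pow_succ'] at hx0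
    exact hx0

private theorem sc_step (h : GrAct act M) {z : W} (hz : MaxRk act M z) (D : ℕ)
    (hinj : ∀ d < D, ∀ m ∈ M d, act z m = 0 → m = 0) {k : ℕ} (hk : k ≤ D)
    (ih : ∀ b ∈ M D, act z b = 0 → ∃ η ∈ M (D - k), b = ((act z) ^ k) η) :
    ∀ b ∈ M D, act z b = 0 → ∃ η ∈ M (D - k), b = ((act z) ^ k) η ∧
      ∀ w, ∃ m' ∈ M (D - k), act w η = act z m' := by
  intro b hb hzb
  obtain ⟨η, hη, hbη⟩ := ih b hb hzb
  refine ⟨η, hη, hbη, fun w => ?_⟩
  have h0 : ((act z) ^ (k + 1)) η = 0 := by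
    rw [pow_succ']
    show act z (((act z) ^ k) η) = 0
    rw [← hbη, hzb]
  obtain ⟨ζ, hζ, h1⟩ := rank_cons h hz k (D - k) hη h0 w
  cases k with
  | zero =>
    refine ⟨ζ, hζ, ?_⟩
    rw [Nat.cast_zero, zero_add, one_smul, zero_add, pow_one] at h1
    exact h1
  | succ k =>
    obtain ⟨e, he⟩ : ∃ e, D - (k + 1) = e := ⟨_, rfl⟩
    have heD : e + 1 + k = D := by omega
    rw [he] at hη hζ ih ⊢
    have hx : ((k + 1 : ℕ) : ℂ) + 1 ≠ 0 := Nat.cast_add_one_ne_zero (k + 1)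
    generalize ((k + 1 : ℕ) : ℂ) + 1 = a at h1 hx
    have hxm : a • act w η - act z ζ ∈ M (e + 1) :=
      (M (e + 1)).sub_mem ((M (e + 1)).smul_mem a (h.deg w e η hη)) (h.deg z e ζ hζ)
    have h2 : act z (((act z) ^ k) (a • act w η - act z ζ)) = 0 := by
      have h3 : act z (((act z) ^ k) (a • act w η - act z ζ)) =
          ((act z) ^ (k + 1)) (a • act w η - act z ζ) := by
        rw [pow_succ']
        rfl
      rw [h3, map_sub, map_smul, h1, pow_succ (act z) (k + 1)]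
      exact sub_self _
    have h3 := sc_pow_mem h z k (e + 1) _ hxm
    rw [heD] at h3
    obtain ⟨ω, hω, h4⟩ := ih _ h3 h2
    have h5 : ((act z) ^ k) (a • act w η - act z ζ - act z ω) = 0 := by
      rw [map_sub, h4, pow_succ]
      exact sub_self _
    have h6 := sc_inj h hinj k (e + 1) heD.le _ ((M (e + 1)).sub_mem hxm (h.deg z e ω hω)) h5
    refine ⟨a⁻¹ • (ζ + ω), (M e).smul_mem _ ((M e).add_mem hζ hω), ?_⟩
    rw [map_smul, map_add]
    have h7 : a • act w η = act z ζ + act z ω := by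
      rw [sub_sub, sub_eq_zero] at h6
      exact h6
    rw [← h7, inv_smul_smul₀ hx]

/-- SOCLE LEMMA -/
theorem socle (h : GrAct act M) {z : W} (hz : MaxRk act M z) (D : ℕ)
    (hinj : ∀ d < D, ∀ m ∈ M d, act z m = 0 → m = 0)
    (hsoc0 : ∀ m ∈ M 0, (∀ w, ∃ m' ∈ M 0, act w m = act z m') → m = 0)
    (hsoc : ∀ d < D, ∀ m ∈ M (d + 1), (∀ w, ∃ m' ∈ M (d + 1), act w m = act z m') →
      ∃ m' ∈ M d, m = act z m') :
    ∀ m ∈ M D, act z m = 0 → m = 0 := by
  have key : ∀ k ≤ D, ∀ b ∈ M D, act z b = 0 → ∃ η ∈ M (D - k), b = ((act z) ^ k) η := by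
    intro k
    induction k with
    | zero =>
      intro _ b hb _
      exact ⟨b, hb, rfl⟩
    | succ k ih =>
      intro hk b hb hzb
      obtain ⟨η, hη, hbη, hw⟩ := sc_step h hz D hinj (by omega) (ih (by omega)) b hb hzb
      obtain ⟨e, he⟩ : ∃ e, D - k = e + 1 := ⟨D - k - 1, by omega⟩
      rw [he] at hη hw
      obtain ⟨η', hη', hη2⟩ := hsoc e (by omega) η hη hw
      refine ⟨η', ?_, ?_⟩
      · have h1 : D - (k + 1) = e := by omega
        rw [h1]
        exact hη'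
      · rw [hbη, hη2, pow_succ]
        rfl
  intro b hb hzb
  obtain ⟨η, hη, hbη, hw⟩ := sc_step h hz D hinj le_rfl (key D le_rfl) b hb hzb
  rw [Nat.sub_self] at hη hw
  rw [hbη, hsoc0 η hη hw, map_zero]

theorem socle_all (h : GrAct act M) {z : W} (hz : MaxRk act M z) (D : ℕ)
    (hsoc0 : ∀ m ∈ M 0, (∀ w, ∃ m' ∈ M 0, act w m = act z m') → m = 0)
    (hsoc : ∀ d < D, ∀ m ∈ M (d + 1), (∀ w, ∃ m' ∈ M (d + 1), act w m = act z m') →
      ∃ m' ∈ M d, m = act z m') :
    ∀ d ≤ D, ∀ m ∈ M d, act z m = 0 → m = 0 := by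
  intro d
  induction d using Nat.strong_induction_on with
  | _ d ih =>
    intro hd
    exact socle h hz d (fun e he => ih e he (le_trans (Nat.le_of_lt he) hd)) hsoc0
      (fun e he => hsoc e (lt_of_lt_of_le he hd))

end Pool.Agent.Helper57.SC
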