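import Pool.Agent.Helper57.SC.H1

/-! SC-11 (project FOL, case Y, z = 5): `V = ℂ^5`, `E_2(V) ≠ 0`, modulo LEMMA X (helper35, `Helper35/LX`), which is the hypothesis `LemmaX`.
`θ : F2 5`, `H = {x_0 = 0}`, `P = {x_0 = x_1 = 0}` of type `Pl5`.  Assume `e_2(V) = 0`.  By `H0`, `e_2(H) ∈ {1, 2}`.
* `V_e2H`: `e_2(H) = 2 = e_2(P)` is impossible: all `LiftAt (rs2 θ) k`, `k ≤ 2` (`liftAt_of_zero`, `liftAt_of_finrank`); `lemmaS`: `LiftAt θ 2`, so
  `EE θ 2 ≠ 0`.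
* `V_bz` (`e_2(H) = 1`): `kM θ 4 = 1` (`count_E`, `k = 1`): there is `b ∈ BS θ 4`, not in `B`, `X 0 b ∈ B`, which spans the kernel modulo `B`.
  `mr_cons` with `k = 0`: for all `a` there is `b' ∈ BS θ 4` with `lf a * b - X 0 * b' ∈ B`.  Restrict to `H`: all `X i * rs3 b ∈ B_H`.
* `V_D1`: `rs3 b ∈ B_H` is impossible.  `BS_res`: `b = X 0 η + c ∧ θ`, `η ∈ BS θ 3`.  So `X 0 η ∉ B`, `X 0 ^ 2 η ∈ B`.  `mr_cons` with `k = 1`: `2 X 0 (lf a η) - X 0 ^ 2 ζ ∈ B`,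
  `ζ ∈ BS θ 3`: the element `2 lf a η - X 0 ζ ∈ BS θ 4` is killed by `X 0`, so it is `c b` modulo `B`, `= c X 0 η`: `lf a η ∈ X 0 BS θ 3 + B` for all `a`; restrict to `H`:
  `rs3 η` is killed by all `X i`; if `rs3 η ∉ B_H` then `AnnB` is everything (dimension `4 ≥ 3`) and `ann_three` gives `e_2(H) ≥ 3`.  So `rs3 η ∈ B_H`, `BS_res`:
  `η = X 0 η' + c' ∧ θ`, `η' ∈ BS θ 2`; `X 0 ^ 2 η' ∉ B`, `X 0 ^ 3 η' ∈ B`.  `mM θ 2 ≤ 1` (`count_M`, `mM θ 1 = 0`, `mM (rs2 θ) 2 ≤ 1`), so every element of `BS θ 2` is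
  `c η'` modulo `B` and is killed by `X 0 ^ 3`; `mr_polar3`: `lf a * lf a' * lf a'' * η' ∈ B` for all `a, a', a''`.  So for `b' = X 0 η' ∈ BS θ 3` (not in `B`) every
  `lf a * b'` is killed by `X 0`, so it is in `ℂ b + B`: `AnnB θ b'` has dimension `≥ 4 ≥ 2`, and `ann_two` (`d = 1`) gives `EE θ 2 ≠ 0`: contradiction.
* `V_D2`: `rs3 b ∉ B_H`: `H1` with `t = rs3 b`: `mM (rs2 θ) d = 0` for `d ≤ 3`, `mM (rs2 θ) 4 = 1`, `e_3(H) = 8`.  So `mM θ d = 0` for `d ≤ 3` (`mM_zero_of_rs`),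
  `mM θ 4 ≤ 1` (`count_M`), so `BS θ 4 = ℂ b + BB θ 4`, and `lf a * b ∈ X 0 * BS θ 4 + B = B` (`V_bz`): `b` is killed by all `X i`.  `e_3(V) ≤ e_3(H) = 8`
  (`finrank_EE_le_rs`, `e_2(V) = 0`).  LEMMA X: contradiction. -/

set_option autoImplicit false

namespace Pool.Agent.Helper57.SC

open MvPolynomial
open scoped BigOperators
open Pool.Agent.Helper71.FL (w12 pf ct Dec Closed dd res at0)
open Pool.Agent.Helper71.FC

/-- statement of LEMMA X (helper35) -/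
def LemmaX : Prop := ∀ θ : F2 5, Fol θ → ¬ Cone θ → EE θ 2 = ⊥ →
  Module.finrank ℂ (EE θ 3) ≤ 8 → ∀ b : F3 5, (∀ i j k, (b i j k).IsHomogeneous 4) →
  (∀ a : Fin 5, IsB θ (fun i j k => X a * b i j k)) → IsB θ b

private theorem v5_at0_X0 {n : ℕ} : at0 n ℂ (X 0) = 0 := (at0_eq_zero_iff _).2 ⟨1, by rw [mul_one]⟩

private theorem v5_at0_Xs {n : ℕ} (i : Fin n) : at0 n ℂ (X i.succ) = X i := by
  unfold at0
  rw [aeval_X, Fin.cons_succ]

private theorem v5_at0_hom {n : ℕ} {f : Pn (n + 1)} {d : ℕ} (h : f.IsHomogeneous d) :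
    (at0 n ℂ f).IsHomogeneous d := by
  unfold at0
  have h1 := h.aeval (Fin.cons (0 : Pn n) (fun i => (X i : Pn n)) : Fin (n + 1) → Pn n) (n := 1)
    (by
      intro i
      refine Fin.cases ?_ (fun j => ?_) i
      · rw [Fin.cons_zero]; exact isHomogeneous_zero _ _ _
      · rw [Fin.cons_succ]; exact isHomogeneous_X _ _)
  rwa [one_mul] at h1

private theorem v5_nz {n : ℕ} {θ : F2 n} (hp : Prim2 θ) : ∃ i j, θ i j ≠ 0 := by
  by_contra hcon
  push Not at hcon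
  have := hp 0 (fun i j => by rw [hcon])
  exact not_isUnit_zero this

private theorem v5_res {n : ℕ} {θ : F2 (n + 1)} {b : F3 (n + 1)} (h : IsB θ b) :
    IsB (rs2 θ) (rs3 b) := by
  obtain ⟨c, hc⟩ := h
  refine ⟨res c, fun i j k => ?_⟩
  rw [w12_res, ← hc]
  rfl

private theorem v5_rs3_mem {n : ℕ} {θ : F2 (n + 1)} {d : ℕ} {b : F3 (n + 1)} (hb : b ∈ BS θ d) :
    rs3 b ∈ BS (rs2 θ) d :=
  ⟨fun _ _ _ => v5_at0_hom (hb.1 _ _ _), IsBsat_rs3 hb.2⟩

private theorem v5_lf {n : ℕ} (a : Fin n) :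
    (lf (fun i : Fin n => if i = a then (1 : ℂ) else 0) : Pn n) = X a := by
  unfold lf
  rw [Finset.sum_eq_single a]
  · simp
  · intro b _ hb
    simp [hb]
  · intro h
    exact absurd (Finset.mem_univ _) h

/-- an element of a space one dimension larger than the subspace -/
private theorem v5_span {V : Type} [AddCommGroup V] [Module ℂ V] {A S : Submodule ℂ V}
    (hS : Module.Finite ℂ S) (hAS : A ≤ S)
    (h : Module.finrank ℂ S ≤ Module.finrank ℂ A + 1) {v : V} (hv : v ∈ S) (hvA : v ∉ A) :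
    ∀ x ∈ S, ∃ c : ℂ, x - c • v ∈ A := by
  have h1 : A < A ⊔ Submodule.span ℂ {v} := by
    refine lt_of_le_of_ne le_sup_left fun h2 => hvA ?_
    rw [h2]
    exact Submodule.mem_sup_right (Submodule.mem_span_singleton_self v)
  have h2 : A ⊔ Submodule.span ℂ {v} ≤ S :=
    sup_le hAS (by rw [Submodule.span_singleton_le_iff_mem]; exact hv)
  have i1 : Module.Finite ℂ (A ⊔ Submodule.span ℂ {v} : Submodule ℂ V) :=
    Module.Finite.of_injective (Submodule.inclusion h2) (Submodule.inclusion_injective _)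
  have h3 := Submodule.finrank_lt_finrank_of_lt h1
  have h4 : A ⊔ Submodule.span ℂ {v} = S := Submodule.eq_of_le_of_finrank_le h2 (by omega)
  intro x hx
  rw [← h4] at hx
  obtain ⟨y, hy, z, hz, rfl⟩ := Submodule.mem_sup.1 hx
  obtain ⟨c, rfl⟩ := Submodule.mem_span_singleton.1 hz
  exact ⟨c, by rwa [add_sub_cancel_right]⟩

private theorem v5_notB {n : ℕ} {θ : F2 n} {d : ℕ} {b : F3 n} (h : ¬ IsB θ b) : b ∉ BB θ d :=
  fun hb => h hb.2

private theorem v5_sub {n : ℕ} {θ : F2 n} {b b' : F3 n} (h : IsB θ b) (h' : IsB θ b') :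
    IsB θ (fun i j k => b i j k - b' i j k) := by
  have h1 := h.add (h'.smul (-1))
  have h2 : (fun i j k => b i j k - b' i j k) = fun i j k => b i j k + (-1) * b' i j k := by
    funext i j k
    ring
  rwa [h2]

private theorem v5_congr {n : ℕ} {θ : F2 n} {b b' : F3 n} (h : IsB θ b)
    (h' : ∀ i j k, b' i j k = b i j k) : IsB θ b' := by
  have h1 : b' = b := by
    funext i j k
    exact h' i j k
  rwa [h1]

private theorem v5_wedge {n : ℕ} (θ : F2 n) (c : F1 n) : IsB θ (fun i j k => w12 c θ i j k) :=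
  ⟨c, fun _ _ _ => rfl⟩

section
variable {θ : F2 5}

theorem V_small (gp : GP θ) (gpH : GP (rs2 θ)) (hP : Pl5 (rs2 (rs2 θ))) :
    Module.finrank ℂ (EE θ 0) = 0 ∧ Module.finrank ℂ (EE θ 1) = 0 := by
  have h1 := H_small gpH hP
  have h2 := finrank_EE_zero_of_rs (θ := θ) (k := 1) (v5_nz gp.prim) (by
    intro l hl
    interval_cases l
    · exact h1.1
    · exact h1.2)
  exact ⟨h2 0 (by omega), h2 1 le_rfl⟩

theorem V_e2H (hF : Fol θ) (gp : GP θ) (gpH : GP (rs2 θ)) (hP : Pl5 (rs2 (rs2 θ)))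
    (h2 : Module.finrank ℂ (EE θ 2) = 0) : Module.finrank ℂ (EE (rs2 θ) 2) = 1 := by
  have hFH := Fol_rs2 hF gp
  have h3 := H_e2 gpH hP
  have h4 := H0 hFH gpH hP
  by_contra hne
  have h5 : Module.finrank ℂ (EE (rs2 θ) 2) = 2 := by omega
  have h6 : ∀ k ≤ 2, LiftAt (rs2 θ) k := by
    intro k hk
    interval_cases k
    · exact liftAt_of_zero hP.e0
    · exact liftAt_of_zero hP.e1
    · exact liftAt_of_finrank (v5_nz gpH.prim) (H_small gpH hP).2 (by rw [h5, hP.e2])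
  have h7 := lemmaS (by norm_num) hF gp gpH h6 2 le_rfl
  have i1 := finite_EE θ 2
  have i2 := finite_EE (rs2 θ) 2
  have h8 : EE θ 2 = ⊥ := Submodule.finrank_eq_zero.1 h2
  have h9 : EE (rs2 θ) 2 = ⊥ := by
    rw [eq_bot_iff]
    intro ζ hζ
    obtain ⟨ξ, hξ, hr⟩ := h7 ζ hζ
    rw [h8, Submodule.mem_bot] at hξ
    rw [Submodule.mem_bot]
    funext i
    rw [← hr i, hξ]
    exact map_zero _
  rw [h9, finrank_bot] at h5
  omega

theorem V_bz (hF : Fol θ) (gp : GP θ) (gpH : GP (rs2 θ)) (hP : Pl5 (rs2 (rs2 θ)))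
    (h2 : Module.finrank ℂ (EE θ 2) = 0) : ∃ b ∈ BS θ 4, ¬ IsB θ b ∧
      IsB θ (fun i j l => X 0 * b i j l) ∧
      (∀ b' ∈ BS θ 4, IsB θ (fun i j l => X 0 * b' i j l) →
        ∃ c : ℂ, IsB θ (fun i j l => b' i j l - C c * b i j l)) ∧
      (∀ a : Fin 5 → ℂ, ∃ b' ∈ BS θ 4, IsB θ (fun i j l => lf a * b i j l - X 0 * b' i j l)) ∧
      ∀ a : Fin 4, IsB (rs2 θ) (fun i j l => X a * rs3 b i j l) := by
  have h3 := V_e2H hF gp gpH hP h2
  have h4 := (V_small gp gpH hP).2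
  have h5 : Module.finrank ℂ (EE (rs2 θ) 2) + Module.finrank ℂ (EE θ 1) =
      Module.finrank ℂ (EE θ 2) + kM θ 4 := count_E (by norm_num) hF.hom hF.dec gp.prim gp.hz 1
  have h6 : kM θ 4 = 1 := by
    rw [h3, h4, h2] at h5
    omega
  have i1 := finite_BS θ 4
  have i2 := finite_BB θ 4
  have i3 : Module.Finite ℂ (BK θ 4) :=
    Module.Finite.of_injective (Submodule.inclusion (fun _ hb => hb.1 : BK θ 4 ≤ BS θ 4))
      (Submodule.inclusion_injective _)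
  unfold kM at h6
  have h7 : ∃ b ∈ BK θ 4, b ∉ BB θ 4 := by
    by_contra hcon
    push Not at hcon
    have h8 := Submodule.finrank_mono (show BK θ 4 ≤ BB θ 4 from hcon)
    omega
  obtain ⟨b, hb, hnb⟩ := h7
  have hnB : ¬ IsB θ b := fun h => hnb ⟨hb.1.1, h⟩
  have hcons : ∀ a : Fin 5 → ℂ, ∃ b' ∈ BS θ 4,
      IsB θ (fun i j l => lf a * b i j l - X 0 * b' i j l) := by
    intro a
    obtain ⟨b', hb', h8⟩ := mr_cons gp.mr (k := 0) hb.1
      (v5_congr hb.2 (fun i j k => by rw [zero_add, pow_one])) a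
    refine ⟨b', hb', v5_congr h8 fun i j k => ?_⟩
    rw [Nat.cast_zero, zero_add, pow_zero, zero_add, pow_one, C_1, one_mul, one_mul]
  refine ⟨b, hb.1, hnB, hb.2, ?_, hcons, ?_⟩
  · intro b' hb' h8
    obtain ⟨c, hc⟩ := v5_span i3 (BB_le_BK θ 4) (by omega) hb hnb b' ⟨hb', h8⟩
    refine ⟨c, v5_congr hc.2 fun i j k => ?_⟩
    show b' i j k - C c * b i j k = b' i j k - c • b i j k
    rw [smul_eq_C_mul]
  · intro a
    obtain ⟨b', _, h8⟩ := hcons (fun i => if i = a.succ then (1 : ℂ) else 0)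
    refine v5_congr (v5_res h8) fun i j l => ?_
    unfold rs3
    rw [v5_lf, map_sub, map_mul, map_mul, v5_at0_X0, v5_at0_Xs, zero_mul, sub_zero]

theorem V_D1 (hF : Fol θ) (gp : GP θ) (gpH : GP (rs2 θ)) (hP : Pl5 (rs2 (rs2 θ)))
    (h2 : Module.finrank ℂ (EE θ 2) = 0) {b : F3 5} (hb : b ∈ BS θ 4) (hnb : ¬ IsB θ b)
    (hb0 : IsB θ (fun i j l => X 0 * b i j l))
    (hker : ∀ b' ∈ BS θ 4, IsB θ (fun i j l => X 0 * b' i j l) →
        ∃ c : ℂ, IsB θ (fun i j l => b' i j l - C c * b i j l)) :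
    ¬ IsB (rs2 θ) (rs3 b) := by
  intro hr
  have hFH := Fol_rs2 hF gp
  have h3 := V_e2H hF gp gpH hP h2
  obtain ⟨η, hη, c, hc⟩ := BS_res (by norm_num) hF.hom hF.dec gp.prim gp.hz hb hr
  -- `X 0 η ∉ B`, `X 0 ^ 2 η ∈ B`
  have e1 : ¬ IsB θ (fun i j l => X 0 * η i j l) := by
    intro h
    exact hnb (v5_congr (h.add (v5_wedge θ c)) hc)
  have e2 : IsB θ (fun i j l => X 0 ^ (1 + 1) * η i j l) := by
    refine v5_congr (v5_sub hb0 ((v5_wedge θ c).smul (X 0))) fun i j l => ?_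
    simp only [hc]
    ring
  have hcons : ∀ a : Fin 5 → ℂ, ∃ ζ ∈ BS θ 3, IsB θ (fun i j l => lf a * η i j l - X 0 * ζ i j l) := by
    intro a
    obtain ⟨ζ, hζ, h4⟩ := mr_cons gp.mr (k := 1) hη e2 a
    have h5 : (fun i j l => C 2 * (lf a * η i j l) - X 0 * ζ i j l) ∈ BS θ 4 := by
      have h6 := (BS θ 4).sub_mem ((BS θ 4).smul_mem (2 : ℂ) (mul_mem_BS hη a))
        (mul_mem_BS hζ (e0 4))
      have h7 : ((2 : ℂ) • fun i j l => lf a * η i j l) - (fun i j l => lf (e0 4) * ζ i j l) =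
          fun i j l => C 2 * (lf a * η i j l) - X 0 * ζ i j l := by
        funext i j l
        show (2 : ℂ) • (lf a * η i j l) - lf (e0 4) * ζ i j l = _
        rw [smul_eq_C_mul, lf_e0]
      rwa [h7] at h6
    obtain ⟨c', h6⟩ := hker _ h5 (v5_congr h4 fun i j l => by
      have h7 : (C (((1 : ℕ) : ℂ) + 1) : Pn 5) = C 2 := by norm_num
      rw [h7]
      ring)
    have h7 : ((1 / 2 : ℂ) • ζ + (c' / 2) • η) ∈ BS θ 3 :=
      (BS θ 3).add_mem ((BS θ 3).smul_mem _ hζ) ((BS θ 3).smul_mem _ hη)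
    refine ⟨_, h7, v5_congr ((h6.add ((v5_wedge θ c).smul (C c'))).smul (C (1 / 2)))
      fun i j l => ?_⟩
    show lf a * η i j l - X 0 * ((1 / 2 : ℂ) • ζ i j l + (c' / 2) • η i j l) = _
    rw [smul_eq_C_mul, smul_eq_C_mul, hc]
    have h8 : (C (c' / 2) : Pn 5) = C (1 / 2) * C c' := by
      rw [← C_mul]
      congr 1
      ring
    have h9 : (C (1 / 2) * C 2 : Pn 5) = 1 := by
      rw [← C_mul, ← C_1]
      congr 1
      norm_num
    rw [h8]
    linear_combination (-(lf a * η i j l)) * h9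
  have hH : ∀ a : Fin 4, IsB (rs2 θ) (fun i j l => X a * rs3 η i j l) := by
    intro a
    obtain ⟨b', _, h8⟩ := hcons (fun i => if i = a.succ then (1 : ℂ) else 0)
    refine v5_congr (v5_res h8) fun i j l => ?_
    unfold rs3
    rw [v5_lf, map_sub, map_mul, map_mul, v5_at0_X0, v5_at0_Xs, zero_mul, sub_zero]
  have hηr : IsB (rs2 θ) (rs3 η) := by
    by_contra hcon
    have h4 : AnnB (rs2 θ) (rs3 η) = ⊤ := by
      rw [eq_top_iff]
      intro a _
      have h5 := IsB.sum' Finset.univ (fun x : Fin 4 => fun i j k => C (a x) * (X x * rs3 η i j k))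
        (fun x _ => (hH x).smul (C (a x)))
      refine v5_congr h5 fun i j k => ?_
      unfold lf
      rw [Finset.sum_mul]
      exact Finset.sum_congr rfl fun x _ => mul_assoc _ _ _
    have h5 : Module.finrank ℂ (AnnB (rs2 θ) (rs3 η)) = 4 := by
      rw [h4, finrank_top, Module.finrank_fin_fun]
    have h6 := ann_three hFH (d := 1) (v5_rs3_mem hη).1 hcon (by omega)
    have h7 : (1 : ℕ) + 1 = 2 := rfl
    rw [h7] at h6
    omega
  obtain ⟨η', hη', c', hc'⟩ := BS_res (by norm_num) hF.hom hF.dec gp.prim gp.hz hη hηr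
  have e3 : ¬ IsB θ (fun i j l => X 0 ^ 2 * η' i j l) := by
    intro h
    refine e1 (v5_congr (h.add ((v5_wedge θ c').smul (X 0))) fun i j l => ?_)
    rw [hc']
    ring
  have e4 : IsB θ (fun i j l => X 0 ^ 3 * η' i j l) := by
    refine v5_congr (v5_sub e2 ((v5_wedge θ c').smul (X 0 ^ 2))) fun i j l => ?_
    simp only [hc']
    ring
  have e5 : ¬ IsB θ η' := fun h => e3 (h.smul (X 0 ^ 2))
  -- `mM θ 2 ≤ 1`
  have hm := H_mM hFH gpH hP
  have hm1 : mM θ 1 = 0 := mM_zero_of_rs (by norm_num) hF gp (d := 1) (by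
    intro e he
    interval_cases e
    · exact hm.1
    · exact hm.2.1) 1 le_rfl
  have hm2 : mM θ 2 + kM θ 1 ≤ mM θ 1 + mM (rs2 θ) 2 :=
    count_M (by norm_num) hF.hom hF.dec gp.prim gp.hz 1
  have hm3 : mM θ 2 ≤ 1 := by
    have := hm.2.2.1
    omega
  have i1 := finite_BS θ 2
  have hall : ∀ β ∈ BS θ 2, IsB θ (fun i j l => X 0 ^ 3 * β i j l) := by
    intro β hβ
    obtain ⟨r, hr⟩ := v5_span i1 (BB_le_BS θ 2) (by unfold mM at hm3; omega) hη'
      (v5_notB e5) β hβ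
    refine v5_congr ((hr.2.smul (X 0 ^ 3)).add (e4.smul (C r))) fun i j l => ?_
    show _ = X 0 ^ 3 * (β i j l - r • η' i j l) + C r * (X 0 ^ 3 * η' i j l)
    rw [smul_eq_C_mul]
    ring
  have hpol := fun a a' a'' => mr_polar3 gp.mr hall hη' a a' a''
  -- the element `X 0 η'`
  have hb' : (fun i j l => X 0 * η' i j l) ∈ BS θ 3 := by
    have h7 := mul_mem_BS hη' (e0 4)
    rwa [lf_e0] at h7
  have hnb' : ¬ IsB θ (fun i j l => X 0 * η' i j l) := by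
    intro h
    refine e3 (v5_congr (h.smul (X 0)) fun i j l => ?_)
    ring
  have hrange : ∀ a : Fin 5 → ℂ, ∃ r : ℂ,
      IsB θ (fun i j l => lf a * (X 0 * η' i j l) - C r * b i j l) := by
    intro a
    refine hker _ (mul_mem_BS hb' a) ?_
    refine v5_congr (hpol (e0 4) a (e0 4)) fun i j l => ?_
    rw [lf_e0]
  have hann : 4 ≤ Module.finrank ℂ (AnnB θ (fun i j l => X 0 * η' i j l)) := by
    let φ : (Fin 5 → ℂ) →ₗ[ℂ] Qm θ :=
      LinearMap.flip (actQ θ : (Fin 5 → ℂ) →ₗ[ℂ] (Qm θ →ₗ[ℂ] Qm θ))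
        ((Bsub θ).mkQ (fun i j l => X 0 * η' i j l))
    have hk : LinearMap.ker φ = AnnB θ (fun i j l => X 0 * η' i j l) := by
      ext a
      rw [LinearMap.mem_ker]
      show actQ θ a ((Bsub θ).mkQ _) = 0 ↔ _
      rw [actQ_mk, mkQ_eq_zero]
      rfl
    have hrg : LinearMap.range φ ≤ Submodule.span ℂ {(Bsub θ).mkQ b} := by
      rintro _ ⟨a, rfl⟩
      obtain ⟨r, hr⟩ := hrange a
      rw [Submodule.mem_span_singleton]
      refine ⟨r, ?_⟩
      show r • (Bsub θ).mkQ b = (Bsub θ).mkQ (fun i j l => lf a * (X 0 * η' i j l))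
      rw [← map_smul]
      symm
      rw [← sub_eq_zero, ← map_sub]
      refine mkQ_eq_zero.2 (v5_congr hr fun i j l => ?_)
      show lf a * (X 0 * η' i j l) - r • b i j l = _
      rw [smul_eq_C_mul]
    have h7 := LinearMap.finrank_range_add_finrank_ker φ
    rw [hk, Module.finrank_fin_fun] at h7
    have h8 := (Submodule.finrank_mono hrg).trans (finrank_span_le_card _)
    rw [Set.toFinset_singleton, Finset.card_singleton] at h8
    omega
  exact ann_two hF (d := 1) hb'.1 hnb' (le_trans (by norm_num) hann) h2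

theorem V_D2 (hF : Fol θ) (gp : GP θ) (gpH : GP (rs2 θ)) (hP : Pl5 (rs2 (rs2 θ)))
    (h2 : Module.finrank ℂ (EE θ 2) = 0) {b : F3 5} (hb : b ∈ BS θ 4) (hnb : ¬ IsB θ b)
    (hb0 : IsB θ (fun i j l => X 0 * b i j l))
    (ha : ∀ a : Fin 5 → ℂ, ∃ b' ∈ BS θ 4, IsB θ (fun i j l => lf a * b i j l - X 0 * b' i j l))
    (hH : ∀ a : Fin 4, IsB (rs2 θ) (fun i j l => X a * rs3 b i j l))
    (hr : ¬ IsB (rs2 θ) (rs3 b)) :
    Module.finrank ℂ (EE θ 3) ≤ 8 ∧ ∀ a : Fin 5, IsB θ (fun i j l => X a * b i j l) := by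
  have hFH := Fol_rs2 hF gp
  have h3 := V_e2H hF gp gpH hP h2
  obtain ⟨h4, h5, h6⟩ := H1 hFH gpH hP h3 (v5_rs3_mem hb) hr hH
  have h7 := mM_zero_of_rs (by norm_num) hF gp (d := 3) h4 3 le_rfl
  have h8 : mM θ 4 + kM θ 3 ≤ mM θ 3 + mM (rs2 θ) 4 :=
    count_M (by norm_num) hF.hom hF.dec gp.prim gp.hz 3
  have h9 : mM θ 4 ≤ 1 := by omega
  refine ⟨?_, fun a => ?_⟩
  · have h10 : Module.finrank ℂ (EE θ 3) ≤ Module.finrank ℂ (EE (rs2 θ) 3) :=
      finrank_EE_le_rs (v5_nz gp.prim) h2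
    rwa [h6] at h10
  · obtain ⟨b', hb', h10⟩ := ha (fun i => if i = a then (1 : ℂ) else 0)
    have i1 := finite_BS θ 4
    obtain ⟨c, hc⟩ := v5_span i1 (BB_le_BS θ 4) (by unfold mM at h9; omega) hb (v5_notB hnb) b' hb'
    refine v5_congr ((h10.add (hc.2.smul (X 0))).add (hb0.smul (C c))) fun i j l => ?_
    show _ = lf (fun i => if i = a then (1 : ℂ) else 0) * b i j l - X 0 * b' i j l +
      X 0 * (b' i j l - c • b i j l) + C c * (X 0 * b i j l)
    rw [v5_lf, smul_eq_C_mul]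
    ring

/-- case Y, z = 5, is impossible in five variables -/
theorem V5 (hX : LemmaX) (hF : Fol θ) (hC : ¬ Cone θ) (gp : GP θ) (gpH : GP (rs2 θ))
    (hP : Pl5 (rs2 (rs2 θ))) : Module.finrank ℂ (EE θ 2) ≠ 0 := by
  intro h2
  obtain ⟨b, hb, hnb, hb0, hker, ha, hH⟩ := V_bz hF gp gpH hP h2
  have hr := V_D1 hF gp gpH hP h2 hb hnb hb0 hker
  obtain ⟨h8, hall⟩ := V_D2 hF gp gpH hP h2 hb hnb hb0 ha hH hr
  have hbot : EE θ 2 = ⊥ := by
    have := finite_EE θ 2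
    exact Submodule.finrank_eq_zero.mp h2
  exact hnb (hX θ hF hC hbot h8 b hb.1 hall)

end

end Pool.Agent.Helper57.SC
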